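import Mathlib

set_option autoImplicit false

/-!
# Strong shift equivalence of matrices over `ℕ`: basic moves and a checker for chains
-/

namespace Pool.Agent.X315.SF

open Matrix

/-- Elementary equivalence of square matrices over `ℕ`: `A = R S`, `B = S R`. -/
def Elem (X Y : Σ n : ℕ, Matrix (Fin n) (Fin n) ℕ) : Prop :=
  ∃ (R : Matrix (Fin X.1) (Fin Y.1) ℕ) (S : Matrix (Fin Y.1) (Fin X.1) ℕ),
    X.2 = R * S ∧ Y.2 = S * R

theorem Elem.symm {X Y : Σ n : ℕ, Matrix (Fin n) (Fin n) ℕ} (h : Elem X Y) : Elem Y X := by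
  obtain ⟨R, S, h1, h2⟩ := h
  exact ⟨S, R, h2, h1⟩

/-- Strong shift equivalence over `ℕ` (a finite chain of elementary equivalences). -/
def SSE {n m : ℕ} (A : Matrix (Fin n) (Fin n) ℕ) (B : Matrix (Fin m) (Fin m) ℕ) : Prop :=
  Relation.TransGen Elem ⟨n, A⟩ ⟨m, B⟩

theorem Elem.sse {n m : ℕ} {A : Matrix (Fin n) (Fin n) ℕ} {B : Matrix (Fin m) (Fin m) ℕ}
    (h : Elem ⟨n, A⟩ ⟨m, B⟩) : SSE A B := Relation.TransGen.single h

theorem SSE.refl {n : ℕ} (A : Matrix (Fin n) (Fin n) ℕ) : SSE A A :=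
  Relation.TransGen.single ⟨A, 1, (Matrix.mul_one A).symm, (Matrix.one_mul A).symm⟩

theorem transGen_symm {α : Type} {r : α → α → Prop} (hr : ∀ a b, r a b → r b a) {a b : α}
    (h : Relation.TransGen r a b) : Relation.TransGen r b a := by
  induction h with
  | single h1 => exact Relation.TransGen.single (hr _ _ h1)
  | tail _ h1 ih => exact Relation.TransGen.head (hr _ _ h1) ih

theorem SSE.symm {n m : ℕ} {A : Matrix (Fin n) (Fin n) ℕ} {B : Matrix (Fin m) (Fin m) ℕ}
    (h : SSE A B) : SSE B A := by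
  exact transGen_symm (fun _ _ h => Elem.symm h) h

theorem SSE.trans {n m k : ℕ} {A : Matrix (Fin n) (Fin n) ℕ} {B : Matrix (Fin m) (Fin m) ℕ}
    {C : Matrix (Fin k) (Fin k) ℕ} (h : SSE A B) (h' : SSE B C) : SSE A C :=
  Relation.TransGen.trans h h'

/-- Exchange of the two states. -/
theorem sse_swap (a b c d : ℕ) : SSE !![a, b; c, d] !![d, c; b, a] := by
  apply Elem.sse
  refine ⟨(!![0, 1; 1, 0] : Matrix (Fin 2) (Fin 2) ℕ), (!![c, d; a, b] : Matrix (Fin 2) (Fin 2) ℕ),
    ?_, ?_⟩ <;> (ext i j; fin_cases i <;> fin_cases j <;> simp [Matrix.mul_apply, Fin.sum_univ_two])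

/-- A state without loop. -/
theorem sse_zero (a b c : ℕ) : SSE !![a, b; c, 0] !![a, b * c; 1, 0] := by
  apply Elem.sse
  refine ⟨(!![1, 0; 0, c] : Matrix (Fin 2) (Fin 2) ℕ), (!![a, b; 1, 0] : Matrix (Fin 2) (Fin 2) ℕ),
    ?_, ?_⟩ <;> (ext i j; fin_cases i <;> fin_cases j <;> simp [Matrix.mul_apply, Fin.sum_univ_two])

theorem sse_prin_step (a e d : ℕ) : SSE !![a, a + e; 1, d + 1] !![a + 1, e + d; 1, d] := by
  apply Elem.sse
  refine ⟨(!![a, e; 1, d] : Matrix (Fin 2) (Fin 2) ℕ), (!![1, 1; 0, 1] : Matrix (Fin 2) (Fin 2) ℕ),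
    ?_, ?_⟩ <;> (ext i j; fin_cases i <;> fin_cases j <;>
      simp [Matrix.mul_apply, Fin.sum_univ_two]; try omega)

/-- The principal class. -/
theorem sse_prin (D : ℕ) : ∀ d a : ℕ, SSE !![a, a * d + D; 1, d] !![a + d, D; 1, 0]
  | 0, a => by
    have : SSE !![a, D; 1, 0] !![a, D; 1, 0] := SSE.refl _
    simpa using this
  | d + 1, a => by
    have h1 := sse_prin_step a (a * d + D) d
    have h2 := sse_prin D d (a + 1)
    have e1 : a + (a * d + D) = a * (d + 1) + D := by ring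
    have e2 : (a * d + D) + d = (a + 1) * d + D := by ring
    have e3 : a + 1 + d = a + (d + 1) := by ring
    rw [e1, e2] at h1
    rw [e3] at h2
    exact h1.trans h2

/-- The `n × m` matrix with the rows given one after the other. -/
def mat (n m : ℕ) (l : List ℕ) : Matrix (Fin n) (Fin m) ℕ :=
  Matrix.of fun i j => l.getD (i.1 * m + j.1) 0

/-- One elementary equivalence. -/
def stepOK (n : ℕ) (X : List ℕ) (m : ℕ) (Y R S : List ℕ) : Bool :=
  decide (mat n n X = mat n m R * mat m n S) && decide (mat m m Y = mat m n S * mat n m R)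

/-- A chain of elementary equivalences. -/
def chainOK : ℕ → List ℕ → List (ℕ × List ℕ × List ℕ × List ℕ) → ℕ → List ℕ → Bool
  | n, X, [], n', X' => (n == n') && (X == X')
  | n, X, (m, Y, R, S) :: L, n', X' => stepOK n X m Y R S && chainOK m Y L n' X'

theorem sse_of_chain : ∀ (L : List (ℕ × List ℕ × List ℕ × List ℕ)) (n : ℕ) (X : List ℕ) (n' : ℕ)
    (X' : List ℕ), chainOK n X L n' X' = true → SSE (mat n n X) (mat n' n' X')
  | [], n, X, n', X', h => by
    simp only [chainOK, Bool.and_eq_true, beq_iff_eq] at h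
    obtain ⟨rfl, rfl⟩ := h
    exact SSE.refl _
  | (m, Y, R, S) :: L, n, X, n', X', h => by
    simp only [chainOK, stepOK, Bool.and_eq_true, decide_eq_true_eq] at h
    exact (Elem.sse ⟨_, _, h.1.1, h.1.2⟩).trans (sse_of_chain L m Y n' X' h.2)

theorem mat_two (a b c d : ℕ) : mat 2 2 [a, b, c, d] = !![a, b; c, d] := by
  ext i j; fin_cases i <;> fin_cases j <;> rfl

theorem sse_of_chain_two {a b c d a' b' c' d' : ℕ} (L : List (ℕ × List ℕ × List ℕ × List ℕ))
    (h : chainOK 2 [a, b, c, d] L 2 [a', b', c', d'] = true) :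
    SSE !![a, b; c, d] !![a', b'; c', d'] := by
  have := sse_of_chain L 2 _ 2 _ h
  rwa [mat_two, mat_two] at this

end Pool.Agent.X315.SF
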