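import Pool.Agent.X315.SF.Base

set_option autoImplicit false

/-!
# Chains of elementary equivalences found by computer
-/

namespace Pool.Agent.X315.SF

/-- A chain from `[1, 2; 2, 1]` to `[1, 2; 2, 1]`. -/
def ch_1_2_2_1 : List (ℕ × List ℕ × List ℕ × List ℕ) := [
]

theorem sp_1_2_2_1 : SSE !![1, 2; 2, 1] !![1, 2; 2, 1] :=
  sse_of_chain_two ch_1_2_2_1 (by decide +kernel)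

/-- A chain from `[1, 3; 2, 1]` to `[2, 5; 1, 0]`. -/
def ch_1_3_2_1 : List (ℕ × List ℕ × List ℕ × List ℕ) := [
  (3, [0, 0, 1, 1, 1, 2, 2, 2, 1], [1, 1, 0, 0, 0, 1],
   [0, 1, 1, 2, 2, 1]),
  (4, [0, 0, 0, 1, 0, 0, 0, 1, 0, 1, 1, 2, 1, 1, 2, 1], [0, 0, 0, 1, 0, 1, 1, 2, 1, 1, 2, 1],
   [1, 0, 0, 1, 0, 0, 0, 1, 0, 0, 0, 1]),
  (4, [0, 1, 0, 0, 1, 0, 2, 1, 0, 1, 1, 1, 1, 1, 2, 1], [0, 1, 0, 0, 0, 1, 0, 0, 0, 1, 1, 1, 1, 0, 2, 1],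
   [1, 0, 0, 0, 0, 0, 0, 1, 0, 0, 1, 0, 0, 1, 0, 1]),
  (4, [0, 0, 2, 1, 1, 0, 2, 1, 1, 1, 1, 0, 2, 0, 2, 1], [1, 0, 0, 0, 0, 0, 2, 1, 1, 1, 1, 0, 1, 0, 2, 1],
   [0, 1, 0, 0, 0, 0, 0, 1, 0, 0, 1, 0, 1, 0, 0, 1]),
  (4, [0, 1, 0, 1, 1, 0, 1, 1, 0, 0, 1, 2, 2, 1, 1, 1], [2, 0, 1, 0, 1, 0, 1, 1, 0, 1, 0, 1, 0, 0, 1, 2],
   [0, 0, 1, 0, 0, 1, 0, 0, 0, 0, 0, 1, 1, 0, 1, 0]),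
  (4, [0, 1, 0, 1, 1, 0, 1, 0, 1, 2, 0, 1, 1, 2, 1, 2], [1, 0, 1, 0, 0, 1, 0, 1, 0, 0, 1, 1, 1, 2, 0, 1],
   [0, 1, 0, 0, 1, 0, 0, 0, 0, 0, 0, 1, 0, 0, 1, 1]),
  (4, [0, 0, 0, 1, 1, 0, 1, 0, 1, 1, 0, 1, 2, 0, 2, 2], [0, 0, 0, 1, 1, 0, 1, 0, 1, 1, 0, 1, 1, 0, 1, 2],
   [1, 0, 0, 0, 0, 1, 0, 0, 0, 0, 1, 0, 0, 1, 0, 1]),
  (4, [0, 0, 0, 1, 0, 0, 1, 0, 1, 1, 0, 2, 0, 0, 2, 2], [0, 0, 0, 1, 0, 0, 1, 0, 1, 1, 0, 1, 0, 0, 2, 2],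
   [1, 0, 0, 0, 0, 1, 0, 0, 1, 0, 1, 0, 0, 0, 0, 1]),
  (3, [0, 1, 1, 1, 0, 2, 0, 2, 2], [0, 0, 1, 0, 1, 0, 1, 0, 2, 0, 2, 2],
   [1, 1, 0, 0, 0, 0, 1, 0, 0, 0, 0, 1]),
  (3, [0, 0, 1, 0, 0, 2, 1, 2, 2], [0, 0, 1, 1, 2, 0, 0, 0, 2],
   [1, 0, 0, 0, 0, 1, 0, 1, 1]),
  (3, [0, 0, 1, 0, 0, 1, 2, 3, 2], [0, 1, 0, 1, 1, 0, 0, 0, 1],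
   [0, 0, 1, 0, 0, 1, 1, 2, 2]),
  (2, [0, 1, 5, 2], [1, 0, 1, 0, 0, 1],
   [0, 0, 1, 2, 3, 2]),
  (2, [2, 5, 1, 0], [0, 1, 1, 0],
   [5, 2, 0, 1])]

theorem sp_1_3_2_1 : SSE !![1, 3; 2, 1] !![2, 5; 1, 0] :=
  sse_of_chain_two ch_1_3_2_1 (by decide +kernel)

/-- A chain from `[1, 3; 3, 1]` to `[1, 3; 3, 1]`. -/
def ch_1_3_3_1 : List (ℕ × List ℕ × List ℕ × List ℕ) := [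
]

theorem sp_1_3_3_1 : SSE !![1, 3; 3, 1] !![1, 3; 3, 1] :=
  sse_of_chain_two ch_1_3_3_1 (by decide +kernel)

/-- A chain from `[1, 4; 2, 1]` to `[1, 4; 2, 1]`. -/
def ch_1_4_2_1 : List (ℕ × List ℕ × List ℕ × List ℕ) := [
]

theorem sp_1_4_2_1 : SSE !![1, 4; 2, 1] !![1, 4; 2, 1] :=
  sse_of_chain_two ch_1_4_2_1 (by decide +kernel)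

/-- A chain from `[1, 4; 3, 1]` to `[2, 11; 1, 0]`. -/
def ch_1_4_3_1 : List (ℕ × List ℕ × List ℕ × List ℕ) := [
  (3, [0, 0, 1, 1, 1, 2, 4, 4, 1], [0, 0, 1, 1, 1, 0],
   [1, 0, 2, 1, 1, 4]),
  (4, [0, 0, 0, 1, 0, 0, 0, 1, 0, 1, 1, 2, 1, 3, 4, 1], [0, 0, 0, 1, 0, 1, 1, 2, 1, 3, 4, 1],
   [1, 0, 0, 1, 0, 0, 0, 1, 0, 0, 0, 1]),
  (4, [0, 0, 0, 1, 0, 0, 0, 2, 1, 0, 1, 2, 2, 1, 4, 1], [0, 0, 0, 1, 0, 0, 0, 1, 1, 0, 1, 2, 2, 1, 4, 1],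
   [0, 1, 0, 0, 1, 1, 0, 0, 0, 0, 1, 0, 0, 0, 0, 1]),
  (4, [0, 0, 0, 1, 0, 0, 0, 3, 1, 0, 1, 2, 1, 1, 4, 1], [0, 0, 0, 1, 0, 0, 0, 2, 1, 0, 1, 2, 1, 1, 4, 1],
   [1, 0, 0, 0, 1, 1, 0, 0, 0, 0, 1, 0, 0, 0, 0, 1]),
  (4, [0, 3, 0, 0, 1, 0, 1, 4, 1, 1, 1, 4, 0, 1, 1, 1], [0, 1, 0, 0, 0, 3, 0, 0, 0, 1, 1, 1, 1, 0, 1, 4],
   [0, 1, 0, 0, 0, 0, 0, 1, 1, 0, 0, 1, 0, 0, 1, 0]),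
  (4, [0, 1, 1, 4, 0, 0, 1, 4, 0, 4, 1, 4, 1, 1, 0, 1], [0, 3, 0, 0, 0, 0, 1, 4, 0, 1, 1, 4, 1, 1, 0, 1],
   [0, 0, 1, 0, 0, 1, 0, 0, 1, 0, 1, 0, 0, 0, 0, 1]),
  (4, [0, 3, 1, 1, 1, 0, 0, 1, 0, 0, 1, 4, 1, 4, 1, 1], [0, 3, 1, 1, 0, 4, 1, 0, 0, 0, 1, 4, 1, 0, 0, 1],
   [1, 0, 0, 0, 0, 0, 0, 1, 0, 0, 1, 0, 0, 1, 0, 1]),
  (4, [0, 1, 0, 2, 1, 0, 0, 1, 0, 4, 1, 4, 3, 1, 1, 1], [0, 0, 0, 1, 1, 0, 0, 0, 0, 0, 1, 0, 0, 1, 0, 1],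
   [1, 0, 0, 1, 1, 1, 0, 0, 0, 0, 1, 4, 0, 3, 1, 1]),
  (4, [0, 1, 1, 0, 1, 0, 2, 0, 0, 3, 1, 1, 3, 1, 5, 1], [1, 0, 2, 0, 0, 1, 1, 0, 3, 0, 4, 1, 0, 3, 1, 1],
   [0, 1, 0, 0, 1, 0, 0, 0, 0, 0, 0, 1, 0, 1, 1, 0]),
  (4, [0, 1, 0, 2, 1, 0, 0, 1, 0, 4, 1, 7, 2, 0, 1, 1], [1, 0, 0, 1, 0, 1, 0, 2, 2, 0, 1, 1, 0, 3, 1, 5],
   [0, 1, 0, 0, 1, 0, 0, 0, 0, 1, 0, 1, 0, 0, 1, 0]),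
  (4, [0, 1, 1, 0, 3, 0, 2, 1, 2, 0, 1, 1, 0, 4, 3, 1], [0, 1, 1, 0, 1, 0, 1, 0, 0, 4, 3, 1, 2, 0, 1, 1],
   [1, 0, 0, 0, 0, 1, 0, 1, 0, 0, 0, 1, 0, 0, 1, 0]),
  (4, [0, 1, 1, 0, 2, 0, 0, 1, 3, 1, 0, 1, 2, 2, 4, 2], [0, 1, 1, 0, 3, 1, 0, 1, 2, 0, 0, 1, 0, 2, 4, 1],
   [1, 0, 0, 0, 0, 0, 1, 0, 0, 1, 0, 0, 0, 0, 1, 1]),
  (4, [0, 1, 1, 0, 1, 0, 0, 1, 2, 1, 0, 1, 0, 3, 5, 2], [0, 1, 1, 0, 1, 0, 0, 1, 2, 1, 0, 1, 0, 2, 4, 2],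
   [1, 0, 0, 0, 0, 1, 0, 0, 0, 0, 1, 0, 1, 0, 0, 1]),
  (5, [0, 1, 0, 0, 1, 0, 0, 1, 1, 0, 0, 1, 0, 0, 1, 1, 2, 0, 0, 1, 0, 0, 3, 5, 2], [0, 0, 1, 1, 0, 0, 1, 0, 0, 1, 1, 2, 0, 0, 1, 0, 0, 3, 5, 2],
   [0, 1, 0, 0, 1, 0, 0, 0, 0, 1, 0, 0, 0, 0, 1, 0, 0, 0, 0, 1]),
  (5, [0, 0, 0, 1, 0, 1, 0, 0, 0, 1, 2, 1, 0, 0, 1, 3, 1, 0, 0, 2, 0, 0, 2, 3, 2], [1, 0, 0, 0, 1, 0, 0, 0, 1, 0, 1, 0, 0, 0, 1, 2, 1, 0, 0, 1, 0, 0, 2, 3, 2],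
   [0, 1, 0, 0, 0, 1, 0, 0, 0, 0, 0, 0, 0, 1, 0, 0, 0, 1, 1, 0, 0, 0, 0, 0, 1]),
  (5, [0, 0, 0, 1, 0, 1, 0, 0, 1, 1, 1, 1, 0, 0, 1, 2, 1, 0, 0, 2, 0, 0, 2, 3, 2], [0, 0, 0, 1, 0, 1, 0, 0, 0, 1, 1, 1, 0, 0, 1, 2, 1, 0, 0, 2, 0, 0, 2, 3, 2],
   [1, 0, 0, 0, 0, 1, 1, 0, 0, 0, 0, 0, 1, 0, 0, 0, 0, 0, 1, 0, 0, 0, 0, 0, 1]),
  (5, [0, 0, 0, 1, 0, 0, 0, 1, 0, 1, 1, 0, 0, 2, 1, 1, 0, 1, 0, 2, 0, 2, 0, 3, 2], [0, 0, 0, 1, 0, 1, 0, 0, 1, 1, 0, 0, 1, 0, 1, 1, 0, 1, 0, 2, 0, 2, 0, 3, 2],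
   [1, 0, 0, 0, 0, 0, 0, 1, 0, 0, 1, 1, 0, 0, 0, 0, 0, 0, 1, 0, 0, 0, 0, 0, 1]),
  (5, [0, 1, 2, 0, 3, 0, 0, 0, 1, 0, 0, 1, 0, 2, 1, 0, 1, 1, 0, 2, 2, 0, 0, 1, 2], [0, 0, 0, 1, 0, 0, 0, 1, 0, 1, 0, 1, 0, 2, 1, 0, 1, 1, 0, 2, 2, 0, 0, 1, 2],
   [0, 1, 0, 1, 0, 1, 0, 0, 0, 0, 0, 0, 1, 0, 0, 0, 0, 0, 1, 0, 0, 0, 0, 0, 1]),
  (5, [0, 0, 0, 1, 0, 0, 0, 0, 1, 2, 1, 1, 0, 2, 0, 1, 2, 1, 0, 0, 1, 3, 2, 1, 2], [1, 3, 2, 0, 0, 0, 0, 0, 1, 0, 1, 1, 0, 2, 0, 1, 2, 1, 0, 0, 0, 0, 0, 1, 2],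
   [0, 1, 0, 0, 0, 0, 0, 0, 0, 1, 0, 0, 1, 0, 0, 0, 0, 0, 1, 0, 1, 0, 0, 0, 1]),
  (5, [0, 0, 0, 1, 2, 0, 0, 1, 2, 0, 0, 0, 0, 2, 2, 1, 1, 1, 0, 0, 2, 2, 1, 1, 2], [0, 0, 0, 1, 0, 0, 0, 0, 1, 2, 0, 0, 1, 2, 0, 1, 1, 1, 0, 0, 2, 2, 1, 1, 2],
   [0, 1, 0, 0, 0, 0, 0, 1, 0, 0, 1, 1, 0, 0, 0, 0, 0, 0, 1, 0, 0, 0, 0, 0, 1]),
  (4, [0, 1, 1, 0, 2, 0, 0, 2, 3, 1, 0, 2, 1, 1, 2, 2], [1, 0, 0, 2, 2, 1, 0, 0, 2, 0, 0, 2, 0, 1, 1, 0, 1, 1, 2, 2],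
   [0, 0, 0, 1, 0, 0, 0, 1, 0, 0, 1, 1, 0, 0, 0, 0, 0, 0, 0, 1]),
  (5, [0, 0, 1, 0, 1, 0, 0, 1, 0, 1, 1, 1, 0, 1, 0, 1, 1, 3, 0, 2, 1, 1, 1, 2, 2], [0, 0, 1, 0, 0, 1, 1, 0, 0, 0, 0, 0, 0, 1, 0, 0, 0, 0, 0, 1],
   [1, 0, 0, 1, 1, 0, 0, 1, 0, 1, 1, 0, 3, 1, 0, 2, 1, 1, 2, 2]),
  (4, [0, 1, 0, 1, 2, 0, 1, 0, 2, 3, 0, 2, 2, 1, 2, 2], [1, 0, 0, 0, 1, 0, 0, 0, 0, 1, 0, 0, 0, 0, 1, 0, 0, 0, 0, 1],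
   [0, 0, 1, 0, 1, 1, 1, 0, 1, 0, 1, 1, 3, 0, 2, 1, 1, 1, 2, 2]),
  (4, [0, 3, 2, 4, 1, 0, 0, 2, 2, 0, 1, 3, 0, 1, 1, 1], [0, 0, 0, 1, 0, 1, 0, 0, 1, 0, 0, 0, 0, 0, 1, 1],
   [2, 3, 0, 2, 2, 0, 1, 0, 2, 0, 2, 1, 0, 1, 0, 1]),
  (4, [0, 0, 1, 1, 1, 0, 3, 2, 2, 1, 1, 1, 3, 2, 0, 1], [1, 0, 3, 2, 2, 1, 0, 0, 3, 2, 0, 1, 0, 0, 1, 1],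
   [0, 0, 0, 1, 1, 0, 0, 0, 0, 1, 0, 1, 0, 0, 1, 0]),
  (4, [0, 0, 1, 1, 1, 0, 4, 3, 1, 1, 1, 1, 1, 2, 0, 1], [0, 0, 1, 1, 1, 0, 3, 2, 1, 1, 1, 1, 1, 2, 0, 1],
   [1, 0, 0, 0, 1, 1, 0, 0, 0, 0, 1, 0, 0, 0, 0, 1]),
  (5, [0, 0, 0, 1, 1, 0, 0, 0, 1, 1, 0, 1, 0, 3, 4, 1, 0, 2, 1, 0, 0, 1, 1, 1, 1], [0, 0, 0, 1, 1, 0, 1, 0, 3, 4, 0, 1, 1, 1, 1, 1, 0, 2, 1, 0],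
   [1, 0, 0, 0, 1, 0, 0, 0, 0, 1, 0, 0, 0, 0, 0, 1, 0, 0, 1, 0]),
  (5, [0, 0, 1, 0, 1, 0, 0, 3, 1, 3, 0, 1, 0, 1, 1, 0, 1, 1, 1, 2, 1, 2, 0, 0, 1], [0, 0, 1, 0, 1, 0, 0, 1, 0, 1, 0, 0, 3, 1, 3, 1, 2, 0, 0, 1, 0, 1, 0, 1, 1],
   [1, 0, 0, 0, 0, 0, 0, 1, 0, 0, 0, 0, 0, 0, 1, 0, 1, 0, 0, 1, 0, 0, 0, 1, 0]),
  (5, [0, 0, 1, 0, 0, 0, 0, 3, 1, 0, 1, 3, 0, 1, 2, 0, 1, 1, 1, 1, 1, 2, 0, 0, 1], [0, 0, 1, 0, 0, 0, 0, 3, 1, 0, 0, 1, 0, 1, 1, 0, 1, 1, 1, 1, 1, 2, 0, 0, 1],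
   [1, 0, 0, 0, 0, 0, 1, 0, 0, 0, 0, 0, 1, 0, 1, 0, 0, 0, 1, 0, 0, 0, 0, 0, 1]),
  (5, [0, 0, 1, 0, 0, 0, 0, 3, 1, 0, 1, 1, 0, 1, 2, 0, 0, 1, 1, 1, 1, 1, 3, 1, 1], [0, 0, 1, 0, 0, 0, 0, 3, 1, 0, 1, 1, 0, 1, 2, 0, 0, 1, 1, 1, 1, 1, 0, 0, 1],
   [1, 0, 0, 0, 0, 0, 1, 0, 0, 0, 0, 0, 1, 0, 0, 0, 0, 0, 1, 0, 0, 1, 0, 0, 1]),
  (4, [0, 4, 1, 0, 1, 0, 1, 2, 0, 1, 1, 1, 1, 3, 1, 1], [0, 1, 0, 0, 0, 3, 1, 0, 1, 0, 1, 2, 0, 1, 1, 1, 1, 3, 1, 1],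
   [1, 1, 0, 0, 0, 0, 0, 1, 0, 0, 0, 0, 0, 1, 0, 0, 0, 0, 0, 1]),
  (5, [0, 0, 1, 1, 0, 0, 0, 3, 0, 0, 1, 1, 0, 1, 2, 0, 0, 1, 1, 1, 1, 1, 3, 1, 1], [1, 1, 0, 0, 0, 0, 0, 1, 0, 0, 0, 0, 0, 1, 0, 0, 0, 0, 0, 1],
   [0, 1, 1, 0, 0, 3, 0, 0, 1, 0, 1, 2, 0, 1, 1, 1, 1, 3, 1, 1]),
  (5, [0, 0, 1, 1, 0, 0, 0, 3, 0, 0, 1, 3, 0, 1, 2, 0, 1, 1, 1, 1, 1, 2, 0, 1, 1], [1, 0, 0, 0, 0, 0, 1, 0, 0, 0, 0, 0, 1, 0, 0, 0, 0, 0, 1, 0, 0, 1, 0, 0, 1],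
   [0, 0, 1, 1, 0, 0, 0, 3, 0, 0, 1, 1, 0, 1, 2, 0, 0, 1, 1, 1, 1, 1, 0, 1, 1]),
  (5, [0, 0, 1, 1, 1, 0, 0, 3, 0, 3, 0, 1, 0, 0, 1, 0, 1, 1, 1, 2, 1, 2, 0, 1, 1], [1, 0, 0, 0, 0, 0, 1, 0, 0, 0, 0, 0, 1, 0, 1, 0, 0, 0, 1, 0, 0, 0, 0, 0, 1],
   [0, 0, 1, 1, 0, 0, 0, 3, 0, 0, 0, 1, 0, 0, 1, 0, 1, 1, 1, 1, 1, 2, 0, 1, 1]),
  (5, [0, 0, 1, 0, 1, 0, 0, 1, 0, 1, 0, 3, 0, 0, 3, 1, 1, 0, 1, 1, 1, 0, 2, 2, 1], [0, 0, 0, 1, 0, 0, 0, 1, 0, 0, 0, 1, 0, 0, 0, 1, 0, 0, 1, 0, 0, 0, 0, 0, 1],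
   [0, 1, 0, 0, 1, 0, 1, 0, 0, 1, 0, 0, 3, 0, 3, 0, 0, 1, 1, 1, 1, 2, 0, 1, 1]),
  (4, [0, 1, 0, 1, 3, 0, 0, 3, 2, 0, 1, 1, 1, 2, 2, 1], [1, 0, 0, 0, 1, 0, 0, 0, 0, 1, 0, 0, 0, 0, 1, 0, 0, 0, 0, 1],
   [0, 0, 1, 0, 1, 0, 3, 0, 0, 3, 1, 1, 0, 1, 1, 1, 0, 2, 2, 1]),
  (5, [0, 1, 0, 0, 1, 0, 0, 3, 0, 3, 0, 1, 0, 0, 1, 1, 0, 1, 1, 1, 0, 2, 1, 2, 1], [0, 1, 0, 0, 1, 0, 0, 3, 0, 3, 1, 0, 1, 1, 1, 0, 2, 1, 2, 1],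
   [1, 0, 0, 0, 0, 1, 0, 0, 1, 0, 0, 0, 0, 0, 1, 0, 0, 0, 0, 1]),
  (5, [0, 1, 1, 0, 0, 0, 0, 2, 2, 1, 0, 0, 0, 0, 3, 1, 0, 0, 1, 1, 0, 1, 3, 2, 1], [0, 1, 1, 0, 0, 0, 0, 0, 0, 3, 0, 1, 1, 0, 0, 1, 0, 0, 1, 1, 0, 0, 2, 2, 1],
   [1, 0, 0, 0, 0, 0, 0, 0, 0, 1, 0, 1, 0, 0, 0, 0, 0, 0, 1, 0, 0, 0, 1, 0, 1]),
  (5, [0, 1, 0, 0, 0, 0, 0, 2, 2, 4, 0, 0, 0, 0, 3, 1, 0, 0, 1, 1, 0, 1, 2, 2, 1], [0, 1, 0, 0, 0, 0, 0, 2, 2, 1, 0, 0, 0, 0, 3, 1, 0, 0, 1, 1, 0, 1, 2, 2, 1],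
   [1, 0, 0, 0, 0, 0, 1, 1, 0, 0, 0, 0, 1, 0, 0, 0, 0, 0, 1, 0, 0, 0, 0, 0, 1]),
  (5, [0, 1, 0, 0, 0, 0, 0, 2, 0, 4, 1, 0, 0, 1, 4, 1, 0, 0, 1, 1, 0, 1, 2, 0, 1], [0, 1, 0, 0, 0, 0, 0, 2, 0, 4, 0, 0, 0, 0, 3, 1, 0, 0, 1, 1, 0, 1, 2, 0, 1],
   [1, 0, 0, 0, 0, 0, 1, 0, 0, 0, 0, 0, 1, 1, 0, 0, 0, 0, 1, 0, 0, 0, 0, 0, 1]),
  (4, [0, 2, 0, 4, 0, 0, 1, 4, 1, 0, 1, 1, 1, 2, 0, 1], [1, 0, 0, 0, 0, 2, 0, 4, 0, 0, 1, 4, 0, 0, 1, 1, 1, 2, 0, 1],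
   [0, 1, 0, 0, 0, 0, 0, 1, 0, 0, 1, 0, 0, 1, 0, 0, 0, 0, 0, 1]),
  (4, [0, 2, 0, 4, 0, 0, 1, 3, 2, 2, 1, 1, 1, 2, 0, 1], [0, 2, 0, 4, 0, 0, 1, 3, 1, 0, 1, 0, 1, 2, 0, 1],
   [1, 0, 0, 0, 0, 1, 0, 0, 0, 0, 1, 1, 0, 0, 0, 1]),
  (4, [0, 0, 3, 1, 2, 0, 7, 1, 1, 1, 1, 0, 0, 2, 1, 1], [2, 0, 4, 0, 0, 0, 3, 1, 0, 2, 1, 1, 1, 1, 1, 0],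
   [0, 1, 0, 0, 1, 1, 0, 0, 0, 0, 0, 1, 0, 0, 1, 0]),
  (4, [0, 1, 0, 1, 5, 0, 1, 2, 1, 2, 1, 0, 3, 1, 1, 1], [3, 0, 1, 0, 5, 0, 1, 2, 0, 1, 0, 1, 1, 2, 1, 0],
   [0, 0, 1, 0, 0, 1, 0, 0, 0, 0, 0, 1, 1, 0, 1, 0]),
  (4, [0, 1, 0, 1, 4, 0, 1, 2, 0, 3, 1, 1, 2, 1, 1, 1], [0, 1, 0, 1, 4, 0, 1, 2, 0, 2, 1, 0, 2, 1, 1, 1],
   [1, 0, 0, 0, 0, 1, 0, 0, 1, 0, 1, 0, 0, 0, 0, 1]),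
  (5, [0, 0, 1, 0, 1, 0, 0, 1, 0, 1, 2, 2, 0, 1, 2, 0, 0, 3, 1, 1, 1, 1, 1, 1, 1], [0, 0, 1, 0, 1, 2, 2, 0, 1, 2, 0, 0, 3, 1, 1, 1, 1, 1, 1, 1],
   [1, 0, 0, 0, 1, 0, 0, 0, 0, 1, 0, 0, 0, 0, 1, 0, 0, 0, 0, 1]),
  (4, [0, 2, 0, 2, 2, 0, 1, 2, 0, 3, 1, 1, 1, 1, 1, 1], [0, 1, 0, 1, 0, 1, 0, 1, 2, 0, 1, 2, 0, 3, 1, 1, 1, 1, 1, 1],
   [1, 1, 0, 0, 0, 0, 0, 1, 0, 0, 0, 0, 0, 1, 0, 0, 0, 0, 0, 1]),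
  (4, [0, 1, 1, 1, 0, 0, 1, 2, 1, 3, 1, 0, 2, 3, 1, 1], [2, 2, 0, 0, 0, 0, 1, 2, 1, 3, 1, 0, 0, 1, 1, 1],
   [0, 0, 0, 1, 0, 1, 0, 0, 0, 0, 1, 0, 1, 0, 0, 1]),
  (4, [0, 1, 1, 2, 0, 0, 2, 3, 1, 0, 1, 1, 1, 3, 0, 1], [1, 0, 0, 0, 0, 1, 0, 0, 0, 0, 0, 1, 0, 0, 1, 1],
   [0, 1, 1, 1, 0, 0, 1, 2, 1, 0, 0, 1, 1, 3, 1, 0]),
  (4, [0, 3, 0, 1, 3, 0, 2, 0, 0, 0, 1, 1, 2, 4, 1, 1], [2, 1, 1, 0, 3, 0, 2, 0, 0, 0, 1, 1, 0, 3, 0, 1],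
   [0, 0, 0, 1, 0, 1, 0, 0, 0, 0, 1, 0, 1, 0, 0, 1]),
  (4, [0, 2, 4, 0, 1, 0, 3, 1, 0, 3, 0, 2, 1, 0, 0, 2], [0, 1, 0, 0, 0, 0, 1, 0, 0, 0, 0, 1, 1, 0, 0, 1],
   [2, 4, 0, 0, 0, 3, 0, 1, 3, 0, 2, 0, 0, 0, 1, 1]),
  (5, [0, 0, 1, 2, 0, 0, 0, 1, 2, 0, 1, 1, 0, 3, 1, 0, 0, 3, 0, 2, 1, 1, 0, 0, 2], [1, 1, 0, 0, 0, 0, 0, 1, 0, 0, 0, 0, 0, 1, 0, 0, 0, 0, 0, 1],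
   [0, 1, 2, 0, 0, 1, 2, 0, 1, 0, 3, 1, 0, 3, 0, 2, 1, 0, 0, 2]),
  (4, [0, 1, 2, 0, 2, 0, 3, 1, 0, 3, 0, 2, 2, 0, 0, 2], [1, 0, 0, 0, 1, 0, 0, 0, 0, 1, 0, 0, 0, 0, 1, 0, 0, 0, 0, 1],
   [0, 0, 1, 2, 0, 1, 1, 0, 3, 1, 0, 0, 3, 0, 2, 1, 1, 0, 0, 2]),
  (5, [0, 1, 2, 0, 0, 2, 0, 3, 1, 1, 0, 3, 0, 2, 2, 1, 0, 0, 1, 1, 1, 0, 0, 1, 1], [1, 0, 0, 0, 0, 0, 1, 0, 0, 0, 0, 0, 1, 0, 0, 0, 0, 0, 1, 1],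
   [0, 1, 2, 0, 2, 0, 3, 1, 0, 3, 0, 2, 1, 0, 0, 1, 1, 0, 0, 1]),
  (4, [0, 1, 2, 0, 2, 0, 3, 2, 0, 3, 0, 4, 1, 0, 0, 2], [1, 0, 0, 0, 0, 1, 0, 0, 0, 0, 1, 0, 0, 0, 0, 1, 0, 0, 0, 1],
   [0, 1, 2, 0, 0, 2, 0, 3, 1, 1, 0, 3, 0, 2, 2, 1, 0, 0, 1, 1]),
  (4, [0, 3, 0, 2, 3, 0, 4, 0, 0, 0, 1, 1, 1, 2, 1, 1], [1, 2, 0, 0, 0, 3, 0, 2, 3, 0, 4, 0, 0, 0, 1, 1],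
   [0, 1, 0, 0, 0, 0, 1, 0, 0, 0, 0, 1, 1, 0, 0, 1]),
  (4, [0, 3, 1, 3, 3, 0, 1, 0, 0, 0, 1, 1, 1, 2, 0, 1], [0, 3, 0, 2, 3, 0, 1, 0, 0, 0, 1, 1, 1, 2, 0, 1],
   [1, 0, 1, 0, 0, 1, 0, 0, 0, 0, 1, 0, 0, 0, 0, 1]),
  (5, [0, 0, 1, 0, 1, 0, 0, 2, 1, 2, 3, 3, 0, 1, 0, 0, 0, 0, 1, 1, 1, 1, 2, 0, 1], [1, 1, 0, 0, 0, 0, 0, 1, 0, 0, 0, 0, 0, 1, 0, 0, 0, 0, 0, 1],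
   [0, 1, 0, 1, 0, 2, 1, 2, 3, 0, 1, 0, 0, 0, 1, 1, 1, 2, 0, 1]),
  (5, [0, 1, 1, 0, 1, 0, 0, 3, 1, 3, 2, 2, 0, 1, 2, 1, 0, 0, 1, 1, 1, 1, 0, 0, 1], [0, 0, 0, 0, 1, 0, 0, 1, 0, 0, 0, 1, 0, 0, 0, 0, 0, 0, 1, 0, 1, 0, 0, 0, 1],
   [1, 1, 1, 0, 0, 3, 3, 0, 1, 0, 0, 0, 2, 1, 2, 0, 0, 0, 1, 1, 0, 0, 1, 0, 1]),
  (5, [0, 0, 1, 0, 1, 0, 0, 2, 1, 2, 0, 1, 0, 0, 1, 1, 0, 1, 1, 0, 3, 3, 1, 1, 1], [0, 1, 0, 0, 1, 3, 3, 0, 1, 0, 0, 0, 2, 1, 2, 1, 0, 1, 1, 0, 0, 0, 1, 0, 1],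
   [0, 0, 0, 0, 1, 0, 0, 1, 0, 0, 1, 0, 0, 0, 0, 0, 0, 0, 1, 0, 0, 1, 0, 0, 1]),
  (5, [0, 0, 1, 0, 1, 1, 0, 0, 0, 1, 1, 0, 0, 1, 2, 0, 1, 1, 1, 1, 0, 3, 3, 1, 1], [1, 0, 0, 0, 1, 1, 0, 0, 1, 2, 0, 0, 1, 0, 1, 0, 1, 0, 1, 0, 0, 3, 3, 1, 1],
   [0, 0, 1, 0, 0, 1, 0, 0, 0, 0, 0, 1, 0, 0, 0, 0, 0, 1, 1, 0, 0, 0, 0, 0, 1]),
  (5, [0, 1, 0, 1, 2, 1, 0, 0, 0, 1, 0, 2, 0, 1, 3, 0, 0, 1, 1, 1, 0, 0, 3, 1, 1], [1, 0, 0, 0, 1, 0, 1, 0, 0, 1, 0, 1, 0, 1, 2, 0, 0, 1, 1, 1, 0, 0, 3, 1, 1],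
   [0, 0, 1, 0, 0, 1, 0, 0, 0, 0, 0, 1, 1, 0, 0, 0, 0, 0, 1, 0, 0, 0, 0, 0, 1]),
  (5, [0, 1, 1, 0, 1, 1, 0, 1, 0, 0, 0, 0, 0, 3, 1, 0, 2, 2, 0, 1, 0, 0, 0, 4, 2], [0, 1, 1, 0, 1, 1, 0, 1, 0, 0, 0, 2, 2, 0, 1, 0, 0, 0, 1, 1, 0, 0, 0, 3, 1],
   [1, 0, 0, 0, 0, 0, 1, 0, 0, 0, 0, 0, 0, 0, 1, 0, 0, 1, 0, 0, 0, 0, 0, 1, 1]),
  (5, [0, 0, 0, 1, 1, 0, 0, 0, 2, 1, 0, 3, 0, 0, 1, 1, 3, 1, 0, 1, 0, 4, 0, 0, 2], [0, 0, 0, 1, 1, 1, 0, 1, 0, 0, 0, 3, 0, 0, 1, 0, 0, 0, 2, 1, 0, 4, 0, 0, 2],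
   [1, 0, 0, 0, 0, 0, 0, 0, 1, 0, 0, 0, 1, 0, 0, 0, 1, 1, 0, 0, 0, 0, 0, 0, 1]),
  (4, [0, 1, 3, 2, 1, 0, 3, 1, 0, 2, 0, 1, 0, 0, 4, 2], [0, 1, 0, 1, 0, 2, 0, 1, 0, 0, 3, 1, 1, 0, 3, 1, 0, 0, 4, 2],
   [1, 0, 1, 0, 0, 0, 0, 0, 1, 0, 0, 1, 0, 0, 0, 0, 0, 0, 0, 1]),
  (5, [0, 0, 1, 1, 1, 0, 0, 0, 2, 1, 1, 1, 0, 3, 1, 0, 0, 2, 0, 1, 0, 0, 0, 4, 2], [1, 1, 0, 0, 0, 0, 0, 1, 0, 0, 0, 0, 0, 1, 0, 0, 0, 0, 0, 1],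
   [0, 1, 1, 1, 0, 0, 2, 1, 1, 0, 3, 1, 0, 2, 0, 1, 0, 0, 4, 2]),
  (5, [0, 1, 1, 1, 1, 1, 0, 1, 1, 0, 0, 0, 0, 2, 1, 0, 2, 2, 0, 1, 0, 0, 0, 4, 2], [1, 0, 0, 0, 0, 0, 0, 1, 0, 0, 0, 1, 1, 0, 0, 0, 0, 0, 1, 0, 0, 0, 0, 0, 1],
   [0, 0, 1, 1, 1, 1, 1, 0, 1, 0, 0, 0, 0, 2, 1, 0, 0, 2, 0, 1, 0, 0, 0, 4, 2]),
  (5, [0, 1, 1, 1, 2, 1, 0, 1, 0, 1, 0, 2, 0, 1, 3, 0, 0, 2, 1, 1, 0, 0, 2, 1, 1], [1, 0, 0, 0, 0, 0, 1, 0, 0, 0, 0, 0, 0, 0, 1, 0, 0, 1, 0, 0, 0, 0, 0, 1, 1],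
   [0, 1, 1, 1, 1, 1, 0, 1, 1, 0, 0, 2, 2, 0, 1, 0, 0, 0, 2, 1, 0, 0, 0, 2, 1]),
  (4, [0, 1, 1, 3, 1, 0, 1, 1, 0, 2, 0, 4, 0, 0, 2, 2], [1, 0, 0, 0, 0, 1, 0, 0, 0, 0, 1, 0, 0, 0, 0, 1, 0, 0, 0, 1],
   [0, 1, 1, 1, 2, 1, 0, 1, 0, 1, 0, 2, 0, 1, 3, 0, 0, 2, 1, 1]),
  (4, [0, 0, 1, 1, 0, 0, 0, 2, 1, 2, 0, 1, 2, 4, 0, 2], [1, 2, 0, 1, 0, 0, 1, 1, 2, 4, 0, 0, 0, 0, 0, 2],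
   [0, 1, 0, 0, 0, 0, 0, 1, 1, 0, 0, 0, 0, 0, 1, 1]),
  (4, [0, 0, 0, 2, 1, 0, 1, 1, 0, 1, 0, 3, 2, 0, 2, 2], [0, 1, 0, 1, 0, 0, 0, 2, 1, 0, 1, 1, 2, 0, 2, 2],
   [0, 1, 0, 0, 0, 0, 1, 0, 1, 1, 0, 0, 0, 0, 0, 1]),
  (3, [0, 1, 1, 1, 0, 5, 0, 2, 2], [0, 0, 2, 0, 1, 1, 1, 0, 3, 0, 2, 2],
   [0, 1, 0, 0, 1, 0, 1, 0, 0, 0, 0, 1]),
  (3, [0, 0, 1, 0, 0, 2, 1, 5, 2], [0, 0, 1, 1, 5, 0, 0, 0, 2],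
   [1, 0, 0, 0, 0, 1, 0, 1, 1]),
  (3, [0, 0, 3, 0, 0, 2, 1, 4, 2], [0, 0, 1, 0, 0, 2, 1, 4, 2],
   [1, 1, 0, 0, 1, 0, 0, 0, 1]),
  (3, [0, 0, 5, 0, 0, 2, 1, 3, 2], [0, 0, 3, 0, 0, 2, 1, 3, 2],
   [1, 1, 0, 0, 1, 0, 0, 0, 1]),
  (3, [0, 0, 7, 0, 0, 2, 1, 2, 2], [0, 0, 5, 0, 0, 2, 1, 2, 2],
   [1, 1, 0, 0, 1, 0, 0, 0, 1]),
  (3, [0, 0, 2, 0, 0, 9, 1, 1, 2], [0, 0, 7, 0, 0, 2, 1, 1, 2],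
   [0, 1, 0, 1, 1, 0, 0, 0, 1]),
  (2, [0, 11, 1, 2], [0, 2, 0, 9, 1, 2],
   [1, 1, 0, 0, 0, 1]),
  (2, [1, 1, 12, 1], [11, 0, 1, 1],
   [0, 1, 1, 1]),
  (2, [1, 12, 1, 1], [0, 1, 1, 0],
   [12, 1, 1, 1]),
  (2, [0, 1, 11, 2], [11, 1, 0, 1],
   [0, 1, 1, 1]),
  (2, [2, 11, 1, 0], [0, 1, 1, 0],
   [11, 2, 0, 1])]

theorem sp_1_4_3_1 : SSE !![1, 4; 3, 1] !![2, 11; 1, 0] :=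
  sse_of_chain_two ch_1_4_3_1 (by decide +kernel)

/-- A chain from `[1, 4; 4, 1]` to `[1, 4; 4, 1]`. -/
def ch_1_4_4_1 : List (ℕ × List ℕ × List ℕ × List ℕ) := [
]

theorem sp_1_4_4_1 : SSE !![1, 4; 4, 1] !![1, 4; 4, 1] :=
  sse_of_chain_two ch_1_4_4_1 (by decide +kernel)

/-- A chain from `[1, 5; 2, 1]` to `[2, 9; 1, 0]`. -/
def ch_1_5_2_1 : List (ℕ × List ℕ × List ℕ × List ℕ) := [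
  (3, [0, 0, 2, 1, 1, 3, 2, 2, 1], [1, 1, 0, 0, 0, 1],
   [0, 2, 1, 3, 2, 1]),
  (3, [0, 0, 2, 2, 1, 1, 4, 2, 1], [1, 0, 0, 1, 1, 0, 0, 0, 1],
   [0, 0, 2, 1, 1, 1, 2, 2, 1]),
  (3, [0, 2, 1, 2, 0, 2, 1, 2, 2], [0, 1, 0, 0, 0, 1, 1, 0, 1],
   [2, 1, 0, 0, 0, 2, 2, 1, 1]),
  (4, [0, 0, 1, 0, 0, 0, 1, 1, 2, 2, 0, 2, 1, 1, 2, 2], [1, 1, 0, 0, 0, 0, 1, 0, 0, 0, 0, 1],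
   [0, 1, 0, 0, 1, 1, 2, 0, 2, 1, 2, 2]),
  (4, [0, 1, 0, 0, 2, 0, 4, 2, 0, 1, 1, 1, 1, 1, 2, 1], [1, 0, 0, 0, 0, 0, 1, 0, 0, 1, 0, 0, 0, 0, 1, 1],
   [0, 0, 1, 0, 2, 2, 0, 2, 0, 0, 1, 1, 1, 1, 1, 1]),
  (4, [0, 1, 1, 2, 0, 0, 2, 4, 0, 2, 1, 2, 1, 1, 0, 1], [0, 1, 0, 0, 0, 0, 2, 4, 1, 1, 0, 1, 0, 1, 1, 2],
   [0, 0, 0, 1, 0, 1, 0, 0, 1, 0, 0, 1, 0, 0, 1, 0]),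
  (4, [0, 1, 1, 1, 1, 0, 0, 1, 0, 0, 1, 2, 1, 4, 2, 1], [0, 1, 1, 1, 0, 4, 2, 0, 0, 0, 1, 2, 1, 0, 0, 1],
   [1, 0, 0, 0, 0, 0, 0, 1, 0, 0, 1, 0, 0, 1, 0, 1]),
  (4, [0, 1, 2, 0, 3, 0, 1, 1, 1, 1, 1, 1, 0, 2, 2, 1], [0, 0, 1, 0, 1, 0, 0, 0, 0, 0, 0, 1, 0, 1, 1, 0],
   [1, 0, 0, 1, 1, 3, 1, 0, 0, 1, 1, 1, 0, 0, 1, 2]),
  (4, [0, 1, 0, 2, 4, 0, 1, 1, 1, 1, 1, 0, 2, 1, 1, 1], [1, 0, 0, 0, 0, 1, 0, 0, 0, 0, 0, 1, 1, 0, 1, 0],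
   [0, 1, 2, 0, 3, 0, 1, 1, 0, 1, 0, 1, 1, 1, 1, 1]),
  (4, [0, 4, 1, 2, 1, 0, 2, 2, 0, 1, 1, 1, 1, 1, 0, 1], [0, 1, 0, 0, 1, 0, 0, 0, 0, 0, 0, 1, 0, 0, 1, 1],
   [4, 0, 1, 1, 0, 1, 0, 2, 1, 0, 0, 1, 1, 1, 1, 0]),
  (4, [0, 3, 0, 1, 1, 0, 3, 2, 0, 1, 1, 1, 1, 1, 1, 1], [1, 0, 1, 0, 0, 1, 0, 0, 0, 0, 1, 0, 0, 0, 0, 1],
   [0, 3, 0, 1, 1, 0, 2, 2, 0, 1, 1, 1, 1, 1, 0, 1]),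
  (4, [0, 1, 1, 1, 1, 0, 3, 1, 1, 1, 1, 0, 1, 4, 1, 1], [1, 3, 0, 0, 1, 0, 3, 1, 1, 1, 1, 0, 0, 1, 1, 1],
   [0, 0, 0, 1, 0, 1, 0, 0, 0, 0, 1, 0, 1, 0, 0, 1]),
  (4, [0, 1, 1, 0, 2, 0, 1, 1, 1, 2, 1, 1, 0, 4, 1, 1], [1, 1, 0, 1, 2, 0, 1, 1, 0, 1, 1, 0, 0, 4, 1, 1],
   [0, 0, 1, 0, 0, 1, 0, 0, 1, 0, 1, 0, 0, 0, 0, 1]),
  (4, [0, 1, 0, 1, 3, 0, 1, 1, 1, 3, 1, 0, 2, 2, 1, 1], [1, 0, 0, 0, 0, 1, 0, 0, 0, 0, 0, 1, 1, 0, 1, 0],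
   [0, 1, 1, 0, 2, 0, 1, 1, 0, 3, 0, 1, 1, 2, 1, 1]),
  (5, [0, 1, 1, 0, 0, 0, 0, 1, 0, 1, 1, 3, 0, 1, 1, 1, 0, 2, 1, 0, 1, 2, 2, 1, 1], [0, 1, 0, 0, 0, 0, 0, 1, 0, 0, 1, 0, 0, 1, 0, 0, 0, 0, 0, 1],
   [1, 1, 0, 0, 0, 1, 0, 1, 3, 0, 1, 1, 0, 2, 1, 0, 2, 2, 1, 1]),
  (5, [0, 1, 1, 0, 0, 1, 0, 3, 1, 2, 0, 1, 0, 1, 1, 0, 0, 2, 1, 1, 1, 2, 0, 0, 1], [1, 0, 0, 0, 0, 0, 0, 1, 0, 0, 0, 1, 0, 0, 0, 0, 0, 0, 0, 1, 0, 0, 0, 1, 1],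
   [0, 1, 1, 0, 0, 1, 3, 0, 1, 1, 0, 0, 1, 0, 1, 0, 2, 0, 0, 1, 1, 0, 2, 1, 0]),
  (5, [0, 1, 1, 0, 1, 1, 0, 1, 1, 0, 0, 1, 0, 1, 2, 1, 2, 0, 1, 2, 0, 0, 2, 1, 1], [1, 0, 0, 0, 0, 0, 1, 0, 0, 1, 0, 0, 1, 0, 0, 0, 0, 0, 0, 1, 0, 0, 0, 1, 0],
   [0, 1, 1, 0, 0, 1, 0, 1, 0, 1, 0, 1, 0, 1, 1, 1, 2, 0, 0, 1, 0, 0, 2, 1, 1]),
  (5, [0, 0, 1, 1, 1, 1, 0, 1, 0, 0, 1, 1, 0, 0, 2, 0, 1, 0, 1, 3, 0, 1, 1, 2, 1], [1, 0, 0, 0, 0, 0, 0, 1, 0, 0, 0, 0, 0, 0, 1, 0, 1, 0, 0, 1, 0, 0, 0, 1, 0],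
   [0, 1, 1, 0, 1, 1, 1, 0, 0, 0, 1, 0, 1, 1, 0, 0, 0, 2, 1, 1, 0, 1, 0, 1, 2]),
  (5, [0, 0, 1, 1, 0, 1, 0, 0, 0, 1, 1, 2, 0, 3, 0, 0, 1, 1, 1, 1, 1, 3, 0, 3, 1], [0, 0, 0, 1, 0, 1, 0, 0, 0, 0, 0, 0, 1, 0, 0, 0, 0, 0, 0, 1, 0, 1, 0, 1, 0],
   [1, 0, 1, 0, 0, 0, 1, 0, 1, 0, 1, 1, 0, 0, 2, 0, 0, 1, 1, 1, 0, 1, 0, 1, 3]),
  (5, [0, 0, 1, 0, 1, 1, 0, 1, 1, 0, 1, 2, 0, 0, 3, 0, 1, 1, 1, 0, 0, 1, 2, 1, 1], [1, 0, 0, 0, 0, 0, 1, 0, 0, 0, 0, 0, 1, 0, 0, 0, 0, 0, 0, 1, 0, 0, 1, 1, 0],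
   [0, 0, 1, 1, 0, 1, 0, 0, 0, 1, 1, 2, 0, 3, 0, 0, 1, 0, 0, 1, 0, 1, 1, 1, 1]),
  (5, [0, 0, 1, 1, 1, 1, 0, 1, 1, 0, 2, 3, 0, 0, 4, 1, 0, 1, 1, 0, 0, 1, 1, 0, 1], [0, 0, 0, 0, 1, 1, 0, 0, 0, 0, 0, 0, 1, 0, 0, 0, 0, 0, 1, 0, 0, 1, 0, 0, 1],
   [1, 0, 1, 1, 0, 0, 1, 1, 1, 0, 1, 2, 0, 0, 3, 0, 1, 1, 1, 0, 0, 0, 1, 0, 1]),
  (4, [0, 1, 1, 1, 2, 0, 3, 4, 1, 1, 1, 0, 0, 1, 1, 1], [1, 0, 0, 0, 0, 0, 1, 0, 0, 1, 0, 0, 0, 0, 1, 0, 0, 0, 0, 1],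
   [0, 0, 1, 1, 1, 2, 3, 0, 0, 4, 1, 0, 1, 1, 0, 0, 1, 1, 0, 1]),
  (3, [0, 3, 6, 1, 1, 1, 1, 1, 1], [0, 0, 1, 1, 0, 0, 0, 1, 0, 0, 0, 1],
   [2, 0, 3, 4, 1, 1, 1, 0, 0, 1, 1, 1]),
  (2, [0, 9, 1, 2], [1, 0, 0, 1, 0, 1],
   [0, 3, 6, 1, 1, 1]),
  (2, [1, 1, 10, 1], [9, 0, 1, 1],
   [0, 1, 1, 1]),
  (2, [1, 10, 1, 1], [0, 1, 1, 0],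
   [10, 1, 1, 1]),
  (2, [0, 1, 9, 2], [9, 1, 0, 1],
   [0, 1, 1, 1]),
  (2, [2, 9, 1, 0], [0, 1, 1, 0],
   [9, 2, 0, 1])]

theorem sp_1_5_2_1 : SSE !![1, 5; 2, 1] !![2, 9; 1, 0] :=
  sse_of_chain_two ch_1_5_2_1 (by decide +kernel)

/-- A chain from `[1, 5; 3, 1]` to `[2, 14; 1, 0]`. -/
def ch_1_5_3_1 : List (ℕ × List ℕ × List ℕ × List ℕ) := [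
  (3, [0, 0, 1, 1, 1, 4, 3, 3, 1], [1, 1, 0, 0, 0, 1],
   [0, 1, 1, 4, 3, 1]),
  (4, [0, 0, 0, 1, 0, 0, 0, 1, 0, 1, 1, 4, 1, 2, 3, 1], [0, 0, 0, 1, 0, 1, 1, 4, 1, 2, 3, 1],
   [1, 0, 0, 1, 0, 0, 0, 1, 0, 0, 0, 1]),
  (4, [0, 0, 0, 1, 0, 0, 0, 2, 1, 0, 1, 4, 1, 1, 3, 1], [0, 0, 0, 1, 0, 0, 0, 1, 1, 0, 1, 4, 1, 1, 3, 1],
   [0, 1, 0, 0, 1, 1, 0, 0, 0, 0, 1, 0, 0, 0, 0, 1]),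
  (4, [0, 0, 0, 1, 0, 0, 0, 3, 1, 0, 1, 4, 0, 1, 3, 1], [0, 0, 0, 1, 0, 0, 0, 2, 1, 0, 1, 4, 0, 1, 3, 1],
   [1, 0, 0, 0, 1, 1, 0, 0, 0, 0, 1, 0, 0, 0, 0, 1]),
  (4, [0, 0, 0, 1, 0, 0, 0, 3, 1, 1, 1, 1, 0, 4, 3, 1], [1, 0, 0, 0, 0, 1, 0, 0, 0, 1, 1, 0, 0, 0, 0, 1],
   [0, 0, 0, 1, 0, 0, 0, 3, 1, 0, 1, 1, 0, 1, 3, 1]),
  (4, [0, 0, 0, 1, 0, 0, 0, 3, 2, 1, 1, 0, 3, 4, 3, 1], [1, 0, 0, 0, 0, 1, 0, 0, 1, 0, 1, 0, 0, 0, 0, 1],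
   [0, 0, 0, 1, 0, 0, 0, 3, 1, 1, 1, 0, 0, 4, 3, 1]),
  (4, [0, 0, 1, 1, 0, 0, 3, 3, 2, 1, 1, 0, 1, 3, 3, 1], [1, 0, 0, 0, 0, 1, 0, 0, 0, 0, 1, 0, 0, 0, 1, 1],
   [0, 0, 0, 1, 0, 0, 0, 3, 2, 1, 1, 0, 1, 3, 2, 1]),
  (4, [0, 2, 0, 1, 1, 0, 1, 0, 0, 1, 1, 3, 3, 2, 3, 1], [1, 0, 1, 0, 3, 0, 3, 0, 0, 2, 0, 1, 0, 1, 1, 3],
   [0, 0, 1, 0, 1, 0, 0, 0, 0, 0, 0, 1, 0, 1, 1, 0]),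
  (4, [0, 1, 0, 0, 3, 0, 1, 4, 1, 0, 1, 3, 2, 3, 0, 1], [2, 0, 0, 1, 0, 1, 0, 0, 1, 0, 1, 3, 2, 3, 0, 1],
   [0, 1, 0, 0, 1, 0, 1, 0, 0, 0, 1, 0, 0, 0, 0, 1]),
  (4, [0, 1, 0, 0, 2, 0, 1, 4, 0, 1, 1, 3, 2, 3, 0, 1], [0, 1, 0, 0, 2, 0, 1, 4, 0, 0, 1, 3, 2, 3, 0, 1],
   [1, 0, 0, 0, 0, 1, 0, 0, 1, 0, 1, 0, 0, 0, 0, 1]),
  (5, [0, 0, 0, 0, 1, 0, 0, 1, 0, 0, 1, 2, 0, 1, 4, 1, 0, 1, 1, 2, 0, 2, 3, 0, 1], [0, 1, 0, 0, 0, 0, 0, 1, 0, 0, 1, 0, 0, 1, 0, 0, 0, 0, 0, 1],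
   [0, 0, 0, 1, 0, 1, 0, 0, 2, 0, 1, 4, 0, 1, 1, 2, 2, 3, 0, 1]),
  (5, [0, 0, 0, 0, 1, 0, 0, 1, 0, 0, 2, 2, 0, 1, 4, 2, 0, 1, 1, 1, 0, 2, 3, 0, 1], [1, 0, 0, 0, 0, 0, 1, 0, 0, 0, 0, 0, 1, 0, 0, 1, 0, 0, 1, 0, 0, 0, 0, 0, 1],
   [0, 0, 0, 0, 1, 0, 0, 1, 0, 0, 1, 2, 0, 1, 4, 1, 0, 1, 1, 1, 0, 2, 3, 0, 1]),
  (5, [0, 0, 0, 0, 1, 1, 0, 1, 0, 0, 2, 2, 0, 1, 3, 3, 0, 1, 1, 1, 3, 2, 3, 0, 1], [1, 0, 0, 0, 0, 0, 1, 0, 0, 0, 1, 0, 1, 0, 0, 0, 0, 0, 1, 0, 0, 0, 0, 0, 1],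
   [0, 0, 0, 0, 1, 0, 0, 1, 0, 0, 2, 2, 0, 1, 3, 2, 0, 1, 1, 1, 0, 2, 3, 0, 1]),
  (5, [0, 0, 0, 0, 1, 1, 0, 1, 0, 1, 0, 2, 0, 1, 3, 3, 0, 1, 1, 1, 1, 2, 3, 0, 1], [0, 0, 0, 0, 1, 1, 0, 1, 0, 0, 0, 2, 0, 1, 3, 3, 0, 1, 1, 1, 1, 2, 3, 0, 1],
   [1, 0, 0, 0, 0, 1, 1, 0, 0, 0, 0, 0, 1, 0, 0, 0, 0, 0, 1, 0, 0, 0, 0, 0, 1]),
  (5, [0, 0, 0, 0, 1, 1, 0, 1, 0, 1, 0, 3, 0, 1, 3, 2, 1, 0, 1, 0, 1, 2, 3, 0, 1], [1, 0, 0, 0, 0, 0, 1, 0, 0, 0, 0, 0, 1, 0, 0, 0, 1, 0, 1, 0, 0, 0, 0, 0, 1],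
   [0, 0, 0, 0, 1, 1, 0, 1, 0, 1, 0, 2, 0, 1, 3, 2, 0, 0, 1, 0, 1, 2, 3, 0, 1]),
  (5, [0, 0, 1, 0, 1, 0, 0, 3, 1, 6, 0, 2, 0, 0, 2, 2, 0, 0, 1, 1, 1, 1, 1, 0, 1], [1, 0, 0, 0, 0, 0, 0, 0, 0, 1, 0, 1, 0, 0, 0, 0, 0, 0, 1, 0, 0, 0, 1, 0, 1],
   [0, 0, 0, 0, 1, 0, 3, 0, 1, 3, 0, 2, 2, 0, 0, 2, 1, 0, 1, 0, 1, 0, 1, 0, 1]),
  (5, [0, 1, 1, 0, 0, 0, 0, 0, 0, 2, 1, 1, 0, 0, 1, 2, 0, 1, 1, 0, 1, 4, 6, 1, 1], [0, 1, 1, 0, 0, 0, 3, 6, 1, 0, 0, 0, 0, 0, 2, 2, 0, 1, 1, 0, 1, 1, 0, 0, 1],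
   [1, 0, 0, 0, 0, 0, 0, 1, 0, 0, 0, 0, 0, 0, 1, 0, 0, 0, 1, 0, 0, 1, 0, 0, 1]),
  (5, [0, 1, 1, 0, 0, 0, 0, 0, 0, 2, 1, 1, 0, 0, 1, 1, 1, 2, 1, 0, 0, 4, 6, 1, 1], [0, 1, 1, 0, 0, 0, 0, 0, 0, 2, 1, 1, 0, 0, 1, 1, 0, 1, 1, 0, 0, 4, 6, 1, 1],
   [1, 0, 0, 0, 0, 0, 1, 0, 0, 0, 0, 0, 1, 0, 0, 1, 0, 0, 1, 0, 0, 0, 0, 0, 1]),
  (5, [0, 0, 0, 0, 2, 0, 0, 1, 0, 1, 1, 1, 0, 0, 2, 0, 2, 1, 1, 0, 4, 6, 0, 1, 1], [1, 1, 0, 0, 0, 0, 0, 0, 0, 2, 0, 0, 1, 0, 1, 0, 2, 1, 1, 0, 4, 6, 0, 1, 1],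
   [0, 1, 0, 0, 0, 0, 0, 1, 0, 0, 1, 1, 0, 0, 0, 0, 0, 0, 1, 0, 0, 0, 0, 0, 1]),
  (5, [0, 1, 0, 0, 1, 0, 0, 1, 0, 2, 0, 1, 0, 0, 3, 2, 1, 0, 1, 0, 2, 0, 4, 1, 1], [0, 0, 0, 0, 2, 0, 1, 0, 0, 1, 0, 0, 1, 0, 2, 2, 1, 0, 1, 0, 2, 0, 4, 1, 1],
   [0, 1, 0, 0, 0, 0, 0, 1, 0, 0, 1, 1, 0, 0, 0, 0, 0, 0, 1, 0, 0, 0, 0, 0, 1]),
  (5, [0, 1, 0, 0, 1, 0, 0, 1, 0, 2, 0, 1, 0, 0, 3, 1, 2, 0, 1, 1, 1, 0, 4, 1, 1], [0, 1, 0, 0, 1, 0, 0, 1, 0, 2, 0, 1, 0, 0, 3, 1, 1, 0, 1, 0, 1, 0, 4, 1, 1],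
   [1, 0, 0, 0, 0, 0, 1, 0, 0, 0, 0, 0, 1, 0, 0, 1, 0, 0, 1, 0, 0, 0, 0, 0, 1]),
  (4, [0, 1, 0, 2, 1, 0, 0, 3, 3, 0, 1, 2, 0, 4, 1, 1], [1, 0, 0, 1, 0, 1, 0, 2, 1, 0, 0, 3, 2, 0, 1, 1, 0, 4, 1, 1],
   [0, 1, 0, 0, 0, 0, 0, 1, 0, 0, 1, 0, 0, 1, 0, 0, 0, 0, 0, 1]),
  (4, [0, 2, 1, 0, 0, 0, 4, 1, 1, 3, 0, 0, 3, 1, 4, 2], [0, 2, 1, 0, 1, 3, 0, 0, 3, 1, 0, 1, 0, 0, 4, 1],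
   [1, 0, 0, 0, 0, 0, 0, 1, 0, 1, 0, 0, 0, 0, 1, 1]),
  (4, [0, 1, 2, 0, 1, 0, 3, 0, 0, 3, 0, 1, 4, 2, 4, 2], [0, 1, 2, 0, 0, 3, 0, 1, 1, 0, 3, 0, 3, 2, 1, 2],
   [1, 0, 0, 0, 0, 0, 1, 0, 0, 1, 0, 0, 0, 0, 1, 1]),
  (4, [0, 2, 1, 0, 3, 0, 0, 1, 4, 2, 0, 1, 2, 0, 4, 2], [1, 2, 0, 0, 0, 2, 1, 0, 3, 0, 0, 1, 2, 0, 4, 2],
   [0, 1, 0, 0, 0, 0, 1, 0, 1, 0, 1, 0, 0, 0, 0, 1]),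
  (4, [0, 2, 1, 0, 2, 0, 0, 1, 3, 2, 0, 1, 0, 2, 5, 2], [0, 2, 1, 0, 2, 0, 0, 1, 3, 2, 0, 1, 0, 0, 4, 2],
   [1, 0, 0, 0, 0, 1, 0, 0, 0, 0, 1, 0, 1, 0, 0, 1]),
  (5, [0, 2, 1, 0, 0, 2, 0, 0, 1, 1, 3, 2, 0, 1, 1, 0, 0, 2, 1, 1, 0, 2, 3, 1, 1], [1, 0, 0, 0, 0, 0, 1, 0, 0, 0, 0, 0, 1, 0, 0, 0, 0, 0, 1, 1],
   [0, 2, 1, 0, 2, 0, 0, 1, 3, 2, 0, 1, 0, 0, 2, 1, 0, 2, 3, 1]),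
  (5, [0, 0, 2, 1, 0, 0, 0, 2, 1, 0, 1, 2, 0, 0, 2, 1, 3, 2, 0, 2, 1, 0, 0, 2, 2], [0, 1, 0, 0, 0, 0, 0, 1, 0, 0, 0, 0, 0, 1, 0, 0, 0, 0, 0, 1, 1, 0, 0, 0, 1],
   [0, 2, 1, 0, 0, 0, 2, 1, 0, 0, 2, 0, 0, 1, 1, 3, 2, 0, 1, 1, 0, 0, 2, 1, 1]),
  (4, [0, 2, 4, 2, 0, 0, 3, 2, 1, 2, 0, 0, 2, 0, 1, 2], [0, 0, 1, 0, 0, 0, 1, 0, 0, 1, 0, 0, 1, 0, 0, 0, 0, 0, 0, 1],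
   [1, 3, 2, 0, 2, 1, 2, 0, 0, 2, 0, 0, 2, 1, 0, 1, 0, 0, 2, 2]),
  (4, [0, 1, 2, 0, 1, 0, 3, 0, 0, 3, 0, 2, 2, 1, 2, 2], [1, 0, 1, 0, 0, 0, 1, 0, 0, 1, 0, 0, 0, 0, 0, 1],
   [0, 2, 1, 0, 1, 2, 0, 0, 0, 0, 3, 2, 2, 0, 1, 2]),
  (5, [0, 1, 2, 0, 0, 1, 0, 3, 0, 0, 0, 3, 0, 2, 2, 1, 0, 0, 1, 1, 1, 1, 2, 1, 1], [1, 0, 0, 0, 0, 0, 1, 0, 0, 0, 0, 0, 1, 0, 0, 0, 0, 0, 1, 1],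
   [0, 1, 2, 0, 1, 0, 3, 0, 0, 3, 0, 2, 1, 0, 0, 1, 1, 1, 2, 1]),
  (5, [0, 0, 1, 2, 0, 0, 0, 1, 2, 0, 1, 0, 0, 3, 0, 0, 2, 3, 0, 4, 1, 1, 0, 0, 2], [1, 0, 0, 0, 0, 0, 0, 1, 0, 0, 0, 0, 0, 1, 0, 0, 0, 0, 0, 1, 0, 1, 0, 0, 1],
   [0, 1, 2, 0, 0, 0, 1, 2, 0, 0, 1, 0, 3, 0, 0, 0, 3, 0, 2, 2, 1, 0, 0, 1, 1]),
  (4, [0, 1, 2, 0, 1, 0, 3, 0, 2, 3, 0, 4, 2, 0, 0, 2], [1, 0, 0, 0, 1, 0, 0, 0, 0, 1, 0, 0, 0, 0, 1, 0, 0, 0, 0, 1],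
   [0, 0, 1, 2, 0, 1, 0, 0, 3, 0, 0, 2, 3, 0, 4, 1, 1, 0, 0, 2]),
  (5, [0, 1, 2, 0, 0, 1, 0, 3, 0, 0, 2, 3, 0, 4, 4, 1, 0, 0, 1, 1, 1, 0, 0, 1, 1], [1, 0, 0, 0, 0, 0, 1, 0, 0, 0, 0, 0, 1, 0, 0, 0, 0, 0, 1, 1],
   [0, 1, 2, 0, 1, 0, 3, 0, 2, 3, 0, 4, 1, 0, 0, 1, 1, 0, 0, 1]),
  (4, [0, 1, 2, 0, 1, 0, 3, 0, 2, 3, 0, 8, 1, 0, 0, 2], [1, 0, 0, 0, 0, 1, 0, 0, 0, 0, 1, 0, 0, 0, 0, 1, 0, 0, 0, 1],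
   [0, 1, 2, 0, 0, 1, 0, 3, 0, 0, 2, 3, 0, 4, 4, 1, 0, 0, 1, 1]),
  (4, [0, 1, 2, 2, 1, 0, 3, 3, 1, 3, 0, 6, 1, 0, 0, 2], [1, 0, 0, 0, 0, 1, 0, 0, 0, 0, 1, 1, 0, 0, 0, 1],
   [0, 1, 2, 0, 1, 0, 3, 0, 1, 3, 0, 6, 1, 0, 0, 2]),
  (4, [0, 3, 1, 2, 3, 0, 1, 5, 1, 2, 1, 3, 0, 0, 1, 1], [1, 2, 0, 2, 0, 3, 1, 2, 3, 0, 1, 5, 0, 0, 1, 1],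
   [0, 1, 0, 0, 0, 0, 1, 0, 1, 0, 0, 1, 0, 0, 0, 1]),
  (4, [0, 0, 0, 1, 1, 0, 3, 1, 4, 3, 0, 1, 2, 1, 2, 2], [1, 0, 3, 1, 4, 3, 0, 1, 2, 1, 2, 1, 0, 0, 0, 1],
   [0, 0, 0, 1, 1, 0, 0, 0, 0, 1, 0, 0, 0, 0, 1, 1]),
  (4, [0, 0, 0, 1, 1, 0, 3, 1, 1, 3, 0, 2, 1, 2, 1, 2], [0, 0, 0, 1, 1, 3, 0, 1, 1, 0, 3, 1, 1, 2, 1, 2],
   [1, 0, 0, 0, 0, 0, 1, 0, 1, 1, 0, 0, 0, 0, 0, 1]),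
  (5, [0, 0, 0, 1, 1, 1, 0, 3, 1, 1, 1, 3, 0, 2, 2, 0, 1, 0, 1, 1, 1, 1, 1, 1, 1], [1, 0, 0, 0, 0, 0, 1, 0, 0, 0, 0, 0, 1, 0, 0, 0, 0, 0, 1, 1],
   [0, 0, 0, 1, 1, 0, 3, 1, 1, 3, 0, 2, 0, 1, 0, 1, 1, 1, 1, 1]),
  (5, [0, 1, 0, 1, 0, 1, 0, 0, 0, 2, 1, 1, 0, 3, 2, 2, 1, 3, 0, 4, 1, 0, 1, 0, 2], [0, 1, 0, 0, 0, 0, 0, 1, 0, 0, 0, 0, 0, 1, 0, 0, 0, 0, 0, 1, 1, 0, 0, 0, 1],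
   [1, 0, 1, 0, 0, 0, 0, 0, 1, 1, 1, 0, 3, 1, 1, 1, 3, 0, 2, 2, 0, 1, 0, 1, 1]),
  (5, [0, 1, 1, 0, 0, 1, 0, 0, 2, 0, 2, 1, 0, 1, 3, 1, 0, 0, 1, 1, 2, 1, 3, 3, 1], [0, 1, 1, 0, 0, 1, 0, 0, 2, 0, 1, 1, 3, 2, 0, 2, 1, 0, 1, 3, 1, 0, 0, 1, 1],
   [1, 0, 0, 0, 0, 0, 1, 0, 0, 0, 0, 0, 0, 1, 0, 0, 0, 0, 0, 1, 0, 0, 1, 0, 1]),
  (5, [0, 1, 0, 2, 0, 1, 0, 1, 1, 0, 1, 1, 0, 0, 2, 0, 1, 0, 1, 1, 1, 2, 3, 6, 1], [0, 1, 0, 0, 0, 1, 0, 0, 0, 0, 0, 0, 1, 1, 0, 0, 0, 0, 1, 0, 0, 0, 0, 0, 1],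
   [1, 0, 0, 2, 0, 0, 1, 1, 0, 0, 1, 1, 0, 0, 2, 1, 0, 0, 1, 1, 2, 1, 3, 3, 1]),
  (5, [0, 1, 1, 1, 0, 1, 0, 0, 2, 0, 1, 3, 0, 0, 2, 1, 1, 0, 1, 1, 1, 2, 3, 4, 1], [0, 1, 0, 0, 0, 1, 0, 0, 0, 0, 0, 0, 1, 0, 0, 0, 0, 0, 1, 0, 0, 1, 0, 0, 1],
   [1, 0, 1, 1, 0, 0, 1, 0, 2, 0, 1, 1, 0, 0, 2, 0, 1, 0, 1, 1, 1, 1, 3, 4, 1]),
  (5, [0, 1, 1, 0, 1, 1, 0, 5, 2, 0, 1, 0, 0, 0, 2, 0, 3, 3, 1, 2, 1, 0, 2, 1, 1], [1, 0, 0, 0, 0, 0, 0, 1, 0, 0, 0, 1, 0, 0, 0, 0, 0, 0, 0, 1, 0, 0, 1, 1, 0],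
   [0, 1, 1, 1, 0, 1, 3, 0, 0, 2, 1, 0, 0, 2, 0, 0, 2, 3, 2, 1, 1, 1, 0, 1, 1]),
  (5, [0, 0, 1, 1, 0, 1, 0, 0, 2, 0, 2, 5, 0, 2, 2, 1, 2, 0, 1, 1, 0, 0, 3, 2, 1], [0, 0, 1, 1, 0, 1, 5, 0, 0, 2, 1, 0, 0, 2, 0, 0, 0, 3, 2, 1, 1, 2, 0, 1, 1],
   [1, 0, 0, 0, 0, 0, 0, 1, 0, 0, 0, 1, 1, 0, 0, 0, 0, 0, 0, 1, 0, 0, 0, 1, 0]),
  (5, [0, 0, 1, 1, 0, 1, 0, 2, 0, 0, 1, 2, 0, 0, 1, 2, 5, 0, 0, 2, 1, 2, 1, 3, 2], [0, 0, 1, 1, 0, 1, 0, 2, 0, 0, 2, 5, 0, 0, 2, 1, 2, 0, 0, 1, 0, 0, 1, 3, 1],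
   [1, 0, 0, 0, 0, 0, 1, 0, 0, 0, 0, 0, 0, 1, 0, 0, 0, 1, 0, 0, 0, 0, 0, 1, 1]),
  (5, [0, 0, 1, 1, 0, 1, 0, 2, 0, 0, 1, 1, 0, 0, 1, 2, 3, 0, 0, 2, 2, 0, 3, 3, 2], [0, 0, 1, 1, 0, 1, 0, 2, 0, 0, 1, 1, 0, 0, 1, 2, 3, 0, 0, 2, 1, 0, 1, 3, 2],
   [1, 0, 0, 0, 0, 0, 1, 0, 0, 0, 0, 0, 1, 0, 0, 0, 0, 0, 1, 0, 0, 1, 0, 0, 1]),
  (5, [0, 0, 1, 1, 0, 1, 0, 0, 2, 0, 0, 3, 0, 0, 2, 0, 1, 0, 0, 1, 0, 0, 4, 4, 2], [0, 0, 1, 1, 0, 1, 0, 0, 2, 0, 0, 1, 0, 0, 1, 0, 3, 0, 0, 2, 0, 0, 3, 3, 2],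
   [1, 0, 0, 0, 0, 0, 1, 0, 0, 0, 0, 0, 0, 1, 0, 0, 0, 1, 0, 0, 1, 0, 0, 0, 1]),
  (5, [0, 0, 0, 1, 0, 0, 0, 1, 0, 1, 1, 2, 0, 0, 0, 0, 0, 4, 0, 3, 0, 0, 0, 4, 2], [0, 0, 0, 1, 0, 1, 2, 0, 0, 0, 0, 0, 3, 0, 2, 0, 0, 1, 0, 1, 0, 0, 0, 4, 2],
   [1, 0, 0, 0, 0, 0, 0, 0, 1, 0, 0, 1, 0, 0, 0, 0, 0, 1, 1, 0, 0, 0, 0, 0, 1]),
  (5, [0, 0, 0, 1, 1, 0, 0, 1, 1, 1, 0, 0, 0, 4, 3, 1, 1, 0, 0, 0, 0, 0, 4, 0, 2], [0, 0, 1, 0, 0, 0, 0, 0, 1, 1, 1, 1, 0, 0, 0, 0, 0, 0, 4, 3, 0, 0, 4, 0, 2],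
   [0, 1, 0, 0, 0, 1, 1, 0, 0, 0, 0, 0, 0, 1, 0, 0, 0, 1, 0, 0, 0, 0, 0, 0, 1]),
  (4, [0, 1, 2, 2, 0, 0, 4, 3, 1, 0, 0, 0, 0, 4, 0, 2], [0, 0, 1, 1, 0, 1, 1, 1, 0, 0, 4, 3, 1, 0, 0, 0, 0, 4, 0, 2],
   [1, 1, 0, 0, 0, 0, 0, 1, 0, 0, 0, 0, 0, 1, 0, 0, 0, 0, 0, 1]),
  (5, [0, 0, 1, 0, 0, 0, 0, 1, 0, 0, 1, 1, 0, 1, 2, 2, 2, 0, 0, 3, 0, 0, 0, 4, 2], [1, 1, 0, 1, 2, 2, 2, 0, 0, 3, 0, 0, 1, 0, 0, 0, 0, 0, 4, 2],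
   [0, 0, 1, 0, 0, 0, 1, 0, 1, 0, 0, 0, 0, 1, 0, 0, 0, 0, 0, 1]),
  (4, [0, 2, 0, 0, 1, 0, 1, 2, 2, 0, 0, 3, 0, 0, 4, 2], [0, 1, 0, 0, 0, 1, 0, 0, 1, 0, 1, 2, 2, 0, 0, 3, 0, 0, 4, 2],
   [1, 1, 0, 0, 0, 0, 0, 1, 0, 0, 0, 0, 0, 1, 0, 0, 0, 0, 0, 1]),
  (5, [0, 0, 1, 1, 2, 0, 0, 1, 1, 2, 1, 1, 0, 0, 0, 0, 0, 2, 0, 3, 0, 0, 0, 4, 2], [1, 1, 0, 0, 0, 0, 0, 1, 1, 2, 0, 0, 2, 0, 3, 0, 0, 0, 4, 2],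
   [0, 1, 0, 0, 0, 1, 0, 0, 1, 0, 0, 0, 0, 0, 1, 0, 0, 0, 0, 1]),
  (4, [0, 0, 1, 0, 2, 0, 0, 3, 2, 2, 0, 4, 0, 4, 0, 2], [1, 1, 0, 2, 1, 1, 0, 2, 0, 0, 1, 0, 2, 0, 0, 3, 0, 4, 0, 2],
   [0, 0, 1, 0, 0, 0, 0, 0, 1, 0, 1, 1, 0, 0, 0, 0, 0, 0, 0, 1]),
  (4, [0, 0, 2, 1, 1, 0, 1, 0, 0, 2, 0, 3, 0, 0, 4, 2], [0, 1, 0, 0, 0, 0, 1, 0, 1, 0, 1, 0, 0, 0, 0, 1],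
   [0, 2, 0, 1, 0, 0, 1, 0, 2, 0, 0, 3, 0, 4, 0, 2]),
  (4, [0, 1, 0, 1, 2, 0, 3, 3, 0, 2, 1, 1, 0, 2, 1, 1], [0, 0, 0, 1, 1, 0, 0, 0, 0, 1, 0, 0, 0, 0, 1, 1],
   [1, 0, 1, 0, 0, 2, 0, 3, 0, 0, 2, 1, 0, 0, 2, 1]),
  (3, [0, 1, 1, 2, 0, 6, 0, 2, 2], [1, 0, 0, 0, 1, 0, 0, 0, 1, 0, 0, 1],
   [0, 1, 0, 1, 2, 0, 3, 3, 0, 2, 1, 1]),
  (3, [0, 0, 1, 0, 0, 2, 2, 6, 2], [0, 0, 1, 2, 6, 0, 0, 0, 2],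
   [1, 0, 0, 0, 0, 1, 0, 1, 1]),
  (3, [0, 0, 2, 0, 0, 3, 4, 2, 2], [0, 0, 1, 0, 0, 2, 4, 2, 2],
   [0, 1, 0, 1, 1, 0, 0, 0, 1]),
  (3, [0, 0, 2, 0, 0, 5, 2, 2, 2], [0, 0, 2, 0, 0, 3, 2, 2, 2],
   [1, 0, 0, 1, 1, 0, 0, 0, 1]),
  (2, [0, 7, 2, 2], [0, 2, 0, 5, 2, 2],
   [1, 1, 0, 0, 0, 1]),
  (3, [0, 0, 1, 0, 0, 6, 2, 2, 2], [1, 1, 0, 0, 0, 1],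
   [0, 1, 0, 6, 2, 2]),
  (3, [0, 0, 1, 0, 0, 5, 4, 2, 2], [1, 0, 0, 1, 1, 0, 0, 0, 1],
   [0, 0, 1, 0, 0, 5, 2, 2, 2]),
  (3, [0, 0, 1, 0, 0, 4, 6, 2, 2], [1, 0, 0, 1, 1, 0, 0, 0, 1],
   [0, 0, 1, 0, 0, 4, 4, 2, 2]),
  (3, [0, 0, 1, 0, 0, 3, 8, 2, 2], [1, 0, 0, 1, 1, 0, 0, 0, 1],
   [0, 0, 1, 0, 0, 3, 6, 2, 2]),
  (3, [0, 0, 1, 0, 0, 2, 10, 2, 2], [1, 0, 0, 1, 1, 0, 0, 0, 1],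
   [0, 0, 1, 0, 0, 2, 8, 2, 2]),
  (3, [0, 0, 1, 0, 0, 1, 2, 12, 2], [0, 1, 0, 1, 1, 0, 0, 0, 1],
   [0, 0, 1, 0, 0, 1, 10, 2, 2]),
  (2, [0, 1, 14, 2], [1, 0, 1, 0, 0, 1],
   [0, 0, 1, 2, 12, 2]),
  (2, [1, 1, 15, 1], [1, 0, 1, 1],
   [0, 1, 14, 1]),
  (2, [1, 15, 1, 1], [0, 1, 1, 0],
   [15, 1, 1, 1]),
  (2, [0, 1, 14, 2], [14, 1, 0, 1],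
   [0, 1, 1, 1]),
  (2, [2, 14, 1, 0], [0, 1, 1, 0],
   [14, 2, 0, 1])]

theorem sp_1_5_3_1 : SSE !![1, 5; 3, 1] !![2, 14; 1, 0] :=
  sse_of_chain_two ch_1_5_3_1 (by decide +kernel)

/-- A chain from `[1, 6; 2, 1]` to `[1, 6; 2, 1]`. -/
def ch_1_6_2_1 : List (ℕ × List ℕ × List ℕ × List ℕ) := [
]

theorem sp_1_6_2_1 : SSE !![1, 6; 2, 1] !![1, 6; 2, 1] :=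
  sse_of_chain_two ch_1_6_2_1 (by decide +kernel)

/-- A chain from `[1, 6; 3, 1]` to `[1, 6; 3, 1]`. -/
def ch_1_6_3_1 : List (ℕ × List ℕ × List ℕ × List ℕ) := [
]

theorem sp_1_6_3_1 : SSE !![1, 6; 3, 1] !![1, 6; 3, 1] :=
  sse_of_chain_two ch_1_6_3_1 (by decide +kernel)

/-- A chain from `[1, 7; 2, 1]` to `[2, 13; 1, 0]`. -/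
def ch_1_7_2_1 : List (ℕ × List ℕ × List ℕ × List ℕ) := [
  (3, [0, 1, 2, 0, 1, 2, 3, 4, 1], [3, 4, 1, 0, 1, 2],
   [0, 1, 0, 1, 1, 0]),
  (3, [0, 2, 4, 0, 1, 2, 3, 1, 1], [0, 1, 2, 0, 1, 2, 3, 1, 1],
   [1, 1, 0, 0, 1, 0, 0, 0, 1]),
  (4, [0, 0, 1, 2, 1, 0, 1, 4, 0, 0, 1, 2, 1, 3, 0, 1], [1, 0, 1, 4, 0, 0, 1, 2, 1, 3, 0, 1],
   [0, 1, 0, 1, 0, 0, 0, 1, 0, 0, 0, 1]),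
  (4, [0, 0, 1, 1, 1, 0, 3, 1, 1, 3, 1, 0, 1, 3, 2, 1], [0, 0, 1, 1, 1, 0, 3, 1, 0, 0, 1, 1, 1, 3, 1, 0],
   [1, 0, 0, 0, 0, 1, 0, 0, 0, 0, 0, 1, 0, 0, 1, 1]),
  (4, [0, 0, 0, 1, 1, 0, 2, 1, 1, 3, 1, 0, 2, 6, 2, 1], [0, 0, 0, 1, 1, 0, 2, 1, 1, 3, 1, 0, 1, 3, 1, 1],
   [1, 0, 0, 0, 0, 1, 0, 0, 0, 0, 1, 0, 0, 0, 1, 1]),
  (4, [0, 1, 0, 1, 1, 0, 0, 6, 1, 0, 1, 3, 1, 1, 2, 1], [1, 0, 0, 0, 0, 0, 0, 1, 0, 0, 1, 0, 0, 1, 0, 1],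
   [0, 0, 0, 1, 1, 6, 0, 0, 1, 3, 1, 0, 1, 0, 2, 1]),
  (4, [0, 5, 1, 0, 1, 0, 1, 2, 2, 1, 1, 2, 0, 2, 1, 1], [1, 1, 0, 0, 0, 5, 1, 0, 0, 2, 1, 1, 1, 0, 1, 2],
   [0, 1, 0, 0, 0, 0, 0, 1, 1, 0, 0, 1, 0, 0, 1, 0]),
  (4, [0, 7, 1, 2, 1, 0, 1, 1, 0, 2, 1, 1, 2, 1, 0, 1], [0, 5, 0, 1, 1, 0, 1, 1, 2, 1, 0, 1, 0, 2, 1, 1],
   [1, 0, 0, 1, 0, 1, 0, 0, 0, 0, 0, 1, 0, 0, 1, 0]),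
  (4, [0, 1, 0, 1, 7, 0, 1, 1, 1, 2, 1, 0, 3, 2, 1, 1], [7, 0, 1, 1, 0, 1, 0, 1, 2, 0, 0, 1, 1, 2, 1, 0],
   [0, 1, 0, 0, 1, 0, 0, 0, 0, 0, 0, 1, 0, 0, 1, 1]),
  (4, [0, 1, 0, 1, 6, 0, 1, 1, 0, 3, 1, 1, 2, 2, 1, 1], [0, 1, 0, 1, 6, 0, 1, 1, 0, 2, 1, 0, 2, 2, 1, 1],
   [1, 0, 0, 0, 0, 1, 0, 0, 1, 0, 1, 0, 0, 0, 0, 1]),
  (4, [0, 1, 1, 2, 1, 0, 1, 7, 1, 3, 1, 1, 1, 1, 0, 1], [0, 0, 0, 1, 0, 1, 0, 0, 0, 0, 1, 0, 1, 0, 0, 1],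
   [2, 1, 1, 0, 6, 0, 1, 1, 0, 3, 1, 1, 0, 1, 0, 1]),
  (4, [0, 1, 1, 1, 1, 0, 6, 1, 1, 1, 1, 0, 2, 4, 1, 1], [0, 1, 1, 1, 1, 0, 6, 1, 1, 3, 0, 1, 1, 1, 1, 0],
   [1, 0, 0, 0, 0, 1, 0, 0, 0, 0, 0, 1, 0, 0, 1, 1]),
  (4, [0, 3, 2, 0, 1, 0, 2, 6, 1, 1, 1, 1, 0, 1, 1, 1], [0, 0, 1, 0, 0, 1, 0, 0, 0, 0, 0, 1, 1, 0, 1, 0],
   [2, 3, 0, 0, 1, 0, 6, 1, 0, 1, 1, 1, 1, 1, 1, 0]),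
  (4, [0, 1, 0, 0, 2, 0, 3, 2, 2, 1, 0, 8, 1, 0, 1, 2], [0, 1, 0, 0, 0, 0, 1, 0, 1, 0, 0, 1, 0, 0, 0, 1],
   [1, 0, 0, 0, 0, 3, 2, 0, 1, 0, 2, 6, 0, 1, 1, 1]),
  (4, [0, 1, 0, 1, 1, 0, 2, 0, 2, 1, 0, 9, 1, 0, 1, 2], [1, 0, 0, 0, 0, 1, 0, 1, 0, 0, 1, 0, 0, 0, 0, 1],
   [0, 1, 0, 0, 1, 0, 2, 0, 2, 1, 0, 8, 1, 0, 1, 2]),
  (5, [0, 2, 2, 1, 0, 0, 0, 0, 1, 4, 1, 0, 0, 1, 5, 1, 0, 0, 0, 1, 0, 1, 1, 1, 2], [0, 0, 0, 1, 0, 1, 0, 0, 0, 0, 0, 1, 1, 0, 0, 0, 0, 0, 0, 1],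
   [1, 0, 2, 0, 1, 0, 0, 4, 1, 1, 0, 5, 0, 1, 0, 1, 1, 0, 1, 2]),
  (5, [0, 0, 0, 1, 1, 0, 0, 0, 1, 1, 1, 0, 0, 0, 4, 1, 2, 4, 0, 0, 1, 1, 2, 0, 2], [0, 0, 0, 1, 0, 0, 0, 1, 0, 0, 0, 1, 1, 0, 0, 1, 0, 0, 0, 0, 0, 0, 0, 0, 1],
   [1, 0, 0, 0, 1, 1, 0, 0, 0, 1, 0, 0, 0, 1, 4, 0, 2, 2, 1, 0, 0, 1, 1, 1, 2]),
  (4, [0, 0, 1, 1, 1, 0, 0, 4, 3, 4, 0, 0, 2, 2, 0, 2], [1, 0, 0, 0, 1, 0, 0, 0, 0, 1, 0, 0, 0, 0, 1, 0, 0, 0, 0, 1],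
   [0, 0, 0, 1, 1, 1, 0, 0, 0, 4, 1, 2, 4, 0, 0, 1, 1, 2, 0, 2]),
  (5, [0, 0, 1, 2, 0, 0, 0, 2, 2, 0, 1, 1, 0, 0, 1, 0, 0, 1, 0, 4, 0, 0, 2, 2, 2], [0, 0, 1, 0, 0, 0, 0, 0, 1, 0, 1, 1, 0, 0, 0, 0, 0, 0, 0, 1],
   [1, 2, 0, 0, 2, 2, 0, 0, 0, 0, 1, 1, 1, 0, 0, 4, 2, 2, 0, 2]),
  (5, [0, 0, 0, 1, 0, 0, 0, 2, 1, 0, 0, 0, 0, 1, 4, 1, 2, 0, 0, 1, 0, 0, 2, 2, 2], [0, 1, 0, 0, 0, 1, 1, 0, 0, 0, 0, 0, 0, 1, 0, 0, 0, 1, 0, 0, 0, 0, 0, 0, 1],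
   [0, 0, 1, 0, 0, 0, 0, 1, 2, 0, 0, 0, 1, 0, 4, 1, 1, 0, 0, 1, 0, 0, 2, 2, 2]),
  (5, [0, 0, 1, 0, 0, 0, 0, 1, 4, 4, 1, 0, 0, 3, 1, 0, 2, 1, 0, 0, 0, 0, 1, 2, 2], [1, 0, 0, 0, 0, 0, 0, 0, 1, 0, 0, 1, 0, 0, 0, 0, 0, 1, 0, 0, 0, 0, 0, 1, 1],
   [0, 0, 0, 1, 0, 0, 0, 0, 1, 4, 1, 2, 0, 0, 1, 0, 0, 2, 1, 0, 0, 0, 0, 1, 2]),
  (5, [0, 0, 1, 0, 0, 0, 0, 0, 2, 2, 1, 0, 0, 3, 1, 0, 2, 1, 0, 2, 0, 0, 1, 2, 2], [1, 0, 0, 0, 0, 0, 1, 0, 0, 1, 0, 0, 1, 0, 0, 0, 0, 0, 1, 0, 0, 0, 0, 0, 1],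
   [0, 0, 1, 0, 0, 0, 0, 0, 2, 2, 1, 0, 0, 3, 1, 0, 2, 1, 0, 0, 0, 0, 1, 2, 2]),
  (5, [0, 0, 1, 0, 0, 0, 0, 1, 0, 0, 1, 1, 0, 3, 1, 0, 2, 1, 0, 4, 0, 2, 0, 2, 2], [1, 0, 0, 0, 0, 0, 0, 0, 0, 1, 0, 0, 1, 0, 0, 0, 0, 0, 1, 0, 0, 1, 0, 0, 1],
   [0, 0, 1, 0, 0, 0, 0, 1, 0, 0, 1, 0, 0, 3, 1, 0, 2, 1, 0, 2, 0, 0, 0, 2, 2]),
  (4, [0, 1, 0, 0, 2, 0, 3, 1, 2, 1, 0, 4, 2, 0, 2, 2], [1, 0, 0, 0, 1, 0, 0, 0, 0, 1, 0, 0, 0, 0, 1, 0, 0, 0, 0, 1],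
   [0, 0, 1, 0, 0, 1, 1, 0, 3, 1, 0, 2, 1, 0, 4, 0, 2, 0, 2, 2]),
  (5, [0, 0, 1, 0, 0, 0, 0, 1, 0, 0, 1, 1, 0, 3, 1, 0, 2, 1, 0, 4, 1, 1, 0, 2, 2], [0, 0, 1, 0, 0, 1, 1, 0, 3, 1, 0, 2, 1, 0, 4, 1, 1, 0, 2, 2],
   [1, 0, 0, 0, 1, 0, 0, 0, 0, 1, 0, 0, 0, 0, 1, 0, 0, 0, 0, 1]),
  (5, [0, 1, 0, 0, 0, 1, 0, 3, 0, 1, 0, 1, 0, 2, 2, 1, 0, 2, 1, 1, 1, 1, 2, 1, 1], [0, 1, 0, 0, 0, 0, 1, 0, 0, 0, 1, 0, 3, 0, 1, 0, 1, 0, 2, 2, 1, 0, 2, 1, 1],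
   [1, 0, 0, 0, 0, 0, 0, 1, 0, 0, 0, 0, 0, 1, 0, 0, 0, 0, 0, 1, 0, 1, 0, 0, 1]),
  (5, [0, 0, 0, 1, 0, 0, 0, 0, 1, 2, 1, 2, 0, 1, 1, 1, 3, 1, 0, 0, 2, 4, 0, 1, 2], [0, 0, 0, 1, 0, 1, 3, 1, 0, 0, 0, 0, 0, 1, 2, 1, 2, 0, 0, 1, 1, 2, 0, 1, 1],
   [1, 0, 0, 0, 0, 0, 0, 1, 0, 0, 0, 0, 0, 0, 1, 0, 1, 0, 0, 0, 0, 0, 0, 1, 1]),
  (5, [0, 1, 1, 1, 1, 0, 0, 0, 2, 2, 0, 0, 0, 1, 2, 1, 1, 2, 0, 0, 0, 2, 2, 1, 2], [0, 0, 0, 1, 0, 0, 0, 0, 1, 2, 0, 1, 1, 1, 1, 1, 1, 2, 0, 0, 0, 2, 2, 1, 2],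
   [0, 0, 1, 0, 0, 1, 1, 0, 0, 0, 0, 1, 0, 0, 0, 0, 0, 0, 1, 0, 0, 0, 0, 0, 1]),
  (5, [0, 0, 1, 1, 1, 0, 0, 0, 1, 2, 0, 0, 0, 3, 4, 1, 1, 1, 0, 0, 0, 0, 2, 1, 2], [0, 0, 1, 1, 1, 0, 0, 0, 2, 2, 0, 0, 0, 1, 2, 1, 1, 1, 0, 0, 0, 0, 2, 1, 2],
   [1, 0, 0, 0, 0, 0, 0, 1, 0, 0, 0, 1, 1, 0, 0, 0, 0, 0, 1, 0, 0, 0, 0, 0, 1]),
  (5, [0, 0, 0, 1, 1, 0, 0, 1, 0, 1, 0, 0, 0, 1, 3, 0, 0, 2, 1, 1, 1, 1, 3, 1, 1], [0, 0, 1, 0, 1, 0, 0, 0, 1, 1, 0, 0, 0, 1, 3, 1, 1, 1, 0, 0, 0, 0, 2, 1, 1],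
   [0, 1, 0, 0, 0, 1, 0, 0, 0, 0, 0, 0, 1, 0, 0, 0, 0, 0, 0, 1, 0, 0, 0, 1, 1]),
  (4, [0, 1, 1, 2, 0, 0, 1, 3, 0, 2, 1, 1, 1, 3, 1, 1], [0, 0, 1, 1, 0, 1, 0, 1, 0, 0, 1, 3, 0, 2, 1, 1, 1, 3, 1, 1],
   [1, 1, 0, 0, 0, 0, 0, 1, 0, 0, 0, 0, 0, 1, 0, 0, 0, 0, 0, 1]),
  (4, [0, 3, 2, 3, 0, 0, 1, 3, 0, 2, 1, 1, 1, 3, 0, 1], [0, 1, 1, 2, 0, 0, 1, 3, 0, 2, 1, 1, 1, 3, 0, 1],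
   [1, 0, 1, 0, 0, 1, 0, 0, 0, 0, 1, 0, 0, 0, 0, 1]),
  (4, [0, 3, 2, 1, 0, 0, 1, 2, 1, 5, 1, 1, 1, 3, 0, 1], [0, 3, 2, 1, 0, 0, 1, 2, 0, 2, 1, 0, 1, 3, 0, 1],
   [1, 0, 0, 0, 0, 1, 0, 0, 0, 0, 1, 1, 0, 0, 0, 1]),
  (4, [0, 3, 3, 3, 0, 0, 1, 2, 1, 4, 1, 1, 1, 2, 0, 1], [0, 3, 2, 1, 0, 0, 1, 2, 1, 4, 1, 1, 1, 2, 0, 1],
   [1, 1, 0, 0, 0, 1, 0, 0, 0, 0, 1, 0, 0, 0, 0, 1]),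
  (4, [0, 0, 1, 1, 3, 0, 0, 3, 2, 1, 1, 0, 6, 2, 1, 1], [3, 0, 0, 3, 0, 0, 1, 1, 4, 1, 0, 1, 2, 1, 1, 0],
   [0, 1, 0, 0, 1, 0, 0, 0, 0, 0, 0, 1, 0, 0, 1, 1]),
  (4, [0, 0, 1, 1, 3, 0, 1, 4, 1, 1, 1, 0, 4, 2, 1, 1], [0, 0, 1, 1, 3, 0, 0, 3, 1, 1, 1, 0, 4, 2, 1, 1],
   [1, 0, 0, 0, 1, 1, 0, 0, 0, 0, 1, 0, 0, 0, 0, 1]),
  (4, [0, 0, 1, 1, 3, 0, 2, 5, 0, 1, 1, 0, 2, 2, 1, 1], [0, 0, 1, 1, 3, 0, 1, 4, 0, 1, 1, 0, 2, 2, 1, 1],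
   [1, 0, 0, 0, 1, 1, 0, 0, 0, 0, 1, 0, 0, 0, 0, 1]),
  (5, [0, 0, 0, 1, 1, 0, 0, 3, 2, 5, 0, 0, 0, 1, 1, 0, 1, 0, 1, 0, 1, 2, 1, 1, 1], [0, 0, 0, 1, 1, 0, 0, 3, 2, 5, 0, 1, 0, 1, 0, 1, 2, 1, 1, 1],
   [1, 0, 0, 0, 0, 1, 0, 0, 1, 0, 0, 0, 0, 0, 1, 0, 0, 0, 0, 1]),
  (5, [0, 1, 0, 0, 1, 1, 0, 2, 1, 1, 0, 2, 0, 3, 2, 1, 1, 2, 1, 2, 0, 0, 1, 0, 1], [0, 1, 0, 0, 1, 0, 2, 0, 3, 2, 0, 1, 0, 0, 1, 0, 0, 1, 0, 1, 1, 0, 2, 1, 1],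
   [1, 0, 0, 0, 0, 0, 0, 0, 0, 1, 0, 1, 0, 0, 0, 0, 0, 1, 0, 1, 0, 0, 0, 1, 0]),
  (5, [0, 0, 1, 0, 0, 0, 0, 2, 0, 3, 1, 3, 0, 2, 1, 0, 1, 0, 1, 0, 1, 2, 1, 1, 1], [0, 0, 1, 0, 0, 1, 2, 0, 1, 1, 0, 0, 2, 0, 3, 1, 2, 1, 1, 1, 0, 1, 0, 1, 0],
   [1, 0, 0, 0, 0, 0, 0, 1, 0, 0, 0, 1, 0, 0, 1, 0, 0, 0, 0, 1, 0, 0, 0, 1, 0]),
  (5, [0, 0, 1, 0, 0, 0, 0, 2, 3, 0, 1, 1, 0, 1, 2, 1, 1, 1, 1, 1, 0, 0, 2, 3, 1], [0, 0, 1, 0, 0, 0, 0, 2, 3, 0, 1, 1, 0, 1, 2, 0, 0, 0, 0, 1, 1, 1, 1, 1, 1],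
   [1, 0, 0, 0, 0, 0, 1, 0, 0, 0, 0, 0, 1, 0, 0, 0, 0, 0, 0, 1, 0, 1, 0, 1, 0]),
  (4, [0, 3, 0, 3, 1, 0, 2, 1, 0, 2, 1, 3, 1, 1, 1, 1], [0, 1, 0, 0, 0, 2, 0, 3, 1, 0, 2, 1, 1, 1, 1, 1, 0, 2, 1, 3],
   [1, 1, 0, 0, 0, 0, 0, 1, 0, 0, 0, 0, 0, 0, 1, 0, 0, 0, 1, 0]),
  (4, [0, 1, 1, 1, 0, 0, 0, 3, 1, 0, 1, 2, 1, 2, 3, 1], [0, 0, 0, 3, 1, 1, 2, 0, 1, 0, 1, 2, 0, 1, 1, 1],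
   [0, 0, 0, 1, 1, 0, 0, 0, 0, 0, 1, 0, 0, 1, 0, 1]),
  (4, [0, 0, 1, 2, 0, 0, 0, 3, 1, 1, 1, 3, 2, 2, 1, 1], [1, 1, 0, 1, 0, 0, 0, 3, 0, 0, 1, 2, 2, 2, 1, 1],
   [0, 0, 1, 0, 0, 1, 0, 0, 1, 0, 1, 0, 0, 0, 0, 1]),
  (3, [0, 1, 5, 1, 1, 3, 2, 1, 1], [0, 1, 2, 0, 0, 3, 1, 1, 3, 2, 1, 1],
   [1, 1, 0, 0, 0, 0, 1, 0, 0, 0, 0, 1]),
  (3, [0, 2, 1, 4, 0, 1, 2, 3, 2], [4, 0, 1, 2, 1, 1, 0, 2, 1],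
   [0, 0, 1, 1, 0, 0, 0, 1, 1]),
  (4, [0, 0, 2, 1, 0, 0, 2, 1, 2, 2, 0, 1, 1, 1, 3, 2], [0, 0, 2, 1, 2, 2, 0, 1, 1, 1, 3, 2],
   [1, 0, 0, 1, 0, 0, 0, 1, 0, 0, 0, 1]),
  (3, [0, 2, 1, 4, 0, 2, 3, 1, 2], [2, 0, 1, 2, 0, 1, 0, 2, 1, 3, 1, 2],
   [0, 0, 1, 0, 1, 1, 0, 0, 0, 0, 0, 1]),
  (4, [0, 0, 2, 1, 0, 0, 2, 1, 1, 3, 0, 2, 1, 2, 1, 2], [0, 0, 2, 1, 1, 3, 0, 2, 1, 2, 1, 2],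
   [1, 0, 0, 1, 0, 0, 0, 1, 0, 0, 0, 1]),
  (4, [0, 0, 4, 2, 0, 0, 2, 1, 1, 2, 0, 2, 1, 1, 1, 2], [0, 0, 2, 1, 0, 0, 2, 1, 1, 2, 0, 2, 1, 1, 1, 2],
   [1, 1, 0, 0, 0, 1, 0, 0, 0, 0, 1, 0, 0, 0, 0, 1]),
  (5, [0, 0, 2, 0, 1, 1, 0, 1, 1, 2, 2, 0, 0, 1, 2, 0, 1, 4, 0, 1, 1, 0, 1, 1, 2], [0, 1, 4, 0, 1, 0, 0, 2, 0, 1, 2, 0, 0, 1, 2, 1, 0, 1, 1, 2],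
   [0, 1, 0, 0, 0, 0, 0, 1, 0, 0, 1, 0, 1, 0, 0, 0, 0, 0, 0, 1]),
  (5, [0, 0, 2, 0, 1, 0, 0, 4, 1, 0, 2, 1, 0, 0, 2, 2, 2, 2, 0, 4, 1, 1, 1, 0, 2], [0, 0, 2, 0, 1, 1, 1, 1, 0, 2, 2, 1, 0, 0, 2, 0, 0, 4, 1, 0, 1, 1, 1, 0, 2],
   [1, 0, 0, 0, 0, 0, 0, 0, 1, 0, 0, 0, 1, 0, 0, 0, 1, 0, 0, 1, 0, 0, 0, 0, 1]),
  (5, [0, 0, 1, 2, 2, 0, 0, 0, 2, 1, 1, 0, 0, 5, 0, 0, 2, 1, 0, 2, 0, 1, 1, 1, 2], [0, 1, 0, 0, 0, 0, 0, 1, 0, 0, 0, 0, 0, 1, 0, 1, 0, 0, 1, 0, 0, 0, 0, 0, 1],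
   [0, 1, 2, 0, 2, 0, 0, 2, 0, 1, 0, 0, 4, 1, 0, 2, 1, 0, 0, 2, 1, 1, 1, 0, 2]),
  (5, [0, 0, 0, 1, 1, 0, 0, 2, 0, 1, 0, 2, 0, 1, 2, 1, 1, 5, 0, 0, 0, 1, 1, 1, 2], [1, 1, 0, 0, 0, 0, 1, 0, 0, 0, 0, 0, 0, 1, 0, 0, 0, 1, 0, 0, 0, 0, 0, 0, 1],
   [0, 0, 1, 0, 1, 0, 0, 0, 2, 1, 0, 2, 1, 0, 2, 1, 0, 0, 5, 0, 0, 1, 1, 1, 2]),
  (5, [0, 0, 0, 0, 1, 0, 0, 2, 1, 0, 0, 2, 0, 1, 1, 0, 1, 1, 1, 1, 1, 2, 6, 1, 1], [0, 0, 0, 0, 1, 0, 0, 2, 1, 0, 0, 2, 0, 1, 1, 1, 1, 5, 0, 0, 0, 1, 1, 1, 1],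
   [1, 0, 0, 0, 0, 0, 1, 0, 0, 0, 0, 0, 1, 0, 0, 0, 0, 0, 0, 1, 0, 0, 0, 1, 1]),
  (5, [0, 0, 1, 0, 1, 0, 0, 0, 1, 2, 1, 0, 0, 0, 6, 0, 1, 1, 1, 2, 0, 2, 1, 1, 1], [1, 0, 0, 0, 0, 0, 1, 0, 0, 0, 0, 0, 0, 0, 1, 0, 0, 0, 1, 0, 0, 0, 1, 0, 1],
   [0, 0, 0, 0, 1, 0, 0, 2, 1, 0, 1, 0, 6, 0, 0, 0, 1, 1, 1, 1, 0, 2, 0, 1, 1]),
  (5, [0, 0, 1, 0, 6, 0, 0, 1, 1, 2, 1, 0, 0, 0, 1, 0, 1, 1, 1, 1, 1, 2, 1, 1, 1], [0, 0, 1, 0, 0, 0, 1, 0, 0, 0, 1, 0, 0, 0, 0, 0, 0, 1, 1, 0, 0, 0, 0, 0, 1],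
   [1, 0, 0, 0, 6, 0, 0, 0, 1, 2, 0, 0, 1, 0, 1, 0, 1, 0, 1, 1, 0, 2, 1, 1, 1]),
  (5, [0, 0, 5, 0, 1, 0, 0, 1, 1, 1, 1, 2, 0, 1, 1, 0, 1, 0, 1, 1, 2, 2, 1, 1, 1], [0, 0, 5, 0, 1, 0, 0, 1, 1, 1, 1, 0, 1, 0, 0, 0, 1, 0, 1, 1, 1, 2, 0, 1, 1],
   [1, 0, 0, 0, 0, 0, 1, 0, 0, 0, 0, 0, 0, 0, 1, 0, 0, 0, 1, 0, 0, 0, 1, 0, 1]),
  (5, [0, 0, 1, 1, 1, 0, 0, 6, 1, 2, 1, 1, 0, 1, 1, 1, 0, 0, 1, 1, 0, 2, 1, 1, 1], [0, 0, 5, 0, 1, 0, 0, 1, 1, 1, 1, 1, 0, 1, 1, 1, 0, 0, 1, 1, 0, 2, 1, 1, 1],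
   [0, 1, 0, 0, 0, 1, 1, 0, 0, 0, 0, 0, 1, 0, 0, 0, 0, 0, 1, 0, 0, 0, 0, 0, 1]),
  (5, [0, 0, 2, 1, 1, 0, 0, 0, 1, 1, 1, 0, 0, 6, 1, 0, 1, 1, 0, 1, 0, 1, 2, 1, 2], [0, 0, 0, 1, 1, 1, 0, 0, 6, 1, 0, 1, 1, 0, 1, 0, 1, 0, 0, 1, 0, 0, 2, 1, 1],
   [0, 0, 0, 0, 1, 1, 0, 0, 0, 0, 0, 1, 0, 0, 0, 0, 0, 1, 0, 0, 0, 0, 0, 1, 1]),
  (5, [0, 0, 0, 2, 0, 0, 0, 1, 0, 1, 0, 1, 0, 1, 1, 1, 1, 6, 0, 1, 0, 1, 1, 2, 2], [1, 1, 0, 0, 0, 0, 1, 0, 0, 0, 0, 0, 0, 1, 0, 0, 0, 1, 0, 0, 0, 0, 0, 0, 1],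
   [0, 0, 2, 0, 0, 0, 0, 0, 1, 1, 0, 1, 1, 0, 1, 1, 0, 0, 6, 1, 0, 1, 2, 1, 2]),
  (5, [0, 0, 2, 0, 0, 0, 0, 0, 1, 2, 1, 1, 0, 1, 7, 0, 0, 1, 1, 2, 0, 1, 1, 1, 1], [1, 0, 0, 0, 0, 0, 1, 0, 0, 0, 0, 0, 0, 0, 1, 0, 0, 1, 0, 0, 0, 0, 0, 1, 1],
   [0, 0, 0, 2, 0, 0, 0, 1, 0, 1, 1, 1, 6, 0, 1, 0, 0, 1, 1, 1, 0, 1, 0, 1, 1]),
  (5, [0, 0, 2, 0, 0, 0, 0, 1, 0, 0, 1, 1, 0, 2, 7, 0, 1, 0, 1, 2, 0, 1, 1, 2, 1], [1, 0, 0, 0, 0, 0, 0, 0, 1, 0, 0, 0, 1, 0, 0, 0, 1, 0, 1, 0, 0, 0, 0, 0, 1],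
   [0, 0, 2, 0, 0, 0, 0, 1, 0, 0, 1, 1, 0, 1, 7, 0, 0, 0, 1, 2, 0, 1, 1, 1, 1]),
  (5, [0, 0, 1, 0, 0, 0, 0, 1, 0, 0, 1, 2, 0, 2, 7, 0, 1, 0, 1, 2, 0, 1, 1, 2, 1], [1, 1, 0, 0, 0, 0, 1, 0, 0, 0, 0, 0, 1, 0, 0, 0, 0, 0, 1, 0, 0, 0, 0, 0, 1],
   [0, 0, 1, 0, 0, 0, 0, 1, 0, 0, 1, 1, 0, 2, 7, 0, 1, 0, 1, 2, 0, 1, 1, 2, 1]),
  (4, [0, 1, 0, 0, 3, 0, 2, 7, 1, 0, 1, 2, 1, 1, 2, 1], [1, 0, 0, 0, 1, 0, 0, 0, 0, 1, 0, 0, 0, 0, 1, 0, 0, 0, 0, 1],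
   [0, 0, 1, 0, 0, 1, 2, 0, 2, 7, 0, 1, 0, 1, 2, 0, 1, 1, 2, 1]),
  (4, [0, 2, 1, 5, 1, 0, 1, 0, 0, 1, 1, 2, 1, 1, 3, 1], [0, 1, 0, 0, 1, 0, 1, 0, 0, 0, 1, 0, 0, 0, 0, 1],
   [2, 0, 1, 5, 0, 1, 0, 0, 1, 0, 1, 2, 1, 1, 2, 1]),
  (4, [0, 1, 3, 0, 1, 0, 0, 2, 1, 1, 1, 4, 0, 1, 2, 1], [1, 0, 0, 1, 0, 1, 0, 0, 0, 0, 0, 1, 0, 0, 1, 0],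
   [0, 1, 0, 3, 1, 0, 1, 0, 1, 1, 3, 1, 0, 1, 1, 2]),
  (5, [0, 0, 1, 0, 1, 0, 0, 0, 0, 2, 1, 1, 0, 2, 0, 0, 0, 1, 1, 2, 1, 1, 1, 4, 1], [1, 1, 0, 0, 0, 0, 0, 1, 0, 0, 0, 0, 0, 0, 1, 0, 0, 0, 1, 0],
   [0, 1, 1, 0, 0, 0, 2, 0, 1, 0, 0, 2, 0, 1, 2, 1, 1, 1, 1, 4]),
  (5, [0, 0, 2, 0, 1, 0, 0, 2, 0, 2, 1, 1, 0, 2, 0, 0, 0, 3, 1, 2, 0, 0, 2, 2, 1], [1, 0, 0, 0, 0, 0, 1, 0, 0, 0, 0, 0, 1, 0, 0, 0, 0, 0, 1, 0, 0, 0, 1, 0, 1],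
   [0, 0, 1, 0, 1, 0, 0, 0, 0, 2, 1, 1, 0, 2, 0, 0, 0, 1, 1, 2, 0, 0, 1, 2, 1]),
  (5, [0, 0, 0, 1, 0, 0, 0, 2, 1, 0, 1, 2, 0, 0, 2, 0, 0, 2, 1, 2, 0, 0, 3, 2, 1], [0, 1, 0, 0, 0, 1, 1, 0, 0, 0, 0, 0, 1, 0, 0, 0, 0, 0, 0, 1, 0, 0, 0, 1, 0],
   [0, 0, 0, 0, 1, 0, 0, 2, 0, 1, 1, 1, 0, 2, 0, 0, 0, 2, 2, 1, 0, 0, 3, 1, 2]),
  (5, [0, 0, 0, 0, 1, 0, 0, 2, 0, 1, 1, 4, 0, 2, 0, 0, 1, 1, 1, 1, 0, 2, 2, 2, 1], [1, 0, 0, 0, 0, 0, 1, 0, 0, 0, 0, 0, 1, 0, 0, 0, 0, 0, 0, 1, 0, 1, 0, 1, 0],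
   [0, 0, 0, 1, 0, 0, 0, 2, 1, 0, 1, 2, 0, 0, 2, 0, 0, 1, 1, 1, 0, 0, 2, 1, 2]),
  (5, [0, 1, 0, 0, 1, 0, 0, 1, 1, 1, 1, 0, 0, 4, 2, 0, 1, 2, 0, 1, 0, 1, 1, 1, 2], [1, 0, 0, 0, 0, 0, 0, 0, 1, 0, 0, 0, 1, 0, 0, 0, 0, 0, 0, 1, 0, 1, 0, 0, 1],
   [0, 0, 0, 0, 1, 0, 1, 1, 1, 0, 1, 4, 0, 2, 0, 0, 0, 2, 0, 1, 0, 1, 1, 1, 1]),
  (5, [0, 0, 0, 1, 2, 0, 0, 2, 1, 2, 1, 4, 0, 2, 2, 0, 0, 0, 1, 2, 0, 1, 1, 1, 1], [1, 0, 0, 0, 0, 0, 0, 0, 0, 1, 0, 0, 1, 0, 0, 0, 1, 0, 0, 0, 0, 0, 0, 1, 1],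
   [0, 1, 0, 0, 1, 0, 1, 2, 0, 1, 1, 0, 0, 4, 2, 0, 1, 0, 0, 1, 0, 0, 1, 1, 1]),
  (4, [0, 4, 3, 2, 2, 0, 1, 2, 0, 0, 1, 2, 1, 1, 1, 1], [0, 0, 1, 0, 0, 1, 0, 0, 1, 0, 0, 0, 0, 0, 1, 0, 0, 0, 0, 1],
   [1, 4, 0, 2, 2, 0, 0, 2, 1, 2, 0, 0, 0, 1, 2, 0, 1, 1, 1, 1]),
  (4, [0, 1, 1, 1, 0, 0, 2, 1, 2, 5, 1, 4, 2, 0, 0, 1], [2, 4, 0, 3, 0, 0, 2, 1, 2, 0, 0, 1, 0, 1, 1, 1],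
   [0, 0, 0, 1, 0, 1, 0, 0, 1, 0, 0, 1, 0, 0, 1, 0]),
  (5, [0, 0, 1, 1, 1, 0, 0, 1, 1, 1, 0, 0, 0, 2, 1, 1, 1, 5, 1, 4, 1, 1, 0, 0, 1], [0, 0, 1, 1, 1, 0, 0, 0, 2, 1, 1, 1, 5, 1, 4, 1, 1, 0, 0, 1],
   [1, 0, 0, 0, 1, 0, 0, 0, 0, 1, 0, 0, 0, 0, 1, 0, 0, 0, 0, 1]),
  (4, [0, 2, 2, 2, 0, 0, 2, 1, 1, 5, 1, 4, 1, 0, 0, 1], [0, 1, 1, 1, 0, 1, 1, 1, 0, 0, 2, 1, 1, 5, 1, 4, 1, 0, 0, 1],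
   [1, 1, 0, 0, 0, 0, 0, 1, 0, 0, 0, 0, 0, 1, 0, 0, 0, 0, 0, 1]),
  (4, [0, 2, 0, 1, 0, 0, 2, 1, 1, 6, 1, 4, 1, 1, 0, 1], [1, 1, 0, 0, 0, 1, 0, 0, 0, 0, 1, 0, 0, 0, 0, 1],
   [0, 2, 0, 1, 0, 0, 2, 1, 1, 5, 1, 4, 1, 0, 0, 1]),
  (4, [0, 1, 1, 0, 1, 0, 0, 2, 1, 3, 1, 0, 3, 6, 1, 1], [1, 2, 0, 0, 1, 0, 0, 2, 3, 6, 1, 1, 0, 1, 1, 0],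
   [0, 0, 0, 1, 0, 1, 0, 0, 1, 0, 0, 1, 0, 0, 1, 0]),
  (4, [0, 1, 1, 0, 1, 0, 2, 2, 1, 3, 1, 0, 2, 3, 1, 1], [1, 0, 0, 0, 0, 1, 0, 0, 0, 0, 1, 0, 0, 0, 1, 1],
   [0, 1, 1, 0, 1, 0, 0, 2, 1, 3, 1, 0, 2, 3, 0, 1]),
  (4, [0, 1, 0, 1, 1, 0, 2, 4, 1, 0, 1, 1, 1, 3, 0, 1], [1, 0, 0, 0, 0, 1, 0, 0, 0, 0, 0, 1, 0, 0, 1, 1],
   [0, 1, 1, 0, 1, 0, 2, 2, 1, 0, 0, 1, 1, 3, 1, 0]),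
  (4, [0, 1, 1, 1, 0, 0, 1, 3, 1, 0, 1, 1, 1, 3, 3, 1], [1, 0, 0, 0, 0, 1, 1, 0, 0, 0, 1, 0, 0, 0, 0, 1],
   [0, 1, 0, 1, 0, 0, 1, 3, 1, 0, 1, 1, 1, 3, 0, 1]),
  (5, [0, 0, 1, 0, 0, 0, 0, 0, 1, 1, 0, 0, 0, 1, 3, 1, 1, 0, 1, 1, 1, 1, 3, 3, 1], [1, 1, 0, 0, 0, 0, 0, 1, 0, 0, 0, 0, 0, 1, 0, 0, 0, 0, 0, 1],
   [0, 1, 0, 0, 0, 0, 1, 1, 0, 0, 1, 3, 1, 0, 1, 1, 1, 3, 3, 1]),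
  (5, [0, 0, 1, 0, 0, 0, 0, 0, 1, 2, 0, 0, 0, 3, 4, 0, 0, 3, 0, 2, 1, 1, 0, 1, 2], [1, 0, 0, 0, 0, 0, 1, 0, 0, 0, 0, 0, 1, 0, 0, 0, 0, 0, 0, 1, 0, 0, 0, 1, 1],
   [0, 0, 1, 0, 0, 0, 0, 0, 1, 1, 0, 0, 0, 1, 3, 0, 0, 3, 2, 0, 1, 1, 0, 1, 1]),
  (5, [0, 1, 0, 1, 0, 0, 0, 2, 0, 2, 0, 3, 0, 3, 2, 0, 0, 1, 0, 2, 1, 0, 1, 1, 2], [1, 0, 0, 0, 0, 0, 0, 0, 1, 0, 0, 1, 0, 1, 0, 0, 0, 1, 0, 0, 0, 0, 0, 0, 1],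
   [0, 0, 1, 0, 0, 0, 0, 0, 2, 2, 0, 0, 3, 0, 2, 0, 0, 0, 1, 2, 1, 1, 0, 1, 2]),
  (5, [0, 0, 1, 2, 0, 0, 0, 3, 6, 2, 0, 1, 0, 0, 0, 0, 1, 0, 0, 2, 1, 1, 0, 1, 2], [1, 0, 0, 0, 0, 0, 0, 1, 1, 0, 0, 1, 0, 0, 0, 0, 0, 0, 1, 0, 0, 0, 0, 0, 1],
   [0, 1, 0, 1, 0, 0, 3, 0, 3, 2, 0, 0, 1, 0, 0, 0, 0, 1, 0, 2, 1, 0, 1, 1, 2]),
  (5, [0, 1, 0, 1, 0, 1, 0, 2, 0, 0, 0, 1, 0, 1, 2, 2, 0, 4, 0, 2, 0, 2, 1, 1, 2], [0, 1, 0, 0, 0, 0, 1, 0, 1, 0, 1, 0, 0, 0, 0, 0, 0, 1, 0, 0, 0, 0, 0, 0, 1],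
   [0, 1, 0, 0, 0, 0, 0, 1, 2, 0, 0, 1, 0, 0, 2, 0, 0, 2, 4, 2, 1, 1, 0, 1, 2]),
  (5, [0, 0, 1, 1, 0, 0, 0, 1, 0, 1, 1, 0, 0, 0, 2, 2, 2, 0, 0, 6, 0, 2, 1, 1, 2], [1, 0, 0, 0, 0, 0, 0, 1, 0, 0, 0, 0, 0, 0, 1, 0, 0, 0, 1, 0, 0, 1, 0, 0, 1],
   [0, 1, 0, 1, 0, 0, 1, 1, 0, 0, 1, 0, 2, 0, 0, 2, 0, 4, 0, 2, 0, 1, 0, 1, 2]),
  (5, [0, 0, 1, 0, 1, 0, 0, 2, 1, 0, 0, 1, 0, 0, 2, 2, 1, 0, 0, 4, 2, 0, 2, 1, 2], [0, 1, 0, 0, 0, 1, 0, 0, 0, 0, 0, 0, 1, 0, 0, 0, 0, 1, 1, 0, 0, 0, 0, 0, 1],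
   [0, 0, 1, 0, 1, 0, 0, 1, 1, 0, 1, 0, 0, 0, 2, 1, 2, 0, 0, 4, 0, 2, 1, 1, 2]),
  (5, [0, 1, 0, 3, 0, 0, 0, 2, 0, 2, 0, 0, 0, 1, 1, 1, 0, 0, 0, 2, 0, 1, 2, 3, 2], [0, 0, 1, 0, 0, 1, 0, 0, 0, 0, 0, 0, 0, 1, 0, 0, 1, 0, 1, 0, 0, 0, 0, 0, 1],
   [0, 0, 2, 1, 0, 2, 0, 0, 0, 2, 0, 0, 1, 0, 1, 0, 1, 0, 0, 2, 2, 0, 2, 1, 2]),
  (5, [0, 0, 0, 3, 1, 0, 0, 1, 1, 1, 0, 0, 0, 3, 1, 1, 0, 2, 0, 2, 0, 2, 2, 0, 2], [1, 0, 0, 0, 0, 0, 0, 0, 0, 1, 0, 1, 0, 0, 0, 0, 0, 0, 1, 0, 0, 0, 1, 0, 1],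
   [0, 1, 0, 3, 0, 0, 0, 0, 1, 1, 0, 1, 0, 3, 0, 1, 0, 0, 0, 2, 0, 0, 2, 0, 2]),
  (4, [0, 1, 1, 1, 0, 0, 3, 2, 0, 3, 0, 1, 2, 0, 2, 2], [0, 0, 1, 0, 1, 0, 0, 0, 0, 0, 1, 0, 0, 1, 0, 0, 0, 0, 0, 1],
   [0, 0, 1, 1, 1, 1, 0, 2, 0, 2, 0, 0, 0, 3, 1, 0, 2, 2, 0, 2]),
  (5, [0, 0, 1, 1, 1, 0, 0, 1, 1, 1, 0, 0, 0, 3, 2, 0, 0, 3, 0, 1, 1, 1, 0, 2, 2], [0, 0, 1, 1, 1, 0, 0, 0, 3, 2, 0, 0, 3, 0, 1, 1, 1, 0, 2, 2],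
   [1, 0, 0, 0, 1, 0, 0, 0, 0, 1, 0, 0, 0, 0, 1, 0, 0, 0, 0, 1]),
  (4, [0, 2, 2, 2, 0, 0, 3, 2, 0, 3, 0, 1, 1, 0, 2, 2], [0, 1, 1, 1, 0, 1, 1, 1, 0, 0, 3, 2, 0, 3, 0, 1, 1, 0, 2, 2],
   [1, 1, 0, 0, 0, 0, 0, 1, 0, 0, 0, 0, 0, 1, 0, 0, 0, 0, 0, 1]),
  (4, [0, 3, 1, 0, 3, 0, 2, 0, 2, 0, 1, 1, 4, 2, 3, 1], [2, 2, 2, 0, 3, 0, 2, 0, 0, 3, 1, 0, 2, 0, 1, 1],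
   [0, 0, 1, 0, 0, 1, 0, 0, 0, 0, 0, 1, 1, 0, 0, 1]),
  (4, [0, 3, 1, 0, 3, 0, 2, 0, 2, 1, 1, 1, 1, 3, 1, 1], [1, 0, 0, 0, 0, 1, 0, 0, 0, 0, 1, 0, 0, 1, 0, 1],
   [0, 3, 1, 0, 3, 0, 2, 0, 2, 0, 1, 1, 1, 2, 1, 1]),
  (4, [0, 3, 0, 1, 3, 0, 0, 2, 2, 0, 1, 0, 3, 1, 1, 1], [1, 0, 0, 0, 0, 1, 0, 0, 0, 0, 0, 1, 1, 0, 1, 0],
   [0, 3, 1, 0, 3, 0, 2, 0, 1, 0, 0, 1, 2, 1, 1, 1]),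
  (5, [0, 0, 1, 1, 0, 1, 0, 3, 0, 1, 2, 3, 0, 0, 2, 0, 2, 0, 1, 0, 1, 3, 0, 0, 1], [0, 1, 0, 0, 0, 0, 0, 1, 0, 0, 0, 0, 0, 1, 0, 1, 0, 0, 0, 1],
   [0, 1, 1, 0, 0, 3, 0, 1, 3, 0, 0, 2, 2, 0, 1, 0, 3, 0, 0, 1]),
  (5, [0, 1, 0, 0, 1, 1, 0, 0, 1, 1, 3, 1, 0, 0, 4, 0, 0, 2, 1, 0, 0, 1, 3, 0, 1], [0, 1, 0, 0, 0, 0, 0, 1, 0, 0, 1, 0, 0, 0, 1, 0, 0, 0, 1, 0, 0, 0, 0, 0, 1],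
   [1, 0, 0, 0, 1, 0, 0, 1, 1, 0, 1, 0, 3, 0, 1, 0, 2, 0, 1, 0, 1, 3, 0, 0, 1]),
  (5, [0, 0, 1, 1, 1, 0, 0, 3, 0, 3, 1, 0, 0, 0, 1, 0, 2, 2, 1, 0, 1, 3, 3, 0, 1], [0, 0, 1, 0, 0, 1, 0, 0, 0, 0, 0, 1, 1, 0, 0, 0, 0, 0, 1, 0, 0, 0, 0, 0, 1],
   [1, 0, 0, 1, 1, 3, 0, 0, 0, 3, 0, 1, 0, 0, 1, 0, 0, 2, 1, 0, 0, 1, 3, 0, 1]),
  (5, [0, 0, 0, 1, 1, 1, 0, 0, 0, 1, 0, 3, 0, 0, 3, 1, 1, 2, 1, 1, 1, 3, 3, 0, 1], [0, 0, 0, 1, 1, 0, 3, 0, 0, 3, 1, 0, 0, 0, 1, 0, 1, 2, 1, 0, 1, 3, 3, 0, 1],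
   [1, 0, 0, 0, 0, 0, 0, 1, 0, 0, 0, 1, 0, 0, 0, 0, 0, 1, 1, 0, 0, 0, 0, 0, 1]),
  (5, [0, 2, 1, 1, 0, 0, 0, 3, 0, 3, 0, 0, 0, 1, 1, 1, 0, 0, 1, 1, 0, 3, 3, 1, 1], [0, 0, 0, 1, 0, 0, 0, 1, 0, 0, 0, 1, 0, 0, 0, 1, 0, 0, 1, 0, 0, 0, 0, 0, 1],
   [1, 1, 2, 0, 0, 0, 3, 0, 0, 3, 1, 0, 0, 0, 1, 0, 0, 0, 1, 1, 1, 3, 3, 0, 1]),
  (5, [0, 1, 2, 0, 2, 1, 0, 0, 0, 0, 0, 0, 0, 3, 3, 0, 1, 3, 1, 4, 0, 1, 0, 1, 1], [1, 0, 0, 0, 0, 0, 0, 1, 0, 0, 0, 0, 0, 0, 1, 0, 1, 0, 0, 1, 0, 0, 0, 1, 0],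
   [0, 2, 1, 1, 0, 1, 0, 0, 0, 0, 0, 0, 3, 0, 3, 0, 3, 3, 1, 1, 0, 0, 0, 1, 1]),
  (5, [0, 0, 0, 1, 0, 1, 0, 0, 0, 1, 0, 0, 0, 0, 3, 1, 2, 2, 0, 0, 2, 3, 3, 0, 2], [1, 2, 2, 0, 0, 0, 0, 0, 1, 0, 0, 0, 0, 0, 3, 1, 3, 3, 0, 1, 1, 0, 0, 0, 1],
   [0, 1, 0, 0, 0, 0, 0, 0, 0, 1, 0, 0, 1, 0, 0, 1, 0, 0, 0, 0, 0, 0, 0, 1, 1]),
  (4, [0, 1, 2, 0, 1, 0, 0, 0, 0, 1, 0, 4, 0, 2, 3, 2], [1, 0, 0, 0, 0, 1, 0, 1, 0, 0, 0, 3, 0, 1, 2, 0, 0, 2, 3, 2],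
   [0, 0, 0, 1, 0, 1, 0, 0, 0, 0, 0, 1, 1, 0, 0, 0, 0, 0, 0, 1]),
  (4, [0, 1, 0, 0, 1, 0, 2, 0, 1, 4, 0, 4, 1, 2, 1, 2], [0, 1, 0, 0, 1, 0, 0, 0, 0, 0, 1, 0, 0, 1, 0, 1],
   [1, 0, 0, 0, 0, 1, 2, 0, 0, 1, 0, 4, 0, 1, 1, 2]),
  (5, [0, 0, 0, 1, 0, 0, 0, 0, 2, 2, 1, 0, 0, 2, 2, 1, 2, 2, 0, 0, 1, 1, 1, 2, 2], [1, 0, 0, 0, 0, 0, 0, 0, 1, 0, 0, 1, 1, 0, 0, 0, 0, 0, 0, 1],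
   [0, 1, 0, 0, 0, 2, 0, 2, 1, 2, 0, 2, 1, 0, 2, 0, 1, 2, 1, 2]),
  (5, [0, 0, 0, 1, 0, 1, 0, 0, 0, 0, 0, 0, 0, 2, 2, 1, 2, 4, 0, 0, 1, 1, 2, 2, 2], [1, 0, 0, 0, 0, 0, 0, 1, 0, 0, 0, 1, 1, 0, 0, 0, 0, 0, 1, 0, 0, 0, 0, 0, 1],
   [0, 0, 0, 1, 0, 1, 0, 0, 0, 0, 0, 0, 0, 2, 2, 1, 2, 2, 0, 0, 1, 1, 1, 2, 2]),
  (5, [0, 1, 1, 0, 2, 0, 0, 0, 1, 0, 0, 1, 0, 0, 0, 0, 1, 2, 0, 4, 2, 0, 0, 2, 2], [0, 1, 0, 0, 0, 0, 0, 1, 0, 0, 0, 0, 0, 0, 1, 0, 0, 0, 1, 0, 1, 0, 0, 0, 1],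
   [1, 1, 2, 0, 0, 0, 0, 0, 1, 0, 1, 0, 0, 0, 0, 1, 2, 4, 0, 0, 0, 0, 0, 2, 2]),
  (5, [0, 1, 0, 0, 0, 0, 0, 1, 1, 0, 1, 0, 0, 0, 2, 1, 1, 0, 0, 2, 0, 0, 2, 4, 2], [0, 0, 0, 1, 0, 0, 1, 0, 0, 0, 1, 0, 0, 0, 0, 0, 0, 1, 1, 0, 0, 0, 0, 0, 1],
   [0, 1, 0, 0, 0, 0, 0, 0, 1, 0, 0, 0, 1, 0, 2, 0, 1, 1, 0, 2, 2, 0, 0, 2, 2]),
  (5, [0, 1, 0, 0, 0, 0, 0, 1, 2, 0, 0, 1, 0, 0, 0, 1, 0, 0, 0, 2, 0, 0, 4, 6, 2], [1, 0, 0, 0, 0, 0, 1, 0, 0, 0, 0, 0, 0, 1, 0, 0, 0, 1, 1, 0, 0, 0, 0, 0, 1],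
   [0, 1, 0, 0, 0, 0, 0, 1, 1, 0, 0, 1, 0, 0, 0, 1, 0, 0, 0, 2, 0, 0, 2, 4, 2]),
  (4, [0, 1, 2, 0, 1, 0, 0, 0, 0, 1, 0, 2, 0, 4, 6, 2], [0, 1, 0, 0, 1, 0, 0, 0, 0, 1, 0, 0, 0, 0, 1, 0, 0, 0, 0, 1],
   [0, 0, 1, 2, 0, 0, 1, 0, 0, 0, 1, 0, 0, 0, 2, 0, 0, 4, 6, 2]),
  (4, [0, 0, 1, 2, 0, 0, 3, 6, 1, 0, 0, 0, 0, 2, 1, 2], [1, 0, 0, 0, 0, 0, 1, 0, 0, 0, 0, 1, 0, 1, 0, 1],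
   [0, 1, 2, 0, 0, 3, 6, 0, 1, 0, 0, 0, 0, 1, 0, 2]),
  (4, [0, 0, 1, 1, 0, 0, 3, 3, 0, 2, 1, 1, 1, 2, 1, 1], [0, 0, 1, 1, 0, 0, 3, 3, 1, 0, 0, 0, 0, 2, 1, 1],
   [1, 0, 0, 0, 0, 1, 0, 0, 0, 0, 0, 1, 0, 0, 1, 1]),
  (3, [0, 0, 1, 0, 0, 3, 1, 4, 2], [0, 0, 1, 0, 0, 3, 0, 2, 1, 1, 2, 1],
   [1, 0, 0, 0, 0, 1, 0, 0, 0, 0, 1, 1]),
  (4, [0, 0, 0, 1, 0, 0, 0, 3, 0, 0, 0, 3, 1, 2, 2, 2], [0, 0, 0, 1, 0, 0, 0, 3, 1, 2, 2, 2],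
   [1, 0, 0, 0, 1, 0, 0, 1, 0, 0, 0, 1]),
  (3, [0, 0, 1, 0, 0, 6, 1, 2, 2], [0, 0, 1, 0, 0, 3, 0, 0, 3, 1, 2, 2],
   [1, 0, 0, 0, 0, 1, 1, 0, 0, 0, 0, 1]),
  (3, [0, 0, 1, 0, 0, 5, 3, 2, 2], [1, 0, 0, 1, 1, 0, 0, 0, 1],
   [0, 0, 1, 0, 0, 5, 1, 2, 2]),
  (3, [0, 0, 1, 0, 0, 4, 5, 2, 2], [1, 0, 0, 1, 1, 0, 0, 0, 1],
   [0, 0, 1, 0, 0, 4, 3, 2, 2]),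
  (3, [0, 0, 1, 0, 0, 3, 7, 2, 2], [1, 0, 0, 1, 1, 0, 0, 0, 1],
   [0, 0, 1, 0, 0, 3, 5, 2, 2]),
  (3, [0, 0, 1, 0, 0, 2, 9, 2, 2], [1, 0, 0, 1, 1, 0, 0, 0, 1],
   [0, 0, 1, 0, 0, 2, 7, 2, 2]),
  (3, [0, 0, 1, 0, 0, 1, 2, 11, 2], [0, 1, 0, 1, 1, 0, 0, 0, 1],
   [0, 0, 1, 0, 0, 1, 9, 2, 2]),
  (2, [0, 1, 13, 2], [1, 0, 1, 0, 0, 1],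
   [0, 0, 1, 2, 11, 2]),
  (2, [1, 1, 14, 1], [1, 0, 1, 1],
   [0, 1, 13, 1]),
  (2, [1, 14, 1, 1], [0, 1, 1, 0],
   [14, 1, 1, 1]),
  (2, [0, 1, 13, 2], [13, 1, 0, 1],
   [0, 1, 1, 1]),
  (2, [2, 13, 1, 0], [0, 1, 1, 0],
   [13, 2, 0, 1])]

theorem sp_1_7_2_1 : SSE !![1, 7; 2, 1] !![2, 13; 1, 0] :=
  sse_of_chain_two ch_1_7_2_1 (by decide +kernel)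

/-- A chain from `[1, 8; 2, 1]` to `[1, 8; 2, 1]`. -/
def ch_1_8_2_1 : List (ℕ × List ℕ × List ℕ × List ℕ) := [
]

theorem sp_1_8_2_1 : SSE !![1, 8; 2, 1] !![1, 8; 2, 1] :=
  sse_of_chain_two ch_1_8_2_1 (by decide +kernel)

/-- A chain from `[1, 9; 2, 1]` to `[2, 17; 1, 0]`. -/
def ch_1_9_2_1 : List (ℕ × List ℕ × List ℕ × List ℕ) := [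
  (3, [0, 1, 2, 0, 1, 2, 3, 6, 1], [3, 6, 1, 0, 1, 2],
   [0, 1, 0, 1, 1, 0]),
  (4, [0, 0, 0, 1, 0, 0, 1, 1, 0, 0, 1, 2, 3, 3, 6, 1], [1, 1, 0, 0, 0, 0, 1, 0, 0, 0, 0, 1],
   [0, 0, 1, 0, 1, 1, 0, 1, 2, 3, 6, 1]),
  (4, [0, 1, 1, 0, 3, 0, 3, 5, 0, 1, 1, 1, 0, 2, 2, 1], [1, 0, 0, 0, 0, 0, 1, 0, 0, 0, 0, 1, 0, 1, 1, 0],
   [0, 0, 0, 1, 3, 3, 5, 0, 0, 0, 1, 1, 0, 0, 1, 2]),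
  (5, [0, 0, 1, 1, 1, 0, 0, 1, 1, 0, 0, 3, 0, 3, 5, 0, 0, 1, 1, 1, 1, 0, 2, 1, 1], [0, 0, 1, 1, 0, 0, 3, 0, 3, 5, 0, 0, 1, 1, 1, 1, 0, 2, 1, 1],
   [0, 0, 1, 0, 1, 0, 0, 0, 0, 1, 0, 0, 0, 0, 1, 0, 0, 0, 0, 1]),
  (5, [0, 0, 0, 0, 1, 0, 0, 1, 1, 0, 0, 3, 0, 3, 5, 0, 0, 1, 1, 1, 1, 1, 2, 1, 1], [1, 1, 0, 0, 0, 0, 1, 0, 0, 0, 0, 0, 1, 0, 0, 0, 0, 0, 1, 0, 0, 0, 0, 0, 1],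
   [0, 0, 0, 0, 1, 0, 0, 1, 1, 0, 0, 3, 0, 3, 5, 0, 0, 1, 1, 1, 1, 0, 2, 1, 1]),
  (5, [0, 0, 0, 0, 1, 0, 0, 2, 2, 1, 0, 3, 0, 0, 5, 0, 0, 1, 1, 1, 1, 1, 2, 0, 1], [0, 0, 0, 0, 1, 0, 0, 1, 1, 0, 0, 3, 0, 0, 5, 0, 0, 1, 1, 1, 1, 1, 2, 0, 1],
   [1, 0, 0, 0, 0, 0, 1, 0, 1, 0, 0, 0, 1, 0, 0, 0, 0, 0, 1, 0, 0, 0, 0, 0, 1]),
  (5, [0, 1, 0, 0, 0, 1, 0, 2, 0, 1, 0, 2, 0, 0, 3, 0, 1, 1, 1, 0, 1, 1, 4, 2, 1], [0, 1, 0, 0, 0, 0, 1, 2, 2, 0, 0, 2, 0, 0, 3, 0, 1, 1, 1, 0, 1, 0, 2, 0, 1],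
   [1, 0, 0, 0, 0, 0, 0, 0, 0, 1, 0, 0, 1, 0, 0, 0, 0, 0, 1, 0, 0, 1, 0, 0, 1]),
  (5, [0, 1, 0, 0, 0, 1, 0, 2, 0, 1, 0, 2, 0, 0, 3, 1, 0, 1, 1, 0, 3, 1, 4, 2, 1], [1, 0, 0, 0, 0, 0, 1, 0, 0, 0, 0, 0, 1, 0, 0, 1, 0, 0, 1, 0, 0, 0, 0, 0, 1],
   [0, 1, 0, 0, 0, 1, 0, 2, 0, 1, 0, 2, 0, 0, 3, 0, 0, 1, 1, 0, 1, 1, 4, 2, 1]),
  (5, [0, 0, 2, 0, 3, 0, 0, 3, 0, 3, 1, 1, 0, 0, 1, 0, 1, 0, 1, 0, 1, 3, 1, 2, 1], [0, 0, 1, 0, 0, 1, 1, 0, 0, 1, 0, 0, 2, 0, 3, 0, 1, 0, 1, 0, 1, 3, 1, 2, 1],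
   [0, 0, 1, 0, 0, 1, 0, 1, 0, 0, 0, 1, 0, 0, 0, 0, 0, 0, 1, 0, 0, 0, 0, 0, 1]),
  (5, [0, 0, 1, 0, 2, 0, 0, 0, 0, 3, 1, 3, 0, 2, 1, 0, 1, 0, 1, 0, 2, 4, 1, 2, 1], [0, 0, 1, 0, 2, 0, 0, 0, 0, 3, 1, 1, 1, 0, 0, 0, 1, 0, 1, 0, 1, 3, 0, 2, 1],
   [1, 0, 0, 0, 0, 0, 1, 0, 0, 0, 0, 0, 0, 0, 1, 0, 0, 0, 1, 0, 0, 0, 1, 0, 1]),
  (5, [0, 0, 1, 0, 2, 0, 0, 0, 0, 3, 1, 1, 0, 2, 1, 0, 0, 0, 1, 3, 2, 2, 1, 2, 1], [0, 0, 1, 0, 2, 0, 0, 0, 0, 3, 1, 1, 0, 2, 1, 0, 0, 0, 1, 0, 2, 2, 1, 2, 1],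
   [1, 0, 0, 0, 0, 0, 1, 0, 0, 0, 0, 0, 1, 0, 0, 0, 1, 0, 1, 0, 0, 0, 0, 0, 1]),
  (4, [0, 1, 2, 1, 1, 0, 0, 5, 0, 0, 1, 3, 1, 2, 2, 1], [1, 0, 0, 2, 0, 0, 0, 3, 0, 1, 2, 1, 0, 0, 1, 3, 1, 2, 2, 1],
   [0, 0, 1, 0, 0, 1, 1, 0, 0, 0, 0, 0, 0, 1, 0, 0, 0, 0, 0, 1]),
  (4, [0, 1, 1, 1, 1, 0, 1, 8, 0, 0, 1, 3, 1, 2, 0, 1], [0, 1, 1, 1, 1, 0, 0, 5, 0, 0, 1, 3, 1, 2, 0, 1],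
   [1, 0, 0, 0, 0, 1, 1, 0, 0, 0, 1, 0, 0, 0, 0, 1]),
  (4, [0, 2, 0, 1, 7, 0, 1, 1, 3, 0, 1, 0, 1, 3, 1, 1], [1, 1, 1, 0, 7, 0, 1, 1, 3, 0, 1, 0, 0, 2, 0, 1],
   [0, 0, 0, 1, 0, 1, 0, 0, 0, 0, 1, 0, 1, 0, 0, 1]),
  (5, [0, 0, 2, 0, 1, 0, 0, 2, 0, 1, 3, 4, 0, 1, 1, 1, 2, 0, 1, 0, 0, 1, 3, 1, 1], [0, 0, 2, 0, 1, 3, 4, 0, 1, 1, 1, 2, 0, 1, 0, 0, 1, 3, 1, 1],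
   [1, 0, 0, 0, 1, 0, 0, 0, 0, 1, 0, 0, 0, 0, 1, 0, 0, 0, 0, 1]),
  (5, [0, 0, 2, 0, 1, 0, 0, 4, 0, 2, 1, 3, 0, 1, 1, 1, 1, 0, 1, 0, 1, 0, 3, 1, 1], [0, 0, 2, 0, 1, 0, 0, 2, 0, 1, 1, 3, 0, 1, 1, 1, 1, 0, 1, 0, 1, 0, 3, 1, 1],
   [0, 1, 0, 0, 0, 1, 1, 0, 0, 0, 0, 0, 1, 0, 0, 0, 0, 0, 1, 0, 0, 0, 0, 0, 1]),
  (4, [0, 4, 0, 2, 3, 0, 1, 1, 1, 2, 1, 1, 0, 3, 1, 1], [0, 2, 0, 1, 0, 4, 0, 2, 3, 0, 1, 1, 1, 0, 1, 0, 0, 3, 1, 1],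
   [0, 1, 0, 0, 0, 0, 0, 1, 0, 0, 1, 0, 0, 1, 0, 0, 0, 0, 0, 1]),
  (4, [0, 0, 3, 1, 2, 0, 4, 0, 0, 3, 0, 1, 0, 1, 5, 2], [2, 0, 4, 0, 0, 3, 0, 1, 0, 1, 2, 1, 0, 0, 3, 1],
   [0, 0, 0, 1, 1, 0, 0, 0, 0, 1, 0, 0, 0, 0, 1, 1]),
  (4, [0, 3, 3, 2, 2, 0, 2, 0, 0, 3, 0, 1, 0, 1, 5, 2], [0, 0, 3, 1, 2, 0, 2, 0, 0, 3, 0, 1, 0, 1, 5, 2],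
   [1, 0, 1, 0, 0, 1, 0, 0, 0, 0, 1, 0, 0, 0, 0, 1]),
  (5, [0, 0, 0, 2, 0, 0, 0, 0, 3, 1, 0, 3, 0, 1, 2, 2, 2, 2, 0, 0, 0, 5, 0, 1, 2], [1, 0, 1, 0, 0, 0, 0, 0, 1, 0, 0, 1, 0, 0, 0, 0, 0, 0, 0, 1],
   [0, 2, 0, 0, 0, 3, 0, 1, 0, 1, 3, 2, 2, 0, 2, 0, 0, 1, 5, 2]),
  (5, [0, 0, 0, 2, 0, 0, 0, 2, 0, 0, 0, 1, 0, 3, 1, 2, 0, 2, 0, 2, 0, 2, 3, 1, 2], [1, 0, 0, 0, 0, 0, 0, 1, 0, 0, 0, 0, 0, 0, 1, 0, 0, 0, 1, 0, 0, 1, 0, 0, 1],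
   [0, 0, 0, 2, 0, 0, 2, 0, 0, 0, 0, 0, 0, 3, 1, 2, 2, 2, 0, 0, 0, 3, 0, 1, 2]),
  (5, [0, 0, 0, 2, 0, 2, 0, 2, 0, 0, 0, 2, 0, 0, 2, 4, 0, 3, 0, 1, 3, 0, 1, 3, 2], [0, 1, 0, 0, 0, 1, 0, 0, 0, 0, 0, 0, 0, 1, 0, 1, 0, 1, 0, 0, 0, 0, 0, 0, 1],
   [0, 0, 2, 0, 0, 0, 0, 0, 2, 0, 2, 0, 0, 0, 2, 0, 1, 0, 3, 1, 0, 2, 3, 1, 2]),
  (5, [0, 0, 0, 2, 2, 1, 0, 2, 0, 1, 0, 2, 0, 2, 0, 2, 0, 2, 0, 0, 1, 3, 3, 3, 2], [0, 0, 1, 0, 0, 0, 0, 0, 1, 0, 1, 0, 0, 0, 0, 0, 1, 0, 1, 0, 0, 0, 0, 0, 1],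
   [0, 2, 0, 0, 2, 2, 0, 1, 0, 1, 0, 0, 0, 2, 0, 2, 0, 2, 0, 0, 3, 0, 1, 3, 2]),
  (5, [0, 1, 3, 3, 1, 0, 0, 0, 2, 2, 1, 0, 0, 2, 2, 0, 2, 2, 0, 0, 2, 2, 0, 0, 2], [0, 0, 0, 0, 1, 0, 0, 1, 0, 0, 0, 0, 0, 1, 0, 0, 1, 0, 0, 0, 1, 0, 0, 0, 1],
   [1, 3, 3, 1, 0, 2, 0, 2, 0, 0, 1, 0, 2, 0, 1, 0, 2, 0, 2, 0, 0, 0, 0, 2, 2]),
  (5, [0, 0, 0, 1, 0, 0, 0, 2, 0, 2, 2, 4, 0, 0, 0, 3, 4, 3, 0, 1, 0, 2, 0, 2, 2], [0, 0, 0, 1, 0, 0, 1, 0, 0, 0, 1, 1, 0, 0, 0, 0, 0, 1, 0, 0, 0, 0, 0, 0, 1],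
   [1, 0, 0, 0, 0, 0, 0, 0, 2, 2, 0, 2, 2, 0, 0, 0, 1, 3, 3, 1, 2, 2, 0, 0, 2]),
  (5, [0, 0, 1, 1, 0, 0, 0, 0, 2, 2, 1, 0, 0, 3, 1, 2, 4, 0, 0, 0, 0, 2, 2, 2, 2], [1, 0, 0, 0, 0, 0, 1, 0, 0, 0, 0, 0, 0, 1, 0, 0, 0, 1, 1, 0, 0, 0, 0, 0, 1],
   [0, 0, 0, 1, 0, 0, 0, 2, 0, 2, 1, 0, 3, 0, 1, 2, 4, 0, 0, 0, 0, 2, 0, 2, 2]),
  (5, [0, 0, 1, 1, 0, 0, 0, 2, 0, 2, 1, 1, 0, 3, 1, 2, 0, 0, 0, 4, 0, 2, 0, 2, 2], [1, 0, 0, 0, 0, 0, 0, 0, 0, 1, 0, 0, 1, 0, 0, 0, 0, 0, 1, 0, 0, 1, 0, 0, 1],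
   [0, 0, 1, 1, 0, 0, 2, 2, 0, 0, 1, 0, 0, 3, 1, 2, 4, 0, 0, 0, 0, 0, 0, 2, 2]),
  (5, [0, 2, 1, 1, 1, 0, 0, 0, 2, 4, 2, 0, 0, 2, 6, 1, 1, 0, 0, 0, 0, 0, 2, 0, 2], [1, 1, 0, 0, 0, 2, 0, 0, 0, 2, 0, 2, 1, 1, 1, 0, 0, 0, 2, 4, 0, 0, 2, 0, 2],
   [0, 0, 1, 0, 0, 0, 0, 0, 1, 0, 0, 1, 0, 1, 0, 1, 0, 0, 0, 0, 0, 0, 0, 0, 1]),
  (5, [0, 2, 1, 1, 0, 0, 0, 2, 0, 2, 1, 1, 0, 2, 2, 2, 0, 2, 0, 4, 0, 0, 0, 2, 2], [0, 2, 1, 1, 0, 0, 0, 2, 0, 2, 2, 0, 2, 0, 4, 1, 1, 0, 0, 0, 0, 0, 0, 2, 2],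
   [1, 0, 0, 0, 0, 0, 1, 0, 0, 0, 0, 0, 0, 1, 1, 0, 0, 1, 0, 0, 0, 0, 0, 0, 1]),
  (5, [0, 2, 0, 0, 2, 1, 0, 2, 1, 1, 0, 2, 0, 2, 2, 2, 1, 3, 0, 2, 0, 0, 2, 0, 2], [2, 1, 1, 0, 0, 0, 2, 0, 0, 2, 1, 0, 2, 1, 1, 0, 2, 0, 2, 2, 0, 0, 2, 0, 2],
   [0, 1, 0, 0, 0, 0, 0, 1, 0, 0, 0, 0, 0, 1, 0, 1, 0, 0, 0, 1, 0, 0, 0, 0, 1]),
  (5, [0, 0, 0, 2, 0, 0, 0, 2, 2, 0, 2, 3, 0, 1, 1, 1, 4, 1, 0, 3, 0, 2, 0, 0, 2], [0, 0, 0, 2, 0, 1, 2, 1, 0, 1, 0, 0, 2, 2, 0, 2, 3, 0, 1, 1, 0, 2, 0, 0, 2],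
   [1, 0, 0, 0, 0, 0, 0, 1, 0, 0, 0, 0, 0, 1, 0, 0, 1, 0, 0, 1, 0, 0, 0, 0, 1]),
  (5, [0, 0, 0, 2, 0, 0, 0, 2, 2, 0, 2, 2, 0, 1, 1, 1, 1, 1, 0, 3, 0, 0, 2, 2, 2], [0, 0, 0, 2, 0, 0, 0, 2, 2, 0, 2, 2, 0, 1, 1, 1, 1, 1, 0, 3, 0, 0, 0, 0, 2],
   [1, 0, 0, 0, 0, 0, 1, 0, 0, 0, 0, 0, 1, 0, 0, 0, 0, 0, 1, 0, 0, 1, 0, 0, 1]),
  (4, [0, 1, 2, 1, 1, 0, 1, 3, 2, 4, 0, 0, 2, 2, 0, 2], [0, 2, 0, 0, 2, 2, 0, 0, 0, 1, 2, 1, 1, 0, 1, 3, 2, 2, 0, 2],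
   [0, 0, 1, 0, 0, 0, 0, 0, 1, 0, 1, 1, 0, 0, 0, 0, 0, 0, 0, 1]),
  (5, [0, 0, 1, 2, 0, 0, 0, 1, 2, 0, 2, 2, 0, 1, 1, 1, 1, 1, 0, 3, 0, 0, 2, 2, 2], [0, 0, 1, 0, 0, 0, 0, 0, 1, 0, 1, 1, 0, 0, 0, 0, 0, 0, 0, 1],
   [1, 2, 0, 0, 1, 2, 0, 0, 0, 1, 2, 1, 1, 0, 1, 3, 2, 2, 0, 2]),
  (4, [0, 1, 4, 1, 1, 0, 2, 3, 1, 2, 0, 0, 2, 2, 0, 2], [0, 0, 1, 0, 0, 0, 1, 0, 1, 0, 0, 0, 0, 1, 0, 0, 0, 0, 0, 1],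
   [2, 2, 0, 1, 1, 1, 1, 1, 0, 3, 0, 0, 1, 2, 0, 0, 0, 2, 2, 2]),
  (4, [0, 1, 5, 1, 1, 0, 5, 3, 1, 2, 0, 0, 1, 0, 2, 2], [1, 0, 0, 0, 0, 1, 0, 0, 0, 0, 1, 0, 0, 0, 1, 1],
   [0, 1, 4, 1, 1, 0, 2, 3, 1, 2, 0, 0, 1, 0, 0, 2]),
  (4, [0, 1, 5, 2, 0, 0, 3, 1, 1, 2, 0, 2, 1, 0, 2, 2], [1, 0, 0, 0, 0, 1, 0, 1, 0, 0, 1, 0, 0, 0, 0, 1],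
   [0, 1, 5, 1, 0, 0, 3, 1, 1, 2, 0, 0, 1, 0, 2, 2]),
  (4, [0, 3, 0, 1, 2, 0, 1, 1, 1, 7, 1, 3, 0, 2, 1, 1], [1, 5, 0, 2, 0, 3, 0, 1, 2, 0, 1, 1, 0, 2, 1, 1],
   [0, 1, 0, 0, 0, 0, 1, 0, 1, 0, 0, 1, 0, 0, 0, 1]),
  (4, [0, 0, 2, 1, 1, 0, 3, 0, 0, 2, 0, 1, 2, 1, 9, 2], [1, 0, 3, 0, 0, 2, 0, 1, 2, 1, 7, 1, 0, 0, 2, 1],
   [0, 0, 0, 1, 1, 0, 0, 0, 0, 1, 0, 0, 0, 0, 1, 1]),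
  (4, [0, 2, 2, 2, 1, 0, 2, 0, 0, 2, 0, 1, 2, 1, 7, 2], [0, 0, 2, 1, 1, 0, 2, 0, 0, 2, 0, 1, 2, 1, 7, 2],
   [1, 0, 1, 0, 0, 1, 0, 0, 0, 0, 1, 0, 0, 0, 0, 1]),
  (4, [0, 4, 2, 3, 1, 0, 1, 0, 0, 2, 0, 1, 2, 1, 5, 2], [0, 2, 2, 2, 1, 0, 1, 0, 0, 2, 0, 1, 2, 1, 5, 2],
   [1, 0, 1, 0, 0, 1, 0, 0, 0, 0, 1, 0, 0, 0, 0, 1]),
  (4, [0, 0, 1, 0, 2, 0, 0, 1, 6, 2, 0, 4, 1, 3, 2, 2], [4, 2, 0, 3, 0, 0, 1, 0, 2, 0, 0, 1, 1, 3, 2, 2],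
   [0, 1, 0, 0, 0, 0, 1, 0, 1, 0, 1, 0, 0, 0, 0, 1]),
  (5, [0, 0, 0, 1, 0, 0, 0, 0, 1, 0, 1, 1, 0, 0, 1, 2, 4, 2, 0, 4, 0, 1, 3, 2, 2], [0, 0, 0, 1, 0, 1, 1, 0, 0, 1, 2, 4, 2, 0, 4, 0, 1, 3, 2, 2],
   [1, 0, 0, 0, 1, 0, 0, 0, 0, 1, 0, 0, 0, 0, 1, 0, 0, 0, 0, 1]),
  (5, [0, 0, 0, 1, 0, 0, 0, 0, 2, 0, 0, 1, 0, 0, 1, 2, 2, 2, 0, 4, 1, 0, 3, 2, 2], [0, 0, 0, 1, 0, 0, 0, 0, 1, 0, 0, 1, 0, 0, 1, 2, 2, 2, 0, 4, 1, 0, 3, 2, 2],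
   [0, 1, 0, 0, 0, 1, 1, 0, 0, 0, 0, 0, 1, 0, 0, 0, 0, 0, 1, 0, 0, 0, 0, 0, 1]),
  (5, [0, 0, 1, 0, 1, 0, 0, 1, 1, 1, 0, 0, 0, 2, 0, 0, 2, 2, 0, 4, 2, 1, 0, 2, 2], [0, 0, 0, 1, 0, 0, 0, 0, 2, 0, 0, 0, 1, 0, 1, 0, 2, 2, 0, 4, 2, 1, 0, 2, 2],
   [0, 0, 1, 0, 0, 1, 0, 1, 0, 0, 0, 1, 0, 0, 0, 0, 0, 0, 1, 0, 0, 0, 0, 0, 1]),
  (5, [0, 0, 0, 2, 0, 1, 0, 1, 1, 0, 0, 1, 0, 2, 2, 2, 2, 4, 0, 0, 1, 1, 1, 2, 2], [1, 0, 1, 0, 0, 1, 0, 1, 1, 0, 0, 0, 0, 2, 0, 2, 2, 4, 0, 0, 0, 1, 0, 2, 2],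
   [0, 0, 1, 0, 0, 0, 1, 0, 0, 0, 0, 0, 0, 0, 1, 0, 0, 0, 1, 0, 1, 0, 0, 0, 1]),
  (5, [0, 0, 0, 2, 0, 1, 0, 1, 1, 0, 0, 3, 0, 2, 2, 2, 2, 4, 0, 0, 0, 3, 0, 1, 2], [1, 0, 0, 0, 0, 0, 1, 0, 0, 0, 0, 0, 1, 0, 0, 0, 0, 0, 1, 0, 0, 1, 0, 0, 1],
   [0, 0, 0, 2, 0, 1, 0, 1, 1, 0, 0, 1, 0, 2, 2, 2, 2, 4, 0, 0, 0, 1, 0, 1, 2]),
  (5, [0, 0, 0, 1, 0, 0, 0, 0, 2, 0, 1, 1, 0, 1, 1, 4, 2, 2, 0, 4, 0, 0, 3, 1, 2], [0, 1, 0, 0, 0, 0, 0, 1, 0, 0, 1, 0, 0, 0, 1, 0, 0, 0, 1, 0, 0, 0, 0, 0, 1],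
   [0, 0, 0, 1, 0, 0, 0, 0, 2, 0, 1, 0, 1, 1, 0, 2, 2, 4, 0, 0, 0, 3, 0, 1, 2]),
  (5, [0, 0, 0, 1, 0, 0, 0, 0, 3, 0, 0, 1, 0, 1, 1, 2, 2, 2, 0, 4, 0, 0, 3, 1, 2], [0, 0, 0, 1, 0, 0, 0, 0, 2, 0, 0, 1, 0, 1, 1, 2, 2, 2, 0, 4, 0, 0, 3, 1, 2],
   [1, 0, 0, 0, 0, 1, 1, 0, 0, 0, 0, 0, 1, 0, 0, 0, 0, 0, 1, 0, 0, 0, 0, 0, 1]),
  (5, [0, 0, 1, 0, 0, 0, 0, 1, 1, 0, 2, 2, 0, 2, 2, 0, 3, 4, 0, 2, 0, 3, 1, 0, 2], [0, 0, 1, 0, 0, 0, 0, 3, 0, 0, 0, 0, 1, 1, 0, 2, 2, 0, 2, 2, 0, 3, 1, 0, 2],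
   [1, 0, 0, 0, 0, 0, 0, 1, 0, 0, 0, 0, 0, 1, 0, 0, 1, 0, 0, 1, 0, 0, 0, 0, 1]),
  (5, [0, 0, 0, 1, 0, 0, 0, 1, 1, 0, 0, 1, 0, 4, 2, 2, 0, 2, 0, 2, 0, 1, 1, 2, 2], [0, 0, 0, 1, 0, 0, 0, 1, 1, 0, 2, 0, 2, 0, 2, 0, 1, 0, 4, 2, 0, 1, 0, 1, 2],
   [1, 0, 0, 0, 0, 0, 1, 0, 0, 0, 0, 0, 0, 1, 0, 0, 0, 1, 0, 0, 0, 1, 0, 0, 1]),
  (5, [0, 0, 0, 1, 0, 0, 0, 1, 0, 0, 0, 2, 0, 2, 2, 1, 1, 4, 0, 2, 1, 1, 2, 1, 2], [0, 1, 0, 0, 0, 1, 1, 0, 0, 0, 0, 0, 0, 1, 0, 0, 0, 1, 0, 0, 0, 0, 0, 0, 1],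
   [0, 0, 1, 0, 0, 0, 0, 0, 1, 0, 2, 0, 2, 0, 2, 0, 1, 0, 4, 2, 0, 1, 1, 2, 2]),
  (5, [0, 0, 1, 0, 0, 0, 0, 2, 0, 2, 1, 4, 0, 1, 1, 1, 2, 1, 1, 1, 1, 3, 1, 1, 1], [0, 0, 1, 0, 0, 0, 1, 0, 0, 0, 0, 0, 2, 0, 2, 1, 4, 0, 1, 1, 1, 2, 1, 1, 1],
   [1, 0, 0, 0, 0, 0, 0, 1, 0, 0, 0, 0, 0, 1, 0, 0, 0, 0, 0, 1, 0, 1, 0, 0, 1]),
  (4, [0, 2, 0, 2, 4, 0, 1, 1, 2, 2, 1, 1, 3, 1, 1, 1], [0, 1, 0, 0, 0, 2, 0, 2, 4, 0, 1, 1, 2, 1, 1, 1, 3, 1, 1, 1],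
   [0, 1, 0, 0, 0, 0, 0, 1, 0, 0, 1, 0, 0, 1, 0, 0, 0, 0, 0, 1]),
  (5, [0, 0, 1, 0, 1, 0, 0, 2, 0, 2, 1, 4, 0, 1, 1, 1, 2, 1, 1, 0, 1, 3, 1, 1, 1], [0, 1, 0, 0, 0, 0, 0, 1, 0, 0, 1, 0, 0, 1, 0, 0, 0, 0, 0, 1],
   [0, 1, 0, 1, 0, 2, 0, 2, 4, 0, 1, 1, 2, 1, 1, 0, 3, 1, 1, 1]),
  (5, [0, 0, 3, 1, 1, 1, 0, 4, 1, 2, 2, 2, 0, 0, 2, 0, 1, 2, 1, 1, 1, 1, 0, 0, 1], [0, 0, 0, 0, 1, 0, 0, 1, 0, 0, 0, 1, 0, 0, 0, 0, 0, 0, 1, 0, 1, 0, 0, 0, 1],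
   [1, 3, 0, 1, 0, 1, 4, 0, 1, 1, 0, 0, 2, 0, 2, 1, 2, 1, 1, 0, 0, 0, 1, 0, 1]),
  (5, [0, 1, 1, 1, 0, 0, 0, 3, 1, 1, 2, 4, 0, 2, 0, 1, 2, 0, 1, 0, 1, 1, 2, 1, 1], [0, 1, 0, 0, 0, 1, 1, 0, 0, 0, 0, 0, 1, 0, 0, 0, 0, 0, 0, 1, 0, 0, 0, 1, 0],
   [1, 0, 1, 0, 1, 0, 0, 3, 1, 1, 2, 2, 0, 0, 2, 1, 1, 0, 0, 1, 0, 1, 2, 1, 1]),
  (5, [0, 1, 1, 0, 1, 1, 0, 3, 1, 1, 2, 4, 0, 0, 2, 2, 0, 1, 1, 0, 1, 2, 0, 0, 1], [1, 0, 0, 0, 0, 0, 1, 0, 0, 0, 0, 0, 1, 0, 0, 0, 0, 0, 0, 1, 1, 0, 0, 1, 0],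
   [0, 1, 1, 1, 0, 0, 0, 3, 1, 1, 2, 4, 0, 2, 0, 1, 0, 1, 0, 1, 1, 2, 0, 1, 0]),
  (5, [0, 1, 1, 2, 0, 1, 0, 2, 1, 0, 1, 3, 0, 4, 1, 1, 0, 2, 1, 0, 2, 1, 0, 1, 1], [1, 0, 0, 0, 0, 0, 0, 1, 0, 0, 0, 1, 0, 1, 0, 0, 0, 0, 0, 1, 0, 0, 0, 1, 0],
   [0, 1, 1, 0, 1, 1, 2, 0, 0, 1, 1, 0, 3, 1, 1, 1, 2, 0, 0, 1, 2, 0, 1, 1, 0]),
  (4, [0, 1, 1, 7, 1, 0, 0, 3, 0, 2, 1, 2, 2, 1, 0, 1], [0, 1, 0, 0, 0, 0, 0, 1, 1, 0, 0, 0, 0, 0, 0, 1, 0, 0, 1, 0],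
   [1, 3, 0, 4, 1, 0, 1, 1, 2, 0, 2, 1, 0, 1, 1, 1, 0, 2, 1, 0]),
  (4, [0, 2, 0, 1, 6, 0, 1, 1, 0, 0, 1, 2, 3, 3, 0, 1], [6, 0, 1, 1, 3, 1, 0, 0, 0, 0, 1, 2, 0, 2, 0, 1],
   [0, 0, 0, 1, 1, 0, 0, 0, 0, 0, 1, 0, 0, 1, 0, 1]),
  (5, [0, 0, 2, 0, 1, 0, 0, 2, 0, 1, 2, 4, 0, 1, 1, 0, 0, 0, 1, 2, 1, 2, 3, 0, 1], [0, 0, 2, 0, 1, 2, 4, 0, 1, 1, 0, 0, 0, 1, 2, 1, 2, 3, 0, 1],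
   [1, 0, 0, 0, 1, 0, 0, 0, 0, 1, 0, 0, 0, 0, 1, 0, 0, 0, 0, 1]),
  (5, [0, 0, 2, 0, 1, 0, 0, 4, 0, 2, 2, 2, 0, 1, 1, 0, 0, 0, 1, 2, 1, 1, 3, 0, 1], [0, 0, 2, 0, 1, 0, 0, 2, 0, 1, 2, 2, 0, 1, 1, 0, 0, 0, 1, 2, 1, 1, 3, 0, 1],
   [0, 1, 0, 0, 0, 1, 1, 0, 0, 0, 0, 0, 1, 0, 0, 0, 0, 0, 1, 0, 0, 0, 0, 0, 1]),
  (4, [0, 6, 0, 3, 2, 0, 1, 1, 0, 0, 1, 2, 1, 3, 0, 1], [0, 2, 0, 1, 0, 4, 0, 2, 2, 0, 1, 1, 0, 0, 1, 2, 1, 3, 0, 1],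
   [1, 1, 0, 0, 0, 0, 0, 1, 0, 0, 0, 0, 0, 1, 0, 0, 0, 0, 0, 1]),
  (5, [0, 0, 3, 0, 1, 0, 0, 3, 0, 2, 2, 2, 0, 1, 1, 0, 0, 0, 1, 2, 1, 1, 3, 0, 1], [1, 1, 0, 0, 0, 0, 0, 1, 0, 0, 0, 0, 0, 1, 0, 0, 0, 0, 0, 1],
   [0, 3, 0, 1, 0, 3, 0, 2, 2, 0, 1, 1, 0, 0, 1, 2, 1, 3, 0, 1]),
  (5, [0, 0, 0, 0, 1, 0, 0, 3, 0, 1, 2, 4, 0, 1, 1, 0, 0, 0, 1, 2, 1, 2, 3, 0, 1], [0, 1, 0, 0, 0, 1, 1, 0, 0, 0, 0, 0, 1, 0, 0, 0, 0, 0, 1, 0, 0, 0, 0, 0, 1],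
   [0, 0, 0, 0, 1, 0, 0, 3, 0, 1, 2, 2, 0, 1, 1, 0, 0, 0, 1, 2, 1, 1, 3, 0, 1]),
  (5, [0, 0, 0, 0, 1, 0, 0, 3, 0, 1, 3, 4, 0, 1, 1, 1, 0, 0, 1, 1, 1, 2, 3, 0, 1], [1, 0, 0, 0, 0, 0, 1, 0, 0, 0, 0, 0, 1, 0, 0, 1, 0, 0, 1, 0, 0, 0, 0, 0, 1],
   [0, 0, 0, 0, 1, 0, 0, 3, 0, 1, 2, 4, 0, 1, 1, 0, 0, 0, 1, 1, 1, 2, 3, 0, 1]),
  (5, [0, 1, 3, 1, 5, 0, 0, 1, 0, 2, 0, 1, 0, 0, 1, 0, 1, 1, 1, 1, 3, 1, 0, 0, 1], [0, 0, 1, 0, 0, 0, 0, 0, 0, 1, 1, 0, 0, 0, 0, 0, 0, 0, 1, 0, 0, 1, 0, 0, 1],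
   [3, 4, 0, 1, 1, 1, 2, 0, 0, 0, 0, 0, 0, 0, 1, 1, 0, 0, 1, 1, 0, 0, 3, 0, 1]),
  (5, [0, 0, 1, 0, 2, 0, 0, 2, 0, 4, 1, 0, 0, 0, 1, 1, 0, 1, 1, 1, 1, 3, 0, 3, 1], [0, 1, 0, 1, 0, 1, 0, 0, 0, 0, 0, 0, 1, 0, 0, 0, 0, 0, 1, 0, 0, 0, 0, 0, 1],
   [0, 0, 1, 0, 2, 0, 0, 2, 0, 4, 0, 1, 0, 0, 1, 0, 1, 1, 1, 1, 3, 1, 0, 0, 1]),
  (5, [0, 0, 1, 0, 1, 1, 0, 0, 0, 2, 1, 0, 0, 0, 2, 1, 0, 1, 1, 1, 0, 3, 4, 3, 1], [0, 0, 1, 0, 0, 0, 1, 1, 0, 0, 1, 0, 0, 0, 0, 0, 0, 0, 1, 0, 0, 0, 0, 0, 1],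
   [1, 0, 0, 0, 1, 0, 0, 1, 0, 2, 0, 0, 1, 0, 2, 1, 0, 1, 1, 1, 1, 3, 0, 3, 1]),
  (4, [0, 1, 0, 1, 1, 0, 0, 2, 1, 1, 1, 1, 0, 7, 3, 1], [1, 0, 0, 0, 0, 1, 0, 0, 0, 1, 0, 0, 0, 0, 1, 0, 0, 0, 0, 1],
   [0, 0, 1, 0, 1, 1, 0, 0, 0, 2, 1, 0, 1, 1, 1, 0, 3, 4, 3, 1]),
  (5, [0, 1, 1, 1, 1, 0, 0, 1, 0, 1, 0, 1, 0, 0, 2, 0, 1, 1, 1, 1, 1, 0, 7, 2, 1], [0, 0, 1, 0, 1, 0, 1, 0, 0, 2, 0, 1, 1, 1, 1, 1, 0, 7, 2, 1],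
   [0, 0, 1, 0, 1, 0, 0, 0, 0, 1, 0, 0, 0, 0, 1, 0, 0, 0, 0, 1]),
  (5, [0, 1, 0, 1, 0, 0, 0, 1, 0, 1, 0, 1, 0, 0, 2, 0, 1, 1, 1, 1, 1, 1, 7, 2, 1], [1, 1, 0, 0, 0, 0, 1, 0, 0, 0, 0, 0, 1, 0, 0, 0, 0, 0, 1, 0, 0, 0, 0, 0, 1],
   [0, 1, 0, 1, 0, 0, 0, 1, 0, 1, 0, 1, 0, 0, 2, 0, 1, 1, 1, 1, 1, 0, 7, 2, 1]),
  (5, [0, 1, 0, 0, 1, 0, 0, 1, 1, 1, 1, 0, 0, 6, 1, 0, 1, 2, 0, 2, 0, 1, 1, 1, 2], [1, 0, 0, 0, 0, 0, 1, 0, 0, 0, 0, 0, 0, 1, 0, 0, 0, 0, 0, 1, 0, 0, 1, 0, 1],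
   [0, 1, 0, 1, 0, 0, 0, 1, 0, 1, 1, 0, 6, 1, 0, 0, 1, 0, 0, 2, 0, 1, 1, 1, 1]),
  (5, [0, 0, 0, 0, 1, 0, 0, 2, 1, 1, 1, 6, 0, 1, 0, 0, 1, 1, 1, 1, 0, 2, 2, 2, 1], [0, 0, 0, 0, 1, 0, 1, 1, 1, 0, 1, 6, 0, 1, 0, 0, 0, 2, 1, 1, 0, 1, 1, 1, 1],
   [1, 0, 0, 0, 0, 0, 0, 0, 1, 0, 0, 0, 1, 0, 0, 0, 0, 0, 0, 1, 0, 1, 0, 0, 1]),
  (5, [0, 1, 0, 0, 1, 0, 0, 0, 1, 2, 1, 0, 0, 1, 6, 0, 1, 1, 1, 2, 0, 1, 2, 1, 1], [1, 0, 0, 0, 0, 0, 0, 0, 0, 1, 0, 0, 1, 0, 0, 0, 0, 0, 1, 0, 0, 1, 0, 0, 1],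
   [0, 0, 0, 0, 1, 0, 2, 0, 1, 0, 1, 6, 0, 1, 0, 0, 1, 1, 1, 1, 0, 0, 2, 1, 1]),
  (5, [0, 0, 0, 1, 1, 0, 0, 1, 1, 0, 1, 1, 0, 1, 6, 0, 1, 0, 1, 2, 0, 1, 2, 2, 1], [1, 0, 0, 0, 0, 0, 0, 0, 1, 0, 0, 0, 1, 0, 0, 0, 1, 0, 1, 0, 0, 0, 0, 0, 1],
   [0, 1, 0, 0, 1, 0, 1, 1, 0, 0, 1, 0, 0, 1, 6, 0, 0, 0, 1, 2, 0, 1, 2, 1, 1]),
  (5, [0, 0, 1, 0, 0, 0, 0, 0, 1, 1, 2, 1, 0, 2, 8, 1, 0, 0, 1, 2, 1, 0, 2, 0, 1], [0, 0, 0, 1, 1, 0, 0, 1, 0, 0, 1, 1, 0, 1, 6, 1, 0, 0, 1, 2, 1, 0, 2, 0, 1],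
   [0, 1, 0, 0, 0, 1, 0, 0, 0, 0, 0, 0, 1, 1, 0, 0, 0, 0, 1, 0, 0, 0, 0, 0, 1]),
  (5, [0, 0, 1, 1, 0, 1, 0, 6, 2, 2, 0, 2, 0, 0, 1, 0, 0, 1, 1, 1, 0, 3, 0, 0, 1], [0, 1, 0, 0, 0, 0, 0, 1, 1, 0, 1, 0, 6, 2, 2, 0, 0, 1, 1, 1, 0, 2, 0, 0, 1],
   [0, 1, 0, 0, 0, 0, 0, 1, 0, 0, 0, 0, 0, 0, 1, 0, 0, 0, 1, 0, 1, 0, 0, 0, 1]),
  (5, [0, 0, 0, 0, 1, 0, 0, 2, 0, 1, 2, 6, 0, 3, 2, 1, 1, 0, 1, 0, 0, 0, 3, 0, 1], [0, 0, 0, 1, 0, 0, 0, 1, 0, 0, 0, 1, 0, 0, 0, 1, 0, 0, 1, 0, 0, 0, 0, 0, 1],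
   [0, 0, 0, 0, 1, 0, 2, 0, 0, 1, 1, 0, 6, 2, 2, 0, 0, 1, 1, 0, 0, 3, 0, 0, 1]),
  (5, [0, 0, 0, 1, 0, 0, 0, 2, 1, 0, 2, 3, 0, 2, 3, 0, 0, 3, 1, 0, 1, 0, 2, 1, 1], [0, 0, 0, 1, 0, 0, 0, 2, 1, 0, 2, 3, 0, 2, 3, 1, 0, 0, 0, 1, 0, 0, 3, 1, 0],
   [1, 0, 0, 0, 0, 0, 1, 0, 0, 0, 0, 0, 1, 0, 0, 0, 0, 0, 0, 1, 0, 1, 0, 1, 0]),
  (5, [0, 0, 2, 0, 1, 0, 0, 3, 0, 2, 3, 2, 0, 3, 0, 0, 1, 2, 1, 0, 0, 0, 3, 0, 1], [0, 0, 0, 0, 1, 0, 0, 2, 0, 1, 3, 2, 0, 3, 0, 0, 0, 3, 0, 1, 0, 1, 2, 1, 0],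
   [0, 1, 0, 0, 0, 1, 0, 0, 1, 0, 0, 0, 1, 0, 0, 0, 0, 0, 0, 1, 0, 0, 0, 1, 0]),
  (5, [0, 0, 1, 1, 0, 0, 0, 2, 1, 0, 2, 5, 0, 0, 3, 0, 0, 3, 1, 0, 1, 1, 2, 0, 1], [0, 1, 0, 0, 0, 1, 1, 0, 0, 0, 0, 0, 1, 0, 0, 0, 0, 0, 0, 1, 0, 0, 0, 1, 0],
   [0, 0, 1, 0, 1, 0, 0, 2, 0, 1, 3, 2, 0, 3, 0, 0, 0, 3, 0, 1, 0, 1, 2, 1, 0]),
  (5, [0, 0, 1, 1, 0, 0, 0, 2, 1, 0, 2, 2, 0, 0, 3, 0, 0, 3, 1, 0, 1, 0, 4, 1, 1], [0, 0, 1, 1, 0, 0, 0, 2, 1, 0, 2, 2, 0, 0, 3, 0, 0, 3, 1, 0, 1, 0, 2, 0, 1],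
   [1, 0, 0, 0, 0, 0, 1, 0, 0, 0, 0, 0, 1, 0, 0, 0, 0, 0, 1, 0, 0, 1, 0, 0, 1]),
  (5, [0, 0, 1, 0, 0, 0, 0, 1, 1, 0, 2, 4, 0, 0, 3, 0, 0, 3, 1, 0, 0, 1, 4, 1, 1], [0, 1, 0, 0, 0, 1, 1, 0, 0, 0, 0, 0, 1, 0, 0, 0, 0, 0, 1, 0, 0, 0, 0, 0, 1],
   [0, 0, 1, 0, 0, 0, 0, 1, 1, 0, 2, 2, 0, 0, 3, 0, 0, 3, 1, 0, 1, 0, 4, 1, 1]),
  (5, [0, 0, 1, 0, 0, 0, 0, 1, 1, 0, 2, 1, 0, 0, 3, 0, 0, 3, 1, 0, 0, 0, 5, 2, 1], [0, 0, 1, 0, 0, 0, 0, 1, 1, 0, 2, 1, 0, 0, 3, 0, 0, 3, 1, 0, 0, 0, 4, 1, 1],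
   [1, 0, 0, 0, 0, 0, 1, 0, 0, 0, 0, 0, 1, 0, 0, 0, 0, 0, 1, 0, 0, 1, 0, 0, 1]),
  (5, [0, 0, 1, 0, 0, 0, 0, 2, 1, 0, 1, 1, 0, 0, 3, 0, 0, 3, 1, 0, 0, 0, 5, 2, 1], [0, 0, 1, 0, 0, 0, 0, 1, 1, 0, 1, 1, 0, 0, 3, 0, 0, 3, 1, 0, 0, 0, 5, 2, 1],
   [1, 0, 0, 0, 0, 1, 1, 0, 0, 0, 0, 0, 1, 0, 0, 0, 0, 0, 1, 0, 0, 0, 0, 0, 1]),
  (4, [0, 3, 1, 0, 1, 0, 0, 3, 0, 3, 1, 0, 0, 5, 2, 1], [0, 1, 0, 0, 0, 2, 1, 0, 1, 0, 0, 3, 0, 3, 1, 0, 0, 5, 2, 1],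
   [1, 1, 0, 0, 0, 0, 0, 1, 0, 0, 0, 0, 0, 1, 0, 0, 0, 0, 0, 1]),
  (3, [0, 1, 3, 3, 1, 0, 5, 2, 1], [0, 1, 0, 1, 0, 0, 0, 1, 0, 0, 0, 1],
   [1, 0, 0, 3, 0, 3, 1, 0, 0, 5, 2, 1]),
  (4, [0, 5, 0, 2, 3, 0, 3, 1, 1, 0, 1, 0, 0, 3, 0, 1], [0, 1, 0, 0, 0, 0, 0, 1, 1, 0, 1, 0],
   [5, 2, 0, 0, 1, 3, 0, 0, 1, 3, 1, 0]),
  (4, [0, 5, 2, 5, 2, 0, 1, 2, 0, 3, 1, 3, 1, 0, 0, 1], [1, 0, 0, 0, 0, 1, 0, 1, 0, 0, 0, 1, 0, 0, 1, 0],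
   [0, 5, 0, 2, 2, 0, 2, 1, 0, 3, 0, 1, 1, 0, 1, 0]),
  (4, [0, 5, 2, 3, 2, 0, 1, 1, 1, 3, 1, 3, 1, 0, 0, 1], [0, 5, 2, 3, 2, 0, 1, 1, 0, 3, 1, 2, 1, 0, 0, 1],
   [1, 0, 0, 0, 0, 1, 0, 0, 0, 0, 1, 1, 0, 0, 0, 1]),
  (4, [0, 2, 0, 1, 5, 0, 1, 2, 0, 1, 1, 0, 3, 2, 3, 1], [5, 0, 1, 2, 0, 2, 0, 1, 3, 1, 2, 1, 0, 1, 1, 0],
   [0, 1, 0, 0, 1, 0, 0, 0, 0, 0, 0, 1, 0, 0, 1, 1]),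
  (4, [0, 0, 3, 3, 2, 0, 1, 7, 0, 1, 1, 0, 1, 2, 0, 1], [0, 0, 0, 1, 0, 1, 0, 0, 0, 0, 1, 0, 1, 0, 0, 1],
   [3, 0, 3, 0, 5, 0, 1, 2, 0, 1, 1, 0, 0, 2, 0, 1]),
  (5, [0, 1, 0, 0, 3, 0, 0, 0, 3, 3, 0, 1, 0, 1, 4, 1, 0, 1, 1, 0, 2, 1, 2, 0, 1], [0, 1, 0, 0, 0, 1, 0, 1, 0, 0, 0, 0, 0, 1, 0, 0, 0, 0, 0, 1],
   [1, 0, 0, 3, 0, 0, 3, 3, 1, 0, 1, 4, 0, 1, 1, 0, 1, 2, 0, 1]),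
  (5, [0, 0, 0, 1, 1, 0, 0, 1, 0, 3, 0, 0, 0, 3, 3, 1, 2, 0, 1, 0, 2, 4, 1, 0, 1], [0, 1, 0, 0, 0, 0, 0, 1, 0, 0, 1, 1, 0, 0, 0, 0, 0, 0, 1, 0, 0, 0, 0, 0, 1],
   [0, 0, 0, 1, 1, 0, 1, 0, 0, 3, 0, 0, 0, 3, 3, 1, 0, 1, 1, 0, 2, 1, 2, 0, 1]),
  (5, [0, 0, 0, 1, 1, 0, 0, 0, 2, 2, 1, 1, 0, 0, 3, 1, 0, 2, 1, 0, 3, 1, 4, 0, 1], [1, 0, 0, 0, 0, 0, 0, 1, 0, 0, 1, 1, 0, 0, 0, 0, 0, 0, 1, 0, 0, 0, 0, 0, 1],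
   [0, 0, 0, 1, 1, 0, 0, 0, 2, 2, 0, 0, 1, 0, 3, 1, 2, 0, 1, 0, 2, 4, 1, 0, 1]),
  (5, [0, 0, 0, 1, 1, 0, 0, 0, 1, 1, 1, 2, 0, 0, 3, 0, 1, 2, 1, 0, 1, 4, 4, 0, 1], [0, 1, 0, 0, 0, 1, 1, 0, 0, 0, 0, 0, 1, 0, 0, 0, 0, 0, 1, 0, 0, 0, 0, 0, 1],
   [0, 0, 0, 1, 1, 0, 0, 0, 1, 1, 1, 1, 0, 0, 3, 1, 0, 2, 1, 0, 3, 1, 4, 0, 1]),
  (4, [0, 0, 1, 1, 3, 0, 0, 3, 1, 2, 1, 0, 5, 4, 0, 1], [1, 0, 0, 0, 1, 0, 0, 0, 0, 1, 0, 0, 0, 0, 1, 0, 0, 0, 0, 1],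
   [0, 0, 0, 1, 1, 1, 2, 0, 0, 3, 0, 1, 2, 1, 0, 1, 4, 4, 0, 1]),
  (5, [0, 0, 0, 1, 1, 0, 0, 0, 1, 1, 3, 0, 0, 0, 3, 0, 1, 2, 1, 0, 1, 4, 4, 0, 1], [0, 0, 0, 1, 1, 3, 0, 0, 0, 3, 0, 1, 2, 1, 0, 1, 4, 4, 0, 1],
   [1, 0, 0, 0, 1, 0, 0, 0, 0, 1, 0, 0, 0, 0, 1, 0, 0, 0, 0, 1]),
  (5, [0, 0, 3, 0, 3, 0, 0, 3, 1, 4, 0, 0, 0, 1, 1, 1, 1, 0, 1, 0, 0, 4, 1, 0, 1], [0, 0, 0, 1, 1, 0, 0, 0, 1, 1, 0, 0, 3, 0, 3, 1, 1, 0, 1, 0, 0, 4, 1, 0, 1],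
   [0, 0, 1, 0, 0, 0, 1, 1, 0, 0, 1, 0, 0, 0, 0, 0, 0, 0, 1, 0, 0, 0, 0, 0, 1]),
  (5, [0, 0, 0, 0, 3, 0, 0, 4, 0, 1, 0, 1, 0, 1, 3, 1, 0, 1, 1, 0, 0, 1, 4, 1, 1], [0, 0, 0, 0, 3, 0, 1, 0, 1, 3, 0, 1, 0, 1, 0, 1, 0, 1, 1, 0, 0, 0, 4, 0, 1],
   [1, 0, 0, 0, 0, 0, 0, 0, 0, 1, 0, 1, 0, 0, 0, 0, 0, 0, 1, 0, 0, 0, 1, 0, 1]),
  (5, [0, 0, 1, 1, 0, 0, 0, 4, 0, 1, 1, 1, 0, 0, 3, 0, 0, 1, 1, 3, 1, 1, 4, 0, 1], [0, 0, 0, 0, 3, 0, 0, 4, 0, 1, 1, 1, 0, 0, 3, 0, 0, 1, 1, 0, 1, 1, 4, 0, 1],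
   [0, 0, 0, 1, 0, 0, 1, 0, 0, 0, 0, 0, 1, 0, 0, 1, 0, 0, 1, 0, 0, 0, 0, 0, 1]),
  (4, [0, 5, 1, 1, 1, 0, 0, 3, 0, 1, 1, 3, 1, 4, 0, 1], [0, 1, 1, 0, 0, 4, 0, 1, 1, 0, 0, 3, 0, 1, 1, 3, 1, 4, 0, 1],
   [1, 1, 0, 0, 0, 0, 0, 1, 0, 0, 0, 0, 0, 1, 0, 0, 0, 0, 0, 1]),
  (5, [0, 0, 0, 0, 1, 0, 0, 1, 0, 3, 1, 5, 0, 1, 1, 1, 1, 0, 1, 2, 0, 4, 1, 0, 1], [0, 0, 1, 0, 0, 0, 1, 0, 0, 0, 1, 0, 0, 1, 0, 0, 0, 0, 0, 1],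
   [0, 0, 0, 1, 1, 0, 0, 3, 0, 5, 1, 1, 0, 1, 1, 2, 1, 4, 0, 1]),
  (5, [0, 0, 0, 0, 1, 0, 0, 1, 0, 3, 2, 5, 0, 1, 1, 2, 1, 0, 1, 1, 0, 4, 1, 0, 1], [1, 0, 0, 0, 0, 0, 1, 0, 0, 0, 0, 0, 1, 0, 0, 1, 0, 0, 1, 0, 0, 0, 0, 0, 1],
   [0, 0, 0, 0, 1, 0, 0, 1, 0, 3, 1, 5, 0, 1, 1, 1, 1, 0, 1, 1, 0, 4, 1, 0, 1]),
  (5, [0, 0, 0, 0, 1, 0, 0, 4, 0, 0, 0, 1, 0, 1, 3, 2, 0, 1, 1, 1, 0, 1, 4, 1, 1], [1, 0, 0, 0, 0, 0, 0, 1, 0, 0, 0, 1, 0, 1, 0, 0, 0, 0, 1, 0, 0, 0, 0, 0, 1],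
   [0, 0, 0, 0, 1, 0, 4, 0, 0, 0, 0, 0, 1, 0, 3, 2, 1, 0, 1, 1, 0, 4, 1, 0, 1]),
  (5, [0, 0, 1, 0, 1, 0, 0, 4, 1, 3, 0, 4, 0, 0, 0, 2, 1, 1, 1, 1, 0, 0, 2, 1, 1], [1, 0, 0, 0, 0, 0, 0, 1, 0, 0, 0, 1, 0, 0, 0, 0, 0, 0, 1, 0, 0, 0, 1, 0, 1],
   [0, 0, 0, 0, 1, 0, 1, 0, 1, 3, 0, 0, 4, 0, 0, 2, 0, 1, 1, 1, 0, 1, 0, 1, 1]),
  (5, [0, 1, 0, 0, 1, 0, 0, 4, 0, 0, 0, 3, 0, 1, 3, 2, 0, 5, 1, 1, 0, 1, 0, 1, 1], [0, 1, 0, 0, 1, 0, 3, 0, 1, 3, 0, 0, 4, 0, 0, 2, 0, 1, 1, 1, 0, 1, 0, 1, 1],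
   [1, 0, 0, 0, 0, 0, 0, 1, 0, 0, 0, 1, 0, 0, 0, 0, 0, 1, 1, 0, 0, 0, 0, 0, 1]),
  (5, [0, 0, 0, 1, 0, 0, 0, 0, 1, 1, 0, 0, 0, 3, 1, 0, 0, 4, 1, 1, 2, 1, 5, 0, 1], [0, 0, 0, 1, 0, 0, 0, 4, 0, 0, 0, 0, 0, 3, 1, 2, 1, 5, 0, 1, 0, 0, 0, 1, 1],
   [1, 0, 0, 0, 0, 0, 0, 0, 0, 1, 0, 0, 1, 0, 0, 0, 1, 0, 0, 1, 0, 0, 0, 1, 0]),
  (5, [0, 0, 0, 0, 1, 0, 0, 0, 1, 2, 0, 0, 0, 1, 3, 1, 1, 5, 1, 0, 0, 0, 4, 1, 1], [0, 0, 0, 0, 1, 0, 0, 0, 1, 1, 0, 0, 0, 1, 3, 0, 0, 4, 1, 1, 1, 1, 5, 1, 0],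
   [1, 0, 0, 0, 0, 1, 1, 0, 0, 0, 0, 0, 1, 0, 0, 0, 0, 0, 0, 1, 0, 0, 0, 1, 0]),
  (4, [0, 0, 1, 3, 0, 0, 1, 3, 1, 5, 1, 0, 0, 4, 1, 1], [0, 0, 0, 1, 0, 0, 1, 2, 0, 0, 1, 3, 1, 5, 1, 0, 0, 4, 1, 1],
   [1, 1, 0, 0, 0, 0, 0, 1, 0, 0, 0, 0, 0, 1, 0, 0, 0, 0, 0, 1]),
  (3, [0, 3, 1, 4, 1, 1, 6, 0, 1], [1, 0, 0, 1, 0, 0, 0, 0, 1, 0, 1, 0],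
   [0, 0, 1, 3, 0, 4, 1, 1, 1, 5, 1, 0]),
  (4, [0, 0, 3, 1, 0, 0, 3, 1, 2, 2, 1, 1, 3, 3, 0, 1], [0, 0, 3, 1, 2, 2, 1, 1, 3, 3, 0, 1],
   [1, 0, 0, 1, 0, 0, 0, 1, 0, 0, 0, 1]),
  (3, [0, 2, 6, 3, 1, 0, 2, 1, 1], [0, 1, 3, 0, 1, 3, 2, 1, 1, 3, 1, 0],
   [1, 1, 0, 0, 0, 0, 0, 1, 0, 0, 1, 0]),
  (4, [0, 2, 1, 1, 1, 0, 2, 5, 0, 3, 1, 0, 0, 2, 1, 1], [1, 0, 2, 5, 0, 3, 1, 0, 0, 2, 1, 1],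
   [0, 0, 1, 1, 0, 0, 0, 1, 0, 0, 0, 1]),
  (4, [0, 4, 2, 2, 1, 0, 2, 4, 0, 3, 1, 0, 0, 2, 1, 1], [0, 2, 1, 1, 1, 0, 2, 4, 0, 3, 1, 0, 0, 2, 1, 1],
   [1, 0, 0, 1, 0, 1, 0, 0, 0, 0, 1, 0, 0, 0, 0, 1]),
  (4, [0, 1, 1, 2, 1, 0, 3, 4, 0, 3, 1, 0, 0, 2, 1, 1], [1, 0, 1, 0, 0, 1, 0, 0, 0, 0, 1, 0, 0, 0, 0, 1],
   [0, 1, 1, 2, 1, 0, 2, 4, 0, 3, 1, 0, 0, 2, 1, 1]),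
  (5, [0, 1, 1, 0, 2, 0, 0, 3, 1, 0, 1, 3, 0, 0, 4, 0, 0, 3, 1, 0, 0, 1, 2, 0, 1], [0, 1, 1, 0, 2, 1, 3, 0, 0, 4, 0, 0, 3, 1, 0, 0, 1, 2, 0, 1],
   [1, 0, 0, 0, 0, 0, 1, 0, 0, 1, 0, 0, 0, 0, 1, 0, 0, 0, 0, 1]),
  (5, [0, 1, 1, 0, 1, 0, 0, 2, 0, 1, 1, 1, 0, 0, 3, 0, 0, 3, 1, 0, 0, 0, 5, 1, 1], [0, 1, 1, 0, 1, 0, 0, 3, 1, 0, 1, 1, 0, 0, 3, 0, 0, 3, 1, 0, 0, 0, 2, 0, 1],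
   [1, 0, 0, 0, 0, 0, 0, 0, 0, 1, 0, 0, 1, 0, 0, 0, 0, 0, 1, 0, 0, 1, 0, 0, 1]),
  (5, [0, 1, 1, 0, 1, 0, 0, 2, 0, 1, 1, 1, 0, 0, 3, 1, 1, 2, 1, 3, 0, 0, 4, 1, 1], [0, 1, 1, 0, 1, 0, 0, 2, 0, 1, 1, 1, 0, 0, 3, 0, 0, 2, 1, 0, 0, 0, 4, 1, 1],
   [1, 0, 0, 0, 0, 0, 1, 0, 0, 0, 0, 0, 1, 0, 0, 0, 0, 1, 1, 0, 0, 0, 0, 0, 1]),
  (5, [0, 0, 2, 0, 1, 1, 0, 1, 0, 1, 1, 1, 0, 0, 3, 0, 2, 1, 1, 2, 0, 1, 4, 1, 1], [0, 1, 0, 0, 0, 1, 0, 0, 0, 0, 0, 0, 1, 0, 0, 0, 1, 0, 1, 0, 0, 0, 0, 0, 1],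
   [0, 0, 2, 0, 1, 0, 1, 1, 0, 1, 1, 1, 0, 0, 3, 1, 0, 1, 1, 2, 0, 0, 4, 1, 1]),
  (5, [0, 1, 2, 0, 0, 0, 0, 4, 1, 1, 1, 2, 0, 0, 1, 0, 0, 1, 1, 2, 1, 1, 5, 1, 1], [0, 1, 2, 0, 0, 1, 1, 1, 0, 0, 1, 2, 0, 0, 1, 0, 0, 1, 1, 2, 0, 0, 4, 1, 1],
   [1, 0, 0, 0, 0, 0, 0, 0, 0, 1, 0, 0, 1, 0, 0, 0, 0, 0, 1, 0, 0, 1, 0, 0, 1]),
  (5, [0, 1, 2, 0, 0, 0, 0, 3, 1, 1, 1, 2, 0, 0, 1, 1, 2, 0, 1, 3, 1, 1, 4, 1, 1], [0, 1, 2, 0, 0, 0, 0, 3, 1, 1, 1, 2, 0, 0, 1, 0, 0, 0, 1, 2, 1, 1, 4, 1, 1],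
   [1, 0, 0, 0, 0, 0, 1, 0, 0, 0, 0, 0, 1, 0, 0, 0, 0, 1, 1, 0, 0, 0, 0, 0, 1]),
  (5, [0, 1, 4, 1, 1, 1, 0, 3, 1, 0, 0, 2, 0, 0, 1, 2, 2, 0, 1, 1, 0, 2, 6, 1, 1], [0, 1, 2, 0, 0, 1, 0, 3, 1, 0, 0, 2, 0, 0, 1, 2, 2, 0, 1, 1, 0, 1, 4, 1, 1],
   [0, 0, 0, 0, 1, 0, 1, 0, 0, 0, 0, 0, 1, 0, 0, 0, 0, 0, 1, 0, 1, 0, 0, 0, 1]),
  (5, [0, 0, 1, 3, 1, 0, 0, 0, 6, 1, 1, 1, 0, 5, 1, 2, 1, 0, 1, 0, 2, 1, 2, 1, 1], [0, 0, 1, 0, 0, 1, 0, 0, 0, 0, 0, 0, 0, 1, 0, 0, 0, 0, 0, 1, 0, 1, 0, 1, 0],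
   [1, 0, 3, 1, 0, 0, 0, 6, 1, 0, 0, 1, 4, 1, 1, 0, 2, 0, 0, 1, 2, 2, 0, 1, 1]),
  (5, [0, 1, 1, 1, 4, 0, 0, 0, 1, 5, 1, 0, 0, 1, 2, 2, 2, 4, 1, 1, 0, 1, 2, 0, 1], [1, 0, 0, 1, 2, 0, 0, 0, 1, 5, 0, 1, 1, 1, 4, 0, 1, 2, 0, 1, 2, 1, 2, 1, 0],
   [0, 0, 1, 0, 0, 0, 1, 0, 0, 0, 1, 0, 0, 0, 0, 0, 0, 0, 1, 1, 0, 0, 0, 1, 0]),
  (5, [0, 1, 0, 1, 2, 0, 0, 1, 1, 4, 0, 1, 0, 2, 7, 2, 2, 2, 1, 1, 1, 0, 1, 0, 1], [0, 0, 1, 1, 4, 0, 0, 0, 1, 5, 0, 1, 0, 1, 2, 2, 2, 2, 1, 1, 1, 0, 1, 0, 1],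
   [0, 0, 1, 0, 0, 1, 0, 0, 0, 0, 0, 1, 1, 0, 0, 0, 0, 0, 1, 0, 0, 0, 0, 0, 1]),
  (5, [0, 1, 0, 1, 1, 0, 0, 1, 1, 3, 0, 1, 0, 2, 5, 3, 2, 3, 1, 1, 1, 0, 1, 0, 1], [0, 1, 0, 1, 1, 0, 0, 1, 1, 3, 0, 1, 0, 2, 5, 2, 2, 2, 1, 0, 1, 0, 1, 0, 1],
   [1, 0, 0, 0, 0, 0, 1, 0, 0, 0, 0, 0, 1, 0, 0, 0, 0, 0, 1, 1, 0, 0, 0, 0, 1]),
  (5, [0, 1, 0, 0, 1, 0, 0, 1, 2, 1, 0, 1, 0, 3, 2, 1, 0, 1, 1, 0, 4, 2, 4, 1, 1], [0, 1, 0, 0, 1, 0, 0, 1, 2, 1, 0, 1, 0, 3, 2, 3, 2, 3, 0, 1, 1, 0, 1, 1, 0],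
   [1, 0, 0, 0, 0, 0, 1, 0, 0, 0, 0, 0, 1, 0, 0, 0, 0, 0, 0, 1, 0, 0, 0, 1, 1]),
  (5, [0, 1, 1, 2, 1, 1, 0, 4, 1, 4, 1, 2, 0, 3, 2, 0, 0, 1, 1, 1, 1, 1, 0, 0, 1], [0, 0, 0, 0, 1, 1, 0, 0, 0, 0, 0, 0, 1, 0, 0, 0, 0, 0, 1, 0, 0, 1, 0, 0, 1],
   [0, 0, 1, 2, 1, 4, 1, 4, 1, 0, 0, 1, 0, 3, 2, 1, 0, 1, 1, 0, 0, 1, 0, 0, 1]),
  (5, [0, 1, 1, 2, 0, 1, 0, 4, 1, 0, 2, 3, 0, 3, 3, 0, 0, 1, 1, 0, 1, 1, 0, 0, 1], [0, 1, 1, 2, 0, 1, 0, 4, 1, 0, 1, 2, 0, 3, 2, 0, 0, 1, 1, 0, 1, 1, 0, 0, 1],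
   [1, 0, 0, 0, 0, 0, 1, 0, 0, 0, 0, 0, 1, 0, 1, 0, 0, 0, 1, 0, 0, 0, 0, 0, 1]),
  (5, [0, 1, 0, 1, 0, 1, 0, 4, 2, 0, 2, 3, 0, 5, 3, 0, 0, 1, 1, 0, 1, 1, 0, 1, 1], [1, 0, 0, 1, 0, 0, 1, 0, 0, 0, 0, 0, 1, 0, 0, 0, 0, 0, 1, 0, 0, 0, 0, 0, 1],
   [0, 1, 0, 1, 0, 1, 0, 4, 1, 0, 2, 3, 0, 3, 3, 0, 0, 1, 1, 0, 1, 1, 0, 0, 1]),
  (5, [0, 1, 0, 0, 0, 1, 0, 5, 3, 0, 2, 3, 0, 2, 3, 0, 0, 1, 1, 0, 1, 1, 0, 0, 1], [0, 1, 0, 0, 0, 1, 0, 4, 2, 0, 2, 3, 0, 2, 3, 0, 0, 1, 1, 0, 1, 1, 0, 0, 1],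
   [1, 0, 0, 0, 0, 0, 1, 0, 1, 0, 0, 0, 1, 0, 0, 0, 0, 0, 1, 0, 0, 0, 0, 0, 1]),
  (5, [0, 0, 1, 0, 0, 1, 0, 2, 2, 2, 1, 5, 0, 3, 5, 0, 1, 0, 1, 1, 1, 0, 1, 0, 1], [1, 0, 0, 0, 0, 0, 0, 1, 0, 0, 0, 1, 0, 0, 1, 0, 0, 0, 1, 0, 0, 0, 0, 0, 1],
   [0, 1, 0, 0, 0, 1, 2, 0, 2, 2, 1, 0, 5, 3, 0, 0, 0, 1, 1, 0, 1, 1, 0, 0, 1]),
  (5, [0, 0, 1, 0, 0, 1, 0, 2, 0, 2, 1, 5, 0, 2, 3, 1, 0, 1, 1, 0, 1, 1, 1, 1, 1], [0, 0, 1, 0, 0, 1, 0, 2, 0, 2, 1, 5, 0, 2, 3, 0, 1, 0, 0, 1, 1, 0, 1, 1, 0],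
   [1, 0, 0, 0, 0, 0, 1, 0, 0, 0, 0, 0, 1, 0, 0, 0, 0, 0, 0, 1, 0, 0, 0, 1, 1]),
  (5, [0, 0, 1, 0, 0, 1, 0, 1, 0, 2, 6, 5, 0, 2, 3, 1, 0, 1, 1, 0, 2, 1, 1, 1, 1], [1, 0, 0, 0, 0, 1, 1, 0, 0, 0, 0, 0, 1, 0, 0, 0, 0, 0, 1, 0, 0, 0, 0, 0, 1],
   [0, 0, 1, 0, 0, 1, 0, 1, 0, 2, 1, 5, 0, 2, 3, 1, 0, 1, 1, 0, 1, 1, 1, 1, 1]),
  (5, [0, 0, 1, 0, 0, 1, 0, 1, 0, 2, 4, 5, 0, 2, 3, 0, 0, 2, 1, 0, 1, 1, 1, 1, 1], [0, 0, 1, 0, 0, 1, 0, 1, 0, 2, 4, 5, 0, 2, 3, 0, 0, 1, 1, 0, 1, 1, 1, 1, 1],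
   [1, 0, 0, 0, 0, 0, 1, 0, 0, 0, 0, 0, 1, 0, 0, 1, 0, 0, 1, 0, 0, 0, 0, 0, 1]),
  (5, [0, 0, 1, 0, 0, 1, 0, 0, 0, 2, 9, 5, 0, 2, 3, 0, 0, 2, 1, 0, 2, 1, 1, 1, 1], [1, 0, 0, 0, 0, 1, 1, 0, 0, 0, 0, 0, 1, 0, 0, 0, 0, 0, 1, 0, 0, 0, 0, 0, 1],
   [0, 0, 1, 0, 0, 1, 0, 0, 0, 2, 4, 5, 0, 2, 3, 0, 0, 2, 1, 0, 1, 1, 1, 1, 1]),
  (5, [0, 5, 8, 2, 1, 0, 0, 1, 0, 2, 1, 1, 0, 0, 0, 2, 2, 0, 1, 0, 1, 2, 2, 1, 1], [0, 0, 1, 0, 0, 0, 1, 0, 0, 0, 1, 1, 0, 0, 0, 0, 0, 0, 1, 0, 0, 0, 0, 0, 1],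
   [8, 5, 0, 2, 1, 1, 0, 0, 0, 2, 0, 0, 1, 0, 0, 0, 0, 2, 1, 0, 2, 1, 1, 1, 1]),
  (5, [0, 3, 8, 2, 1, 0, 0, 1, 0, 2, 1, 1, 0, 0, 0, 2, 1, 1, 1, 2, 1, 1, 2, 1, 1], [0, 3, 8, 2, 1, 0, 0, 1, 0, 2, 1, 1, 0, 0, 0, 2, 1, 0, 1, 0, 1, 1, 2, 1, 1],
   [1, 0, 0, 0, 0, 0, 1, 0, 0, 0, 0, 0, 1, 0, 0, 0, 1, 0, 1, 0, 0, 0, 0, 0, 1]),
  (5, [0, 3, 6, 2, 1, 0, 0, 1, 0, 2, 1, 1, 0, 0, 0, 3, 2, 0, 1, 2, 1, 1, 1, 1, 1], [0, 3, 6, 2, 1, 0, 0, 1, 0, 2, 1, 1, 0, 0, 0, 2, 1, 0, 1, 2, 1, 1, 1, 1, 1],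
   [1, 0, 0, 0, 0, 0, 1, 0, 0, 0, 0, 0, 1, 0, 0, 0, 0, 1, 1, 0, 0, 0, 0, 0, 1]),
  (5, [0, 3, 7, 2, 1, 0, 0, 3, 0, 2, 1, 1, 0, 0, 0, 3, 2, 2, 1, 2, 0, 0, 2, 1, 1], [1, 0, 0, 0, 0, 0, 1, 0, 0, 0, 0, 0, 1, 0, 0, 0, 0, 0, 1, 0, 0, 0, 1, 0, 1],
   [0, 3, 6, 2, 1, 0, 0, 1, 0, 2, 1, 1, 0, 0, 0, 3, 2, 0, 1, 2, 0, 0, 1, 1, 1]),
  (5, [0, 3, 5, 2, 1, 0, 0, 3, 0, 2, 1, 1, 0, 0, 0, 4, 3, 1, 1, 2, 0, 0, 1, 1, 1], [0, 3, 5, 2, 1, 0, 0, 3, 0, 2, 1, 1, 0, 0, 0, 3, 2, 1, 1, 2, 0, 0, 1, 1, 1],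
   [1, 0, 0, 0, 0, 0, 1, 0, 0, 0, 0, 0, 1, 0, 0, 0, 0, 1, 1, 0, 0, 0, 0, 0, 1]),
  (5, [0, 1, 1, 0, 0, 3, 0, 0, 2, 0, 3, 3, 0, 1, 2, 0, 0, 0, 1, 1, 0, 4, 5, 2, 1], [3, 3, 0, 1, 2, 3, 0, 0, 2, 0, 0, 1, 1, 0, 0, 0, 3, 4, 2, 1, 0, 0, 0, 1, 1],
   [0, 0, 1, 0, 0, 0, 1, 0, 0, 0, 1, 0, 0, 0, 0, 0, 0, 0, 0, 1, 0, 0, 1, 1, 0]),
  (5, [0, 0, 5, 4, 1, 0, 0, 1, 1, 0, 2, 3, 0, 3, 3, 0, 3, 0, 0, 2, 1, 0, 0, 0, 2], [0, 1, 0, 0, 0, 0, 0, 0, 1, 0, 0, 0, 1, 0, 0, 0, 0, 0, 0, 1, 1, 0, 0, 0, 1],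
   [0, 4, 5, 1, 0, 0, 1, 1, 0, 0, 3, 3, 0, 1, 2, 3, 0, 0, 2, 0, 0, 0, 0, 1, 1]),
  (5, [0, 0, 1, 2, 0, 0, 0, 5, 9, 1, 0, 2, 0, 3, 1, 3, 0, 0, 0, 2, 0, 1, 0, 0, 2], [0, 1, 0, 0, 0, 1, 0, 0, 0, 0, 0, 0, 1, 1, 0, 0, 0, 0, 1, 0, 0, 0, 0, 0, 1],
   [0, 0, 1, 1, 0, 0, 0, 5, 4, 1, 2, 0, 0, 3, 1, 0, 3, 0, 0, 2, 1, 0, 0, 0, 2]),
  (5, [0, 4, 0, 7, 1, 2, 0, 2, 3, 1, 0, 1, 0, 2, 0, 0, 0, 3, 0, 2, 1, 0, 1, 0, 2], [0, 0, 1, 0, 0, 1, 0, 1, 0, 0, 0, 1, 0, 0, 0, 0, 0, 0, 1, 0, 0, 0, 0, 0, 1],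
   [0, 0, 4, 7, 1, 0, 2, 0, 3, 1, 0, 0, 1, 2, 0, 3, 0, 0, 0, 2, 0, 1, 0, 0, 2]),
  (5, [0, 3, 0, 5, 1, 2, 0, 4, 3, 1, 0, 1, 0, 2, 0, 0, 0, 3, 0, 2, 1, 0, 2, 0, 2], [1, 0, 1, 0, 0, 0, 1, 0, 0, 0, 0, 0, 1, 0, 0, 0, 0, 0, 1, 0, 0, 0, 0, 0, 1],
   [0, 3, 0, 5, 1, 2, 0, 2, 3, 1, 0, 1, 0, 2, 0, 0, 0, 3, 0, 2, 1, 0, 1, 0, 2]),
  (5, [0, 2, 3, 0, 1, 2, 0, 3, 6, 1, 0, 0, 0, 3, 2, 0, 1, 2, 0, 0, 1, 0, 0, 3, 2], [1, 0, 0, 1, 0, 0, 1, 0, 0, 0, 0, 0, 0, 1, 0, 0, 0, 1, 0, 0, 0, 0, 0, 0, 1],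
   [0, 2, 0, 3, 1, 2, 0, 4, 3, 1, 0, 0, 3, 0, 2, 0, 1, 0, 2, 0, 1, 0, 2, 0, 2]),
  (5, [0, 0, 1, 0, 0, 0, 0, 0, 1, 2, 1, 0, 0, 2, 4, 1, 6, 2, 0, 4, 2, 3, 0, 0, 2], [0, 0, 1, 0, 0, 0, 0, 0, 1, 0, 0, 0, 0, 0, 1, 0, 1, 0, 0, 0, 1, 0, 0, 0, 1],
   [1, 0, 0, 0, 0, 0, 1, 2, 0, 0, 0, 2, 3, 0, 1, 2, 0, 3, 6, 1, 0, 0, 0, 3, 2]),
  (5, [0, 2, 1, 8, 4, 1, 0, 1, 0, 2, 0, 1, 0, 1, 0, 1, 0, 0, 0, 2, 0, 0, 2, 3, 2], [0, 0, 1, 0, 0, 0, 0, 0, 1, 0, 0, 1, 0, 1, 0, 1, 0, 0, 0, 0, 0, 0, 0, 0, 1],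
   [1, 6, 2, 0, 4, 1, 0, 0, 1, 2, 0, 0, 1, 0, 0, 0, 0, 0, 1, 2, 2, 3, 0, 0, 2]),
  (5, [0, 2, 1, 10, 4, 0, 0, 1, 0, 0, 0, 1, 0, 2, 0, 1, 0, 0, 0, 2, 0, 0, 2, 3, 2], [1, 0, 0, 0, 0, 0, 1, 0, 1, 0, 0, 0, 1, 0, 0, 0, 0, 0, 1, 0, 0, 0, 0, 0, 1],
   [0, 2, 1, 8, 4, 0, 0, 1, 0, 0, 0, 1, 0, 1, 0, 1, 0, 0, 0, 2, 0, 0, 2, 3, 2]),
  (5, [0, 1, 1, 8, 4, 0, 0, 1, 0, 0, 0, 1, 0, 2, 0, 1, 0, 1, 0, 2, 0, 0, 2, 3, 2], [1, 0, 1, 0, 0, 0, 1, 0, 0, 0, 0, 0, 1, 0, 0, 0, 0, 0, 1, 0, 0, 0, 0, 0, 1],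
   [0, 1, 1, 8, 4, 0, 0, 1, 0, 0, 0, 1, 0, 2, 0, 1, 0, 0, 0, 2, 0, 0, 2, 3, 2]),
  (5, [0, 0, 1, 0, 0, 0, 0, 1, 6, 4, 1, 0, 0, 2, 0, 0, 1, 2, 0, 2, 0, 0, 2, 3, 2], [0, 1, 1, 0, 0, 1, 0, 0, 0, 0, 0, 0, 1, 0, 0, 0, 0, 0, 1, 0, 0, 0, 0, 0, 1],
   [0, 0, 1, 0, 0, 0, 0, 1, 6, 4, 0, 1, 0, 2, 0, 1, 0, 1, 0, 2, 0, 0, 2, 3, 2]),
  (5, [0, 1, 4, 6, 4, 0, 0, 1, 2, 0, 0, 1, 0, 0, 0, 1, 2, 2, 0, 2, 0, 1, 2, 3, 2], [0, 0, 1, 0, 0, 1, 0, 0, 0, 0, 0, 1, 0, 0, 0, 0, 0, 0, 1, 0, 0, 0, 1, 0, 1],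
   [0, 0, 1, 6, 4, 1, 0, 0, 2, 0, 0, 0, 1, 0, 0, 0, 1, 2, 0, 2, 0, 0, 1, 3, 2]),
  (5, [0, 0, 2, 3, 2, 0, 0, 1, 2, 0, 0, 1, 0, 0, 0, 1, 2, 2, 0, 3, 0, 1, 2, 3, 2], [1, 0, 0, 0, 1, 0, 1, 0, 0, 0, 0, 0, 1, 0, 0, 0, 0, 0, 1, 0, 0, 0, 0, 0, 1],
   [0, 0, 2, 3, 2, 0, 0, 1, 2, 0, 0, 1, 0, 0, 0, 1, 2, 2, 0, 2, 0, 1, 2, 3, 2]),
  (5, [0, 0, 1, 0, 0, 0, 0, 1, 0, 0, 1, 0, 0, 2, 0, 2, 3, 2, 0, 4, 2, 2, 0, 3, 2], [0, 0, 0, 0, 1, 0, 0, 1, 0, 0, 1, 0, 0, 0, 0, 0, 0, 0, 1, 0, 0, 1, 0, 0, 1],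
   [0, 1, 0, 0, 0, 0, 1, 0, 0, 0, 0, 0, 1, 2, 0, 1, 2, 2, 0, 3, 0, 0, 2, 3, 2]),
  (4, [0, 1, 0, 0, 1, 0, 2, 0, 5, 2, 0, 4, 4, 0, 3, 2], [1, 0, 0, 0, 1, 0, 0, 0, 0, 1, 0, 0, 0, 0, 1, 0, 0, 0, 0, 1],
   [0, 0, 1, 0, 0, 1, 0, 0, 2, 0, 2, 3, 2, 0, 4, 2, 2, 0, 3, 2]),
  (4, [0, 1, 0, 0, 1, 0, 2, 0, 1, 2, 0, 4, 2, 1, 3, 2], [0, 1, 0, 0, 1, 0, 2, 0, 1, 2, 0, 4, 2, 0, 3, 2],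
   [1, 0, 0, 0, 0, 1, 0, 0, 0, 0, 1, 0, 1, 0, 0, 1]),
  (5, [0, 0, 0, 1, 0, 0, 0, 0, 1, 2, 1, 0, 0, 1, 2, 1, 2, 2, 0, 0, 2, 3, 3, 1, 2], [1, 0, 0, 0, 0, 0, 0, 0, 1, 0, 0, 1, 1, 0, 0, 0, 0, 0, 0, 1],
   [0, 1, 0, 0, 0, 1, 0, 2, 1, 1, 0, 2, 1, 0, 2, 0, 2, 1, 3, 2]),
  (5, [0, 1, 0, 0, 0, 1, 0, 2, 0, 2, 0, 1, 0, 2, 2, 1, 0, 3, 0, 3, 1, 1, 0, 2, 2], [1, 0, 0, 0, 0, 0, 0, 1, 0, 0, 0, 0, 0, 0, 1, 0, 1, 0, 0, 0, 0, 0, 0, 1, 1],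
   [0, 0, 0, 1, 0, 1, 2, 2, 0, 0, 0, 0, 0, 1, 2, 1, 3, 3, 0, 0, 1, 0, 0, 1, 2]),
  (5, [0, 0, 0, 1, 0, 0, 0, 2, 3, 2, 0, 1, 0, 0, 1, 1, 2, 0, 0, 2, 1, 0, 2, 3, 2], [1, 0, 0, 0, 0, 0, 0, 0, 1, 0, 0, 1, 0, 0, 0, 0, 0, 1, 1, 0, 0, 0, 0, 0, 1],
   [0, 1, 0, 0, 0, 0, 1, 0, 2, 2, 0, 0, 1, 0, 1, 1, 0, 2, 0, 2, 1, 1, 0, 2, 2]),
  (5, [0, 0, 0, 1, 0, 1, 0, 0, 0, 0, 0, 1, 0, 0, 2, 1, 2, 0, 0, 4, 0, 2, 2, 3, 2], [1, 0, 0, 0, 0, 0, 0, 0, 0, 1, 0, 0, 1, 0, 0, 0, 0, 0, 1, 0, 0, 1, 0, 0, 1],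
   [0, 0, 0, 1, 0, 1, 0, 0, 0, 0, 0, 1, 0, 0, 1, 1, 2, 0, 0, 2, 0, 0, 2, 3, 2]),
  (5, [0, 1, 1, 0, 2, 0, 0, 0, 1, 0, 0, 1, 0, 0, 0, 0, 1, 2, 0, 4, 2, 0, 0, 3, 2], [0, 0, 0, 1, 0, 0, 1, 0, 0, 0, 0, 0, 1, 0, 2, 0, 1, 2, 0, 4, 2, 0, 0, 3, 2],
   [0, 1, 1, 0, 0, 1, 0, 0, 0, 0, 0, 1, 0, 0, 0, 0, 0, 0, 1, 0, 0, 0, 0, 0, 1]),
  (5, [0, 1, 0, 0, 0, 0, 0, 1, 1, 0, 1, 0, 0, 0, 2, 1, 1, 0, 0, 2, 0, 0, 3, 5, 2], [0, 0, 0, 1, 0, 0, 1, 0, 0, 0, 1, 0, 0, 0, 0, 0, 0, 1, 1, 0, 0, 0, 0, 0, 1],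
   [0, 1, 0, 0, 0, 0, 0, 0, 1, 0, 0, 0, 1, 0, 2, 0, 1, 1, 0, 2, 2, 0, 0, 3, 2]),
  (5, [0, 1, 0, 0, 0, 0, 0, 1, 2, 0, 0, 1, 0, 0, 0, 1, 0, 0, 0, 2, 0, 0, 5, 8, 2], [1, 0, 0, 0, 0, 0, 1, 0, 0, 0, 0, 0, 0, 1, 0, 0, 0, 1, 1, 0, 0, 0, 0, 0, 1],
   [0, 1, 0, 0, 0, 0, 0, 1, 1, 0, 0, 1, 0, 0, 0, 1, 0, 0, 0, 2, 0, 0, 3, 5, 2]),
  (4, [0, 1, 2, 0, 1, 0, 0, 0, 0, 1, 0, 2, 0, 5, 8, 2], [0, 1, 0, 0, 1, 0, 0, 0, 0, 1, 0, 0, 0, 0, 1, 0, 0, 0, 0, 1],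
   [0, 0, 1, 2, 0, 0, 1, 0, 0, 0, 1, 0, 0, 0, 2, 0, 0, 5, 8, 2]),
  (4, [0, 0, 1, 2, 0, 0, 4, 8, 1, 0, 0, 0, 0, 2, 1, 2], [1, 0, 0, 0, 0, 0, 1, 0, 0, 0, 0, 1, 0, 1, 0, 1],
   [0, 1, 2, 0, 0, 4, 8, 0, 1, 0, 0, 0, 0, 1, 0, 2]),
  (4, [0, 0, 1, 1, 0, 0, 4, 4, 0, 2, 1, 1, 1, 2, 1, 1], [0, 0, 1, 1, 0, 0, 4, 4, 1, 0, 0, 0, 0, 2, 1, 1],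
   [1, 0, 0, 0, 0, 1, 0, 0, 0, 0, 0, 1, 0, 0, 1, 1]),
  (3, [0, 0, 1, 0, 0, 4, 1, 4, 2], [0, 0, 1, 0, 0, 4, 0, 2, 1, 1, 2, 1],
   [1, 0, 0, 0, 0, 1, 0, 0, 0, 0, 1, 1]),
  (4, [0, 0, 0, 1, 0, 0, 0, 2, 0, 0, 0, 2, 1, 4, 4, 2], [1, 0, 0, 0, 0, 1, 1, 0, 0, 0, 0, 1],
   [0, 0, 1, 0, 0, 2, 0, 0, 2, 1, 4, 2]),
  (3, [0, 0, 1, 0, 0, 2, 1, 8, 2], [1, 0, 0, 0, 1, 0, 0, 1, 0, 0, 0, 1],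
   [0, 0, 0, 1, 0, 0, 0, 2, 1, 4, 4, 2]),
  (3, [0, 0, 3, 0, 0, 2, 1, 7, 2], [0, 0, 1, 0, 0, 2, 1, 7, 2],
   [1, 1, 0, 0, 1, 0, 0, 0, 1]),
  (3, [0, 0, 5, 0, 0, 2, 1, 6, 2], [0, 0, 3, 0, 0, 2, 1, 6, 2],
   [1, 1, 0, 0, 1, 0, 0, 0, 1]),
  (3, [0, 0, 7, 0, 0, 2, 1, 5, 2], [0, 0, 5, 0, 0, 2, 1, 5, 2],
   [1, 1, 0, 0, 1, 0, 0, 0, 1]),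
  (3, [0, 0, 9, 0, 0, 2, 1, 4, 2], [0, 0, 7, 0, 0, 2, 1, 4, 2],
   [1, 1, 0, 0, 1, 0, 0, 0, 1]),
  (3, [0, 0, 11, 0, 0, 2, 1, 3, 2], [0, 0, 9, 0, 0, 2, 1, 3, 2],
   [1, 1, 0, 0, 1, 0, 0, 0, 1]),
  (3, [0, 0, 13, 0, 0, 2, 1, 2, 2], [0, 0, 11, 0, 0, 2, 1, 2, 2],
   [1, 1, 0, 0, 1, 0, 0, 0, 1]),
  (3, [0, 0, 2, 0, 0, 15, 1, 1, 2], [0, 0, 13, 0, 0, 2, 1, 1, 2],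
   [0, 1, 0, 1, 1, 0, 0, 0, 1]),
  (2, [0, 17, 1, 2], [0, 2, 0, 15, 1, 2],
   [1, 1, 0, 0, 0, 1]),
  (2, [1, 1, 18, 1], [17, 0, 1, 1],
   [0, 1, 1, 1]),
  (2, [1, 18, 1, 1], [0, 1, 1, 0],
   [18, 1, 1, 1]),
  (2, [0, 1, 17, 2], [17, 1, 0, 1],
   [0, 1, 1, 1]),
  (2, [2, 17, 1, 0], [0, 1, 1, 0],
   [17, 2, 0, 1])]

theorem sp_1_9_2_1 : SSE !![1, 9; 2, 1] !![2, 17; 1, 0] :=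
  sse_of_chain_two ch_1_9_2_1 (by decide +kernel)

/-- A chain from `[1, 1; 1, 2]` to `[1, 1; 1, 2]`. -/
def ch_1_1_1_2 : List (ℕ × List ℕ × List ℕ × List ℕ) := [
]

theorem sp_1_1_1_2 : SSE !![1, 1; 1, 2] !![1, 1; 1, 2] :=
  sse_of_chain_two ch_1_1_1_2 (by decide +kernel)

/-- A chain from `[1, 2; 2, 2]` to `[3, 2; 1, 0]`. -/
def ch_1_2_2_2 : List (ℕ × List ℕ × List ℕ × List ℕ) := [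
  (2, [0, 1, 2, 3], [0, 1, 1, 1],
   [1, 0, 1, 2]),
  (2, [3, 2, 1, 0], [0, 1, 1, 0],
   [2, 3, 0, 1])]

theorem sp_1_2_2_2 : SSE !![1, 2; 2, 2] !![3, 2; 1, 0] :=
  sse_of_chain_two ch_1_2_2_2 (by decide +kernel)

/-- A chain from `[1, 2; 3, 2]` to `[3, 4; 1, 0]`. -/
def ch_1_2_3_2 : List (ℕ × List ℕ × List ℕ × List ℕ) := [
  (2, [0, 2, 2, 3], [0, 1, 1, 1],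
   [2, 0, 1, 2]),
  (3, [0, 0, 1, 0, 0, 1, 2, 2, 3], [1, 1, 0, 0, 0, 1],
   [0, 1, 0, 1, 2, 3]),
  (2, [0, 1, 4, 3], [1, 0, 1, 0, 0, 1],
   [0, 0, 1, 2, 2, 3]),
  (2, [3, 4, 1, 0], [0, 1, 1, 0],
   [4, 3, 0, 1])]

theorem sp_1_2_3_2 : SSE !![1, 2; 3, 2] !![3, 4; 1, 0] :=
  sse_of_chain_two ch_1_2_3_2 (by decide +kernel)

/-- A chain from `[1, 2; 4, 2]` to `[3, 6; 1, 0]`. -/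
def ch_1_2_4_2 : List (ℕ × List ℕ × List ℕ × List ℕ) := [
  (2, [0, 3, 2, 3], [0, 1, 1, 1],
   [3, 0, 1, 2]),
  (2, [0, 2, 3, 3], [0, 1, 1, 1],
   [2, 0, 0, 3]),
  (3, [0, 0, 1, 0, 0, 1, 3, 3, 3], [1, 1, 0, 0, 0, 1],
   [0, 1, 0, 1, 3, 3]),
  (2, [0, 1, 6, 3], [1, 0, 1, 0, 0, 1],
   [0, 0, 1, 3, 3, 3]),
  (2, [3, 6, 1, 0], [0, 1, 1, 0],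
   [6, 3, 0, 1])]

theorem sp_1_2_4_2 : SSE !![1, 2; 4, 2] !![3, 6; 1, 0] :=
  sse_of_chain_two ch_1_2_4_2 (by decide +kernel)

/-- A chain from `[1, 2; 5, 2]` to `[3, 8; 1, 0]`. -/
def ch_1_2_5_2 : List (ℕ × List ℕ × List ℕ × List ℕ) := [
  (2, [0, 4, 2, 3], [0, 1, 1, 1],
   [4, 0, 1, 2]),
  (3, [0, 0, 2, 0, 0, 2, 2, 2, 3], [1, 1, 0, 0, 0, 1],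
   [0, 2, 0, 2, 2, 3]),
  (2, [0, 2, 4, 3], [1, 0, 1, 0, 0, 1],
   [0, 0, 2, 2, 2, 3]),
  (3, [0, 0, 1, 0, 0, 1, 4, 4, 3], [1, 1, 0, 0, 0, 1],
   [0, 1, 0, 1, 4, 3]),
  (2, [0, 1, 8, 3], [1, 0, 1, 0, 0, 1],
   [0, 0, 1, 4, 4, 3]),
  (2, [3, 8, 1, 0], [0, 1, 1, 0],
   [8, 3, 0, 1])]

theorem sp_1_2_5_2 : SSE !![1, 2; 5, 2] !![3, 8; 1, 0] :=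
  sse_of_chain_two ch_1_2_5_2 (by decide +kernel)

/-- A chain from `[1, 2; 6, 2]` to `[3, 10; 1, 0]`. -/
def ch_1_2_6_2 : List (ℕ × List ℕ × List ℕ × List ℕ) := [
  (2, [0, 5, 2, 3], [0, 1, 1, 1],
   [5, 0, 1, 2]),
  (3, [0, 0, 2, 0, 0, 3, 2, 2, 3], [1, 1, 0, 0, 0, 1],
   [0, 2, 0, 3, 2, 3]),
  (3, [0, 0, 1, 0, 0, 2, 2, 4, 3], [0, 1, 0, 1, 1, 0, 0, 0, 1],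
   [0, 0, 1, 0, 0, 2, 2, 2, 3]),
  (3, [0, 0, 1, 0, 0, 1, 4, 6, 3], [0, 1, 0, 1, 1, 0, 0, 0, 1],
   [0, 0, 1, 0, 0, 1, 2, 4, 3]),
  (2, [0, 1, 10, 3], [1, 0, 1, 0, 0, 1],
   [0, 0, 1, 4, 6, 3]),
  (2, [3, 10, 1, 0], [0, 1, 1, 0],
   [10, 3, 0, 1])]

theorem sp_1_2_6_2 : SSE !![1, 2; 6, 2] !![3, 10; 1, 0] :=
  sse_of_chain_two ch_1_2_6_2 (by decide +kernel)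

/-- A chain from `[1, 2; 7, 2]` to `[3, 12; 1, 0]`. -/
def ch_1_2_7_2 : List (ℕ × List ℕ × List ℕ × List ℕ) := [
  (3, [0, 1, 2, 0, 1, 2, 6, 1, 2], [0, 1, 2, 6, 1, 2],
   [1, 0, 1, 0, 0, 1]),
  (3, [0, 1, 1, 6, 1, 1, 6, 2, 2], [0, 1, 1, 0, 1, 1, 6, 1, 1],
   [1, 0, 0, 0, 0, 1, 0, 1, 1]),
  (2, [0, 1, 12, 3], [0, 1, 6, 1, 6, 2],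
   [1, 0, 0, 0, 1, 1]),
  (2, [3, 12, 1, 0], [0, 1, 1, 0],
   [12, 3, 0, 1])]

theorem sp_1_2_7_2 : SSE !![1, 2; 7, 2] !![3, 12; 1, 0] :=
  sse_of_chain_two ch_1_2_7_2 (by decide +kernel)

/-- A chain from `[1, 3; 2, 2]` to `[3, 4; 1, 0]`. -/
def ch_1_3_2_2 : List (ℕ × List ℕ × List ℕ × List ℕ) := [
  (2, [0, 2, 2, 3], [2, 1, 0, 2],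
   [0, 1, 1, 1]),
  (3, [0, 0, 1, 0, 0, 1, 2, 2, 3], [1, 1, 0, 0, 0, 1],
   [0, 1, 0, 1, 2, 3]),
  (2, [0, 1, 4, 3], [1, 0, 1, 0, 0, 1],
   [0, 0, 1, 2, 2, 3]),
  (2, [3, 4, 1, 0], [0, 1, 1, 0],
   [4, 3, 0, 1])]

theorem sp_1_3_2_2 : SSE !![1, 3; 2, 2] !![3, 4; 1, 0] :=
  sse_of_chain_two ch_1_3_2_2 (by decide +kernel)

/-- A chain from `[1, 3; 3, 2]` to `[3, 7; 1, 0]`. -/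
def ch_1_3_3_2 : List (ℕ × List ℕ × List ℕ × List ℕ) := [
  (3, [0, 1, 3, 0, 1, 3, 1, 2, 2], [0, 1, 3, 1, 2, 2],
   [1, 0, 1, 0, 0, 1]),
  (3, [0, 2, 1, 1, 0, 2, 1, 2, 3], [0, 2, 1, 0, 2, 1, 1, 0, 2],
   [1, 0, 0, 0, 0, 1, 0, 1, 1]),
  (4, [0, 1, 0, 2, 1, 0, 1, 1, 0, 1, 0, 2, 0, 1, 2, 3], [1, 0, 1, 1, 0, 1, 0, 2, 0, 1, 2, 3],
   [0, 1, 0, 1, 0, 0, 0, 1, 0, 0, 0, 1]),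
  (4, [0, 1, 0, 1, 1, 0, 2, 0, 1, 0, 1, 2, 2, 0, 3, 2], [1, 0, 2, 0, 0, 1, 0, 1, 1, 0, 2, 0, 1, 0, 1, 2],
   [0, 1, 0, 0, 1, 0, 0, 0, 0, 0, 0, 1, 0, 0, 1, 1]),
  (4, [0, 1, 1, 0, 0, 0, 1, 2, 1, 0, 1, 3, 0, 1, 2, 2], [1, 0, 0, 1, 0, 1, 1, 0, 0, 0, 1, 2, 0, 1, 2, 2],
   [0, 1, 0, 0, 0, 0, 1, 0, 1, 0, 1, 0, 0, 0, 0, 1]),
  (4, [0, 1, 0, 2, 0, 0, 1, 3, 1, 1, 1, 3, 1, 2, 0, 2], [1, 1, 0, 0, 0, 1, 0, 2, 0, 0, 1, 3, 1, 2, 0, 2],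
   [0, 1, 0, 0, 0, 0, 1, 0, 1, 0, 1, 0, 0, 0, 0, 1]),
  (4, [0, 1, 0, 1, 1, 0, 0, 2, 1, 2, 1, 1, 1, 3, 1, 2], [0, 1, 0, 1, 0, 3, 1, 0, 1, 2, 1, 1, 1, 0, 0, 2],
   [1, 0, 0, 0, 0, 0, 0, 1, 0, 0, 1, 0, 0, 1, 0, 1]),
  (4, [0, 1, 0, 1, 1, 0, 0, 2, 0, 3, 1, 2, 0, 3, 1, 2], [0, 1, 0, 1, 1, 0, 0, 2, 0, 2, 1, 1, 0, 3, 1, 2],
   [1, 0, 0, 0, 0, 1, 0, 0, 1, 0, 1, 0, 0, 0, 0, 1]),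
  (3, [0, 1, 1, 1, 0, 2, 0, 3, 3], [1, 0, 0, 0, 1, 0, 0, 0, 1, 0, 0, 1],
   [0, 1, 0, 1, 1, 0, 0, 2, 0, 3, 1, 2]),
  (3, [0, 0, 1, 0, 0, 3, 1, 2, 3], [0, 0, 1, 1, 2, 0, 0, 0, 3],
   [1, 0, 0, 0, 0, 1, 0, 1, 1]),
  (3, [0, 0, 1, 0, 0, 2, 3, 2, 3], [1, 0, 0, 1, 1, 0, 0, 0, 1],
   [0, 0, 1, 0, 0, 2, 1, 2, 3]),
  (3, [0, 0, 1, 0, 0, 1, 2, 5, 3], [0, 1, 0, 1, 1, 0, 0, 0, 1],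
   [0, 0, 1, 0, 0, 1, 3, 2, 3]),
  (2, [0, 1, 7, 3], [1, 0, 1, 0, 0, 1],
   [0, 0, 1, 2, 5, 3]),
  (2, [3, 7, 1, 0], [0, 1, 1, 0],
   [7, 3, 0, 1])]

theorem sp_1_3_3_2 : SSE !![1, 3; 3, 2] !![3, 7; 1, 0] :=
  sse_of_chain_two ch_1_3_3_2 (by decide +kernel)

/-- A chain from `[1, 3; 4, 2]` to `[3, 10; 1, 0]`. -/
def ch_1_3_4_2 : List (ℕ × List ℕ × List ℕ × List ℕ) := [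
  (3, [1, 1, 2, 1, 1, 2, 3, 3, 1], [0, 0, 1, 1, 1, 0],
   [2, 1, 2, 1, 1, 3]),
  (2, [1, 6, 2, 2], [0, 1, 0, 1, 1, 0],
   [3, 3, 1, 1, 1, 2]),
  (2, [0, 2, 5, 3], [5, 1, 0, 2],
   [0, 1, 1, 1]),
  (3, [0, 0, 1, 0, 0, 1, 5, 5, 3], [1, 1, 0, 0, 0, 1],
   [0, 1, 0, 1, 5, 3]),
  (2, [0, 1, 10, 3], [1, 0, 1, 0, 0, 1],
   [0, 0, 1, 5, 5, 3]),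
  (2, [3, 10, 1, 0], [0, 1, 1, 0],
   [10, 3, 0, 1])]

theorem sp_1_3_4_2 : SSE !![1, 3; 4, 2] !![3, 10; 1, 0] :=
  sse_of_chain_two ch_1_3_4_2 (by decide +kernel)

/-- A chain from `[1, 3; 5, 2]` to `[3, 13; 1, 0]`. -/
def ch_1_3_5_2 : List (ℕ × List ℕ × List ℕ × List ℕ) := [
  (3, [0, 1, 3, 0, 1, 3, 2, 3, 2], [0, 1, 3, 2, 3, 2],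
   [1, 0, 1, 0, 0, 1]),
  (3, [0, 2, 6, 0, 1, 3, 2, 1, 2], [0, 1, 3, 0, 1, 3, 2, 1, 2],
   [1, 1, 0, 0, 1, 0, 0, 0, 1]),
  (3, [0, 1, 2, 3, 1, 0, 6, 3, 2], [6, 2, 0, 3, 1, 0, 0, 1, 2],
   [0, 0, 1, 0, 1, 0, 1, 0, 1]),
  (4, [0, 0, 1, 2, 0, 0, 1, 2, 1, 2, 1, 0, 3, 3, 3, 2], [0, 0, 1, 2, 1, 2, 1, 0, 3, 3, 3, 2],
   [1, 0, 0, 1, 0, 0, 0, 1, 0, 0, 0, 1]),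
  (4, [0, 0, 1, 2, 0, 0, 2, 4, 1, 1, 1, 0, 0, 3, 3, 2], [0, 0, 1, 2, 0, 0, 1, 2, 1, 1, 1, 0, 0, 3, 3, 2],
   [0, 1, 0, 0, 1, 1, 0, 0, 0, 0, 1, 0, 0, 0, 0, 1]),
  (4, [0, 1, 1, 0, 1, 0, 0, 2, 2, 1, 1, 4, 0, 0, 3, 2], [1, 0, 0, 2, 2, 0, 0, 4, 0, 1, 1, 0, 0, 0, 3, 2],
   [0, 0, 1, 0, 1, 0, 0, 0, 0, 1, 1, 0, 0, 0, 0, 1]),
  (4, [0, 1, 0, 1, 1, 0, 4, 2, 1, 2, 1, 2, 0, 0, 3, 2], [1, 0, 1, 0, 0, 1, 0, 1, 1, 2, 1, 2, 0, 0, 3, 2],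
   [0, 1, 0, 0, 1, 0, 0, 1, 0, 0, 1, 0, 0, 0, 0, 1]),
  (4, [0, 1, 4, 1, 1, 0, 3, 3, 2, 1, 1, 1, 0, 0, 3, 2], [1, 0, 0, 1, 0, 1, 4, 1, 2, 1, 1, 1, 0, 0, 3, 2],
   [0, 1, 0, 0, 1, 0, 0, 1, 0, 0, 1, 0, 0, 0, 0, 1]),
  (4, [0, 0, 1, 3, 1, 0, 2, 1, 1, 3, 0, 1, 1, 1, 2, 3], [1, 3, 0, 1, 0, 0, 1, 3, 1, 0, 2, 1, 0, 1, 0, 2],
   [0, 1, 0, 0, 0, 0, 1, 0, 1, 0, 0, 0, 0, 0, 1, 1]),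
  (4, [0, 1, 1, 1, 1, 0, 2, 2, 1, 3, 0, 2, 3, 0, 1, 3], [0, 0, 0, 1, 0, 1, 0, 0, 0, 0, 1, 0, 1, 0, 0, 1],
   [1, 1, 1, 0, 1, 0, 2, 1, 1, 3, 0, 1, 0, 0, 1, 3]),
  (4, [0, 1, 1, 0, 1, 0, 2, 0, 4, 3, 1, 4, 3, 0, 1, 2], [0, 1, 1, 0, 1, 0, 2, 0, 1, 3, 0, 2, 3, 0, 1, 2],
   [1, 0, 0, 0, 0, 1, 0, 0, 0, 0, 1, 1, 0, 0, 0, 1]),
  (4, [0, 1, 1, 0, 1, 0, 2, 0, 0, 3, 1, 4, 1, 1, 2, 2], [0, 1, 1, 0, 1, 0, 2, 0, 0, 3, 1, 4, 1, 0, 1, 2],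
   [1, 0, 0, 0, 0, 1, 0, 0, 0, 0, 1, 0, 1, 0, 0, 1]),
  (4, [0, 1, 1, 0, 1, 0, 2, 0, 0, 7, 1, 4, 0, 3, 0, 2], [1, 0, 0, 0, 0, 1, 0, 0, 0, 0, 1, 0, 0, 1, 0, 1],
   [0, 1, 1, 0, 1, 0, 2, 0, 0, 3, 1, 4, 0, 1, 0, 2]),
  (4, [0, 1, 1, 1, 1, 0, 2, 2, 0, 4, 1, 3, 0, 3, 0, 2], [1, 0, 0, 0, 0, 1, 0, 0, 0, 0, 1, 1, 0, 0, 0, 1],
   [0, 1, 1, 0, 1, 0, 2, 0, 0, 4, 1, 2, 0, 3, 0, 2]),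
  (4, [0, 1, 1, 2, 1, 0, 2, 4, 0, 1, 1, 2, 0, 3, 0, 2], [1, 0, 0, 0, 0, 1, 0, 0, 0, 0, 1, 1, 0, 0, 0, 1],
   [0, 1, 1, 1, 1, 0, 2, 2, 0, 1, 1, 1, 0, 3, 0, 2]),
  (3, [0, 3, 4, 1, 1, 2, 3, 0, 2], [0, 1, 0, 1, 0, 0, 0, 1, 0, 0, 0, 1],
   [1, 0, 2, 4, 0, 1, 1, 2, 0, 3, 0, 2]),
  (3, [0, 3, 1, 4, 1, 3, 3, 0, 2], [0, 3, 1, 1, 1, 1, 3, 0, 2],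
   [1, 0, 0, 0, 1, 1, 0, 0, 1]),
  (4, [0, 0, 3, 1, 0, 0, 3, 1, 2, 2, 1, 3, 1, 2, 0, 2], [0, 0, 3, 1, 2, 2, 1, 3, 1, 2, 0, 2],
   [1, 0, 0, 1, 0, 0, 0, 1, 0, 0, 0, 1]),
  (4, [0, 1, 0, 2, 1, 0, 3, 0, 1, 2, 1, 2, 1, 1, 3, 2], [1, 0, 3, 0, 1, 0, 3, 0, 1, 2, 1, 2, 0, 1, 0, 2],
   [0, 0, 0, 1, 1, 0, 0, 0, 0, 0, 1, 0, 0, 1, 0, 1]),
  (4, [0, 0, 1, 1, 1, 1, 0, 2, 1, 3, 1, 1, 2, 6, 1, 1], [0, 0, 1, 1, 1, 3, 0, 0, 1, 1, 0, 2, 1, 3, 1, 1],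
   [1, 0, 0, 0, 0, 0, 1, 0, 0, 0, 0, 1, 0, 1, 0, 1]),
  (5, [0, 1, 1, 0, 1, 1, 0, 0, 3, 1, 0, 1, 1, 0, 0, 1, 0, 0, 1, 2, 2, 1, 1, 6, 1], [1, 0, 0, 0, 0, 0, 0, 0, 1, 0, 0, 1, 1, 0, 0, 0, 0, 0, 0, 1],
   [0, 0, 1, 1, 1, 3, 0, 1, 0, 0, 1, 0, 1, 1, 0, 2, 2, 6, 1, 1]),
  (5, [0, 1, 1, 0, 2, 1, 0, 1, 3, 1, 0, 0, 1, 0, 1, 1, 2, 0, 1, 2, 1, 1, 0, 3, 1], [1, 0, 0, 0, 0, 0, 0, 0, 0, 1, 0, 0, 1, 0, 0, 0, 0, 0, 1, 0, 0, 1, 0, 0, 1],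
   [0, 1, 1, 0, 1, 1, 1, 1, 3, 0, 0, 1, 1, 0, 0, 1, 0, 0, 1, 2, 1, 0, 0, 3, 1]),
  (5, [0, 1, 0, 3, 1, 0, 0, 1, 3, 1, 1, 0, 1, 0, 0, 1, 2, 0, 1, 1, 2, 2, 1, 3, 1], [2, 1, 1, 0, 0, 0, 0, 1, 3, 1, 1, 0, 1, 0, 0, 1, 2, 0, 1, 1, 0, 1, 0, 3, 1],
   [0, 0, 0, 0, 1, 0, 1, 0, 0, 0, 0, 0, 1, 0, 0, 0, 0, 0, 1, 0, 1, 0, 0, 0, 1]),
  (5, [0, 1, 0, 1, 2, 1, 0, 1, 0, 4, 1, 0, 0, 1, 4, 0, 1, 0, 1, 0, 1, 1, 2, 0, 2], [0, 1, 0, 0, 0, 0, 0, 1, 0, 0, 0, 0, 0, 1, 0, 0, 0, 0, 0, 1, 1, 0, 0, 0, 1],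
   [1, 0, 1, 2, 0, 0, 1, 0, 3, 1, 0, 0, 1, 3, 1, 1, 0, 1, 0, 0, 1, 2, 0, 1, 1]),
  (5, [0, 0, 0, 0, 2, 1, 0, 1, 1, 4, 1, 0, 0, 2, 4, 0, 1, 0, 1, 0, 1, 1, 2, 1, 2], [1, 0, 0, 1, 0, 0, 1, 0, 0, 0, 0, 0, 1, 0, 0, 0, 0, 0, 1, 0, 0, 0, 0, 0, 1],
   [0, 0, 0, 0, 2, 1, 0, 1, 0, 4, 1, 0, 0, 1, 4, 0, 1, 0, 1, 0, 1, 1, 2, 0, 2]),
  (5, [0, 0, 0, 1, 0, 0, 0, 0, 0, 2, 2, 1, 0, 0, 4, 1, 1, 1, 1, 4, 0, 1, 2, 1, 2], [0, 0, 0, 0, 2, 1, 1, 1, 0, 4, 2, 1, 0, 0, 4, 0, 0, 0, 1, 0, 0, 1, 2, 1, 2],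
   [0, 0, 0, 1, 0, 1, 0, 0, 0, 0, 0, 0, 1, 0, 0, 0, 1, 0, 1, 0, 0, 0, 0, 0, 1]),
  (5, [0, 0, 0, 1, 0, 0, 0, 2, 0, 0, 0, 1, 0, 1, 2, 1, 1, 3, 1, 1, 2, 2, 4, 1, 2], [0, 0, 0, 1, 0, 0, 0, 2, 0, 0, 2, 1, 4, 0, 0, 1, 1, 3, 1, 1, 0, 1, 0, 1, 2],
   [1, 0, 0, 0, 0, 0, 1, 0, 0, 0, 0, 0, 0, 0, 1, 0, 0, 0, 1, 0, 0, 0, 1, 0, 1]),
  (5, [0, 0, 0, 0, 1, 0, 0, 2, 0, 0, 0, 1, 0, 2, 3, 1, 1, 1, 1, 1, 1, 1, 3, 1, 2], [1, 0, 0, 0, 0, 0, 1, 0, 0, 0, 0, 0, 1, 0, 0, 0, 0, 0, 0, 1, 0, 0, 0, 1, 1],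
   [0, 0, 0, 1, 0, 0, 0, 2, 0, 0, 0, 1, 0, 1, 2, 1, 1, 1, 0, 1, 1, 1, 3, 1, 1]),
  (5, [0, 0, 2, 0, 0, 0, 0, 2, 0, 1, 1, 0, 0, 2, 3, 0, 1, 1, 1, 1, 0, 1, 3, 1, 2], [0, 0, 0, 0, 1, 0, 0, 2, 0, 0, 1, 0, 0, 2, 3, 0, 1, 1, 1, 1, 0, 1, 3, 1, 2],
   [0, 1, 0, 0, 0, 1, 1, 0, 0, 0, 0, 0, 1, 0, 0, 0, 0, 0, 1, 0, 0, 0, 0, 0, 1]),
  (5, [0, 0, 2, 0, 0, 0, 0, 1, 1, 1, 1, 2, 0, 0, 3, 0, 0, 3, 1, 2, 0, 0, 3, 1, 2], [0, 0, 2, 0, 0, 0, 0, 2, 0, 1, 1, 2, 0, 0, 3, 0, 0, 1, 1, 1, 0, 0, 3, 1, 2],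
   [1, 0, 0, 0, 0, 0, 0, 0, 1, 0, 0, 0, 1, 0, 0, 0, 1, 0, 1, 0, 0, 0, 0, 0, 1]),
  (4, [0, 0, 2, 0, 0, 0, 1, 2, 1, 2, 0, 3, 0, 0, 3, 3], [1, 0, 0, 0, 0, 1, 0, 0, 0, 0, 1, 0, 0, 0, 0, 1, 0, 0, 0, 1],
   [0, 0, 2, 0, 0, 0, 0, 1, 1, 1, 1, 2, 0, 0, 3, 0, 0, 3, 1, 2]),
  (5, [0, 0, 0, 1, 0, 0, 0, 0, 1, 0, 0, 0, 0, 1, 2, 1, 1, 2, 0, 3, 0, 0, 0, 3, 3], [1, 1, 0, 0, 0, 0, 0, 1, 0, 0, 0, 0, 0, 1, 0, 0, 0, 0, 0, 1],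
   [0, 0, 1, 0, 0, 0, 1, 0, 0, 0, 1, 2, 1, 2, 0, 3, 0, 0, 3, 3]),
  (4, [0, 0, 1, 0, 0, 0, 1, 2, 2, 2, 0, 3, 0, 0, 3, 3], [1, 0, 0, 0, 1, 0, 0, 0, 0, 1, 0, 0, 0, 0, 1, 0, 0, 0, 0, 1],
   [0, 0, 0, 1, 0, 0, 0, 0, 1, 2, 1, 1, 2, 0, 3, 0, 0, 0, 3, 3]),
  (3, [0, 2, 2, 2, 0, 3, 0, 3, 3], [0, 1, 0, 0, 1, 2, 2, 0, 3, 0, 3, 3],
   [1, 1, 0, 0, 0, 0, 1, 0, 0, 0, 0, 1]),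
  (3, [0, 0, 2, 0, 0, 3, 2, 3, 3], [0, 0, 2, 2, 3, 0, 0, 0, 3],
   [1, 0, 0, 0, 0, 1, 0, 1, 1]),
  (3, [0, 0, 3, 0, 0, 5, 1, 2, 3], [0, 0, 2, 0, 0, 3, 1, 2, 3],
   [0, 1, 0, 1, 1, 0, 0, 0, 1]),
  (4, [0, 0, 0, 1, 0, 0, 0, 2, 0, 0, 0, 5, 1, 1, 2, 3], [1, 1, 0, 0, 0, 0, 1, 0, 0, 0, 0, 1],
   [0, 0, 1, 0, 0, 2, 0, 0, 5, 1, 2, 3]),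
  (4, [0, 0, 0, 1, 0, 0, 0, 1, 0, 0, 0, 5, 1, 2, 2, 3], [0, 1, 0, 0, 1, 1, 0, 0, 0, 0, 1, 0, 0, 0, 0, 1],
   [0, 0, 0, 1, 0, 0, 0, 1, 0, 0, 0, 5, 1, 1, 2, 3]),
  (3, [0, 0, 1, 0, 0, 5, 3, 2, 3], [1, 0, 0, 1, 0, 0, 0, 1, 0, 0, 0, 1],
   [0, 0, 0, 1, 0, 0, 0, 5, 1, 2, 2, 3]),
  (3, [0, 0, 1, 0, 0, 4, 5, 2, 3], [1, 0, 0, 1, 1, 0, 0, 0, 1],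
   [0, 0, 1, 0, 0, 4, 3, 2, 3]),
  (3, [0, 0, 1, 0, 0, 3, 7, 2, 3], [1, 0, 0, 1, 1, 0, 0, 0, 1],
   [0, 0, 1, 0, 0, 3, 5, 2, 3]),
  (3, [0, 0, 1, 0, 0, 2, 9, 2, 3], [1, 0, 0, 1, 1, 0, 0, 0, 1],
   [0, 0, 1, 0, 0, 2, 7, 2, 3]),
  (3, [0, 0, 1, 0, 0, 1, 2, 11, 3], [0, 1, 0, 1, 1, 0, 0, 0, 1],
   [0, 0, 1, 0, 0, 1, 9, 2, 3]),
  (2, [0, 1, 13, 3], [1, 0, 1, 0, 0, 1],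
   [0, 0, 1, 2, 11, 3]),
  (2, [3, 13, 1, 0], [0, 1, 1, 0],
   [13, 3, 0, 1])]

theorem sp_1_3_5_2 : SSE !![1, 3; 5, 2] !![3, 13; 1, 0] :=
  sse_of_chain_two ch_1_3_5_2 (by decide +kernel)

/-- A chain from `[1, 4; 2, 2]` to `[3, 6; 1, 0]`. -/
def ch_1_4_2_2 : List (ℕ × List ℕ × List ℕ × List ℕ) := [
  (2, [0, 2, 3, 3], [3, 1, 0, 2],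
   [0, 1, 1, 1]),
  (3, [0, 0, 1, 0, 0, 1, 3, 3, 3], [1, 1, 0, 0, 0, 1],
   [0, 1, 0, 1, 3, 3]),
  (2, [0, 1, 6, 3], [1, 0, 1, 0, 0, 1],
   [0, 0, 1, 3, 3, 3]),
  (2, [3, 6, 1, 0], [0, 1, 1, 0],
   [6, 3, 0, 1])]

theorem sp_1_4_2_2 : SSE !![1, 4; 2, 2] !![3, 6; 1, 0] :=
  sse_of_chain_two ch_1_4_2_2 (by decide +kernel)

/-- A chain from `[1, 4; 3, 2]` to `[3, 10; 1, 0]`. -/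
def ch_1_4_3_2 : List (ℕ × List ℕ × List ℕ × List ℕ) := [
  (3, [1, 1, 3, 1, 1, 3, 2, 2, 1], [2, 2, 1, 1, 1, 3],
   [0, 1, 0, 1, 1, 0]),
  (2, [1, 2, 6, 2], [3, 1, 3, 1, 1, 2],
   [0, 0, 1, 1, 1, 0]),
  (2, [0, 5, 2, 3], [0, 1, 1, 1],
   [5, 0, 1, 2]),
  (3, [0, 0, 2, 0, 0, 3, 2, 2, 3], [1, 1, 0, 0, 0, 1],
   [0, 2, 0, 3, 2, 3]),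
  (3, [0, 0, 1, 0, 0, 2, 2, 4, 3], [0, 1, 0, 1, 1, 0, 0, 0, 1],
   [0, 0, 1, 0, 0, 2, 2, 2, 3]),
  (3, [0, 0, 1, 0, 0, 1, 4, 6, 3], [0, 1, 0, 1, 1, 0, 0, 0, 1],
   [0, 0, 1, 0, 0, 1, 2, 4, 3]),
  (2, [0, 1, 10, 3], [1, 0, 1, 0, 0, 1],
   [0, 0, 1, 4, 6, 3]),
  (2, [3, 10, 1, 0], [0, 1, 1, 0],
   [10, 3, 0, 1])]

theorem sp_1_4_3_2 : SSE !![1, 4; 3, 2] !![3, 10; 1, 0] :=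
  sse_of_chain_two ch_1_4_3_2 (by decide +kernel)

/-- A chain from `[1, 5; 2, 2]` to `[3, 8; 1, 0]`. -/
def ch_1_5_2_2 : List (ℕ × List ℕ × List ℕ × List ℕ) := [
  (2, [0, 2, 4, 3], [4, 1, 0, 2],
   [0, 1, 1, 1]),
  (3, [0, 0, 1, 0, 0, 1, 4, 4, 3], [1, 1, 0, 0, 0, 1],
   [0, 1, 0, 1, 4, 3]),
  (2, [0, 1, 8, 3], [1, 0, 1, 0, 0, 1],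
   [0, 0, 1, 4, 4, 3]),
  (2, [3, 8, 1, 0], [0, 1, 1, 0],
   [8, 3, 0, 1])]

theorem sp_1_5_2_2 : SSE !![1, 5; 2, 2] !![3, 8; 1, 0] :=
  sse_of_chain_two ch_1_5_2_2 (by decide +kernel)

/-- A chain from `[1, 5; 3, 2]` to `[3, 13; 1, 0]`. -/
def ch_1_5_3_2 : List (ℕ × List ℕ × List ℕ × List ℕ) := [
  (3, [0, 0, 2, 1, 1, 3, 3, 3, 2], [1, 1, 0, 0, 0, 1],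
   [0, 2, 1, 3, 3, 2]),
  (3, [0, 0, 2, 2, 1, 1, 6, 3, 2], [1, 0, 0, 1, 1, 0, 0, 0, 1],
   [0, 0, 2, 1, 1, 1, 3, 3, 2]),
  (3, [0, 2, 2, 4, 1, 3, 2, 1, 2], [1, 0, 0, 0, 0, 1, 0, 1, 1],
   [0, 0, 2, 4, 2, 1, 2, 1, 1]),
  (4, [0, 1, 0, 1, 2, 0, 2, 2, 1, 3, 1, 2, 1, 2, 1, 2], [0, 1, 0, 0, 1, 0, 1, 0, 0, 0, 0, 1],
   [1, 0, 1, 0, 2, 2, 3, 1, 2, 2, 1, 2]),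
  (4, [0, 4, 2, 2, 1, 1, 1, 0, 1, 2, 1, 1, 3, 3, 2, 1], [0, 1, 0, 0, 1, 0, 0, 0, 0, 0, 0, 1, 0, 1, 1, 0],
   [2, 0, 2, 2, 0, 1, 0, 1, 1, 1, 1, 1, 1, 3, 1, 2]),
  (4, [0, 1, 0, 1, 1, 1, 1, 1, 0, 2, 1, 3, 4, 3, 2, 1], [4, 2, 2, 0, 0, 1, 0, 1, 1, 1, 1, 1, 0, 2, 1, 3],
   [0, 1, 0, 0, 0, 0, 1, 0, 0, 0, 0, 1, 1, 1, 0, 0]),
  (4, [0, 1, 0, 2, 3, 0, 1, 2, 0, 3, 1, 5, 1, 1, 1, 2], [1, 0, 0, 0, 0, 0, 0, 1, 0, 0, 1, 0, 0, 1, 0, 1],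
   [0, 1, 0, 1, 3, 2, 1, 0, 0, 2, 1, 3, 1, 1, 1, 1]),
  (4, [0, 1, 0, 2, 4, 0, 1, 2, 1, 2, 1, 3, 2, 1, 1, 2], [1, 0, 0, 0, 0, 1, 0, 0, 1, 0, 1, 0, 0, 0, 0, 1],
   [0, 1, 0, 2, 3, 0, 1, 2, 0, 2, 1, 3, 1, 1, 1, 2]),
  (4, [0, 1, 0, 2, 5, 0, 1, 2, 2, 1, 1, 1, 3, 1, 1, 2], [1, 0, 0, 0, 0, 1, 0, 0, 1, 0, 1, 0, 0, 0, 0, 1],
   [0, 1, 0, 2, 4, 0, 1, 2, 1, 1, 1, 1, 2, 1, 1, 2]),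
  (4, [0, 1, 2, 2, 5, 0, 2, 3, 1, 0, 1, 1, 2, 1, 1, 2], [1, 0, 0, 0, 0, 1, 0, 0, 0, 0, 0, 1, 0, 0, 1, 1],
   [0, 1, 0, 2, 5, 0, 1, 2, 1, 0, 0, 1, 2, 1, 1, 1]),
  (4, [0, 1, 3, 2, 4, 0, 1, 2, 1, 0, 1, 1, 2, 1, 2, 2], [1, 0, 0, 0, 0, 1, 1, 0, 0, 0, 1, 0, 0, 0, 0, 1],
   [0, 1, 2, 2, 4, 0, 1, 2, 1, 0, 1, 1, 2, 1, 1, 2]),
  (4, [0, 3, 0, 1, 1, 0, 4, 2, 0, 1, 1, 1, 1, 2, 3, 2], [0, 1, 0, 0, 1, 0, 1, 0, 0, 0, 1, 0, 0, 0, 0, 1],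
   [3, 0, 0, 1, 0, 1, 3, 2, 1, 0, 1, 1, 2, 1, 2, 2]),
  (4, [0, 3, 1, 1, 1, 0, 2, 6, 1, 1, 1, 3, 0, 1, 1, 2], [1, 0, 0, 0, 0, 1, 0, 0, 0, 0, 0, 1, 0, 0, 1, 1],
   [0, 3, 0, 1, 1, 0, 4, 2, 1, 1, 2, 1, 0, 1, 1, 1]),
  (4, [0, 1, 1, 3, 1, 0, 1, 6, 1, 4, 1, 4, 1, 1, 0, 2], [1, 3, 0, 1, 1, 0, 1, 6, 0, 1, 1, 3, 1, 1, 0, 2],
   [0, 0, 1, 0, 0, 1, 0, 0, 1, 0, 1, 0, 0, 0, 0, 1]),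
  (4, [0, 1, 1, 4, 1, 0, 1, 7, 0, 3, 1, 3, 1, 1, 0, 2], [1, 0, 0, 0, 0, 1, 0, 0, 0, 0, 1, 1, 0, 0, 0, 1],
   [0, 1, 1, 3, 1, 0, 1, 6, 0, 3, 1, 2, 1, 1, 0, 2]),
  (4, [0, 3, 1, 1, 1, 1, 0, 1, 0, 0, 1, 3, 2, 8, 1, 1], [0, 3, 1, 1, 1, 7, 1, 0, 0, 0, 1, 3, 1, 1, 0, 1],
   [1, 0, 0, 0, 0, 0, 0, 1, 0, 0, 1, 0, 0, 1, 0, 1]),
  (4, [0, 0, 1, 1, 0, 1, 0, 3, 3, 1, 1, 2, 6, 1, 2, 1], [3, 1, 0, 1, 0, 0, 1, 1, 0, 1, 0, 3, 6, 1, 2, 1],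
   [0, 1, 0, 0, 0, 0, 1, 0, 1, 1, 0, 0, 0, 0, 0, 1]),
  (4, [0, 1, 1, 0, 6, 0, 2, 1, 3, 1, 1, 1, 6, 2, 2, 2], [0, 1, 1, 0, 0, 2, 0, 1, 3, 1, 1, 1, 6, 0, 2, 1],
   [1, 0, 0, 0, 0, 0, 0, 1, 0, 0, 1, 0, 0, 1, 0, 1]),
  (4, [0, 1, 0, 1, 6, 0, 1, 3, 3, 1, 1, 2, 3, 1, 1, 2], [1, 0, 0, 0, 0, 1, 0, 0, 0, 0, 0, 1, 0, 0, 1, 1],
   [0, 1, 1, 0, 6, 0, 2, 1, 3, 1, 1, 1, 3, 1, 1, 1]),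
  (3, [0, 1, 1, 6, 0, 4, 3, 1, 3], [1, 0, 0, 0, 1, 0, 0, 0, 1, 0, 0, 1],
   [0, 1, 0, 1, 6, 0, 1, 3, 3, 1, 1, 2]),
  (4, [0, 1, 1, 1, 3, 0, 0, 2, 3, 0, 0, 2, 3, 1, 1, 3], [1, 0, 0, 0, 0, 1, 1, 0, 0, 0, 0, 1],
   [0, 1, 1, 3, 0, 2, 3, 0, 2, 3, 1, 3]),
  (3, [0, 2, 1, 3, 0, 2, 3, 2, 3], [1, 0, 0, 0, 1, 0, 0, 1, 0, 0, 0, 1],
   [0, 1, 1, 1, 3, 0, 0, 2, 3, 1, 1, 3]),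
  (3, [0, 1, 3, 0, 1, 3, 3, 2, 2], [1, 0, 0, 0, 0, 1, 0, 1, 1],
   [0, 2, 1, 0, 2, 1, 3, 0, 2]),
  (2, [1, 3, 5, 2], [1, 0, 1, 0, 0, 1],
   [0, 1, 3, 3, 2, 2]),
  (3, [0, 1, 3, 0, 1, 3, 2, 3, 2], [0, 1, 3, 2, 3, 2],
   [1, 0, 1, 0, 0, 1]),
  (3, [0, 2, 6, 0, 1, 3, 2, 1, 2], [0, 1, 3, 0, 1, 3, 2, 1, 2],
   [1, 1, 0, 0, 1, 0, 0, 0, 1]),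
  (3, [0, 1, 2, 3, 1, 0, 6, 3, 2], [6, 2, 0, 3, 1, 0, 0, 1, 2],
   [0, 0, 1, 0, 1, 0, 1, 0, 1]),
  (4, [0, 0, 1, 2, 0, 0, 1, 2, 1, 2, 1, 0, 3, 3, 3, 2], [0, 0, 1, 2, 1, 2, 1, 0, 3, 3, 3, 2],
   [1, 0, 0, 1, 0, 0, 0, 1, 0, 0, 0, 1]),
  (4, [0, 0, 1, 2, 0, 0, 2, 4, 1, 1, 1, 0, 0, 3, 3, 2], [0, 0, 1, 2, 0, 0, 1, 2, 1, 1, 1, 0, 0, 3, 3, 2],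
   [0, 1, 0, 0, 1, 1, 0, 0, 0, 0, 1, 0, 0, 0, 0, 1]),
  (4, [0, 1, 1, 0, 1, 0, 0, 2, 2, 1, 1, 4, 0, 0, 3, 2], [1, 0, 0, 2, 2, 0, 0, 4, 0, 1, 1, 0, 0, 0, 3, 2],
   [0, 0, 1, 0, 1, 0, 0, 0, 0, 1, 1, 0, 0, 0, 0, 1]),
  (4, [0, 1, 0, 1, 1, 0, 4, 2, 1, 2, 1, 2, 0, 0, 3, 2], [1, 0, 1, 0, 0, 1, 0, 1, 1, 2, 1, 2, 0, 0, 3, 2],
   [0, 1, 0, 0, 1, 0, 0, 1, 0, 0, 1, 0, 0, 0, 0, 1]),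
  (4, [0, 1, 4, 1, 1, 0, 3, 3, 2, 1, 1, 1, 0, 0, 3, 2], [1, 0, 0, 1, 0, 1, 4, 1, 2, 1, 1, 1, 0, 0, 3, 2],
   [0, 1, 0, 0, 1, 0, 0, 1, 0, 0, 1, 0, 0, 0, 0, 1]),
  (4, [0, 0, 1, 3, 1, 0, 2, 1, 1, 3, 0, 1, 1, 1, 2, 3], [1, 3, 0, 1, 0, 0, 1, 3, 1, 0, 2, 1, 0, 1, 0, 2],
   [0, 1, 0, 0, 0, 0, 1, 0, 1, 0, 0, 0, 0, 0, 1, 1]),
  (4, [0, 1, 1, 1, 1, 0, 2, 2, 1, 3, 0, 2, 3, 0, 1, 3], [0, 0, 0, 1, 0, 1, 0, 0, 0, 0, 1, 0, 1, 0, 0, 1],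
   [1, 1, 1, 0, 1, 0, 2, 1, 1, 3, 0, 1, 0, 0, 1, 3]),
  (4, [0, 1, 1, 0, 1, 0, 2, 0, 4, 3, 1, 4, 3, 0, 1, 2], [0, 1, 1, 0, 1, 0, 2, 0, 1, 3, 0, 2, 3, 0, 1, 2],
   [1, 0, 0, 0, 0, 1, 0, 0, 0, 0, 1, 1, 0, 0, 0, 1]),
  (4, [0, 1, 1, 0, 1, 0, 2, 0, 0, 3, 1, 4, 1, 1, 2, 2], [0, 1, 1, 0, 1, 0, 2, 0, 0, 3, 1, 4, 1, 0, 1, 2],
   [1, 0, 0, 0, 0, 1, 0, 0, 0, 0, 1, 0, 1, 0, 0, 1]),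
  (4, [0, 1, 1, 0, 1, 0, 2, 0, 0, 7, 1, 4, 0, 3, 0, 2], [1, 0, 0, 0, 0, 1, 0, 0, 0, 0, 1, 0, 0, 1, 0, 1],
   [0, 1, 1, 0, 1, 0, 2, 0, 0, 3, 1, 4, 0, 1, 0, 2]),
  (4, [0, 1, 1, 1, 1, 0, 2, 2, 0, 4, 1, 3, 0, 3, 0, 2], [1, 0, 0, 0, 0, 1, 0, 0, 0, 0, 1, 1, 0, 0, 0, 1],
   [0, 1, 1, 0, 1, 0, 2, 0, 0, 4, 1, 2, 0, 3, 0, 2]),
  (4, [0, 1, 1, 2, 1, 0, 2, 4, 0, 1, 1, 2, 0, 3, 0, 2], [1, 0, 0, 0, 0, 1, 0, 0, 0, 0, 1, 1, 0, 0, 0, 1],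
   [0, 1, 1, 1, 1, 0, 2, 2, 0, 1, 1, 1, 0, 3, 0, 2]),
  (3, [0, 3, 4, 1, 1, 2, 3, 0, 2], [0, 1, 0, 1, 0, 0, 0, 1, 0, 0, 0, 1],
   [1, 0, 2, 4, 0, 1, 1, 2, 0, 3, 0, 2]),
  (3, [0, 3, 1, 4, 1, 3, 3, 0, 2], [0, 3, 1, 1, 1, 1, 3, 0, 2],
   [1, 0, 0, 0, 1, 1, 0, 0, 1]),
  (4, [0, 0, 3, 1, 0, 0, 3, 1, 2, 2, 1, 3, 1, 2, 0, 2], [0, 0, 3, 1, 2, 2, 1, 3, 1, 2, 0, 2],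
   [1, 0, 0, 1, 0, 0, 0, 1, 0, 0, 0, 1]),
  (4, [0, 1, 0, 2, 1, 0, 3, 0, 1, 2, 1, 2, 1, 1, 3, 2], [1, 0, 3, 0, 1, 0, 3, 0, 1, 2, 1, 2, 0, 1, 0, 2],
   [0, 0, 0, 1, 1, 0, 0, 0, 0, 0, 1, 0, 0, 1, 0, 1]),
  (4, [0, 0, 1, 1, 1, 1, 0, 2, 1, 3, 1, 1, 2, 6, 1, 1], [0, 0, 1, 1, 1, 3, 0, 0, 1, 1, 0, 2, 1, 3, 1, 1],
   [1, 0, 0, 0, 0, 0, 1, 0, 0, 0, 0, 1, 0, 1, 0, 1]),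
  (5, [0, 1, 1, 0, 1, 1, 0, 0, 3, 1, 0, 1, 1, 0, 0, 1, 0, 0, 1, 2, 2, 1, 1, 6, 1], [1, 0, 0, 0, 0, 0, 0, 0, 1, 0, 0, 1, 1, 0, 0, 0, 0, 0, 0, 1],
   [0, 0, 1, 1, 1, 3, 0, 1, 0, 0, 1, 0, 1, 1, 0, 2, 2, 6, 1, 1]),
  (5, [0, 1, 1, 0, 2, 1, 0, 1, 3, 1, 0, 0, 1, 0, 1, 1, 2, 0, 1, 2, 1, 1, 0, 3, 1], [1, 0, 0, 0, 0, 0, 0, 0, 0, 1, 0, 0, 1, 0, 0, 0, 0, 0, 1, 0, 0, 1, 0, 0, 1],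
   [0, 1, 1, 0, 1, 1, 1, 1, 3, 0, 0, 1, 1, 0, 0, 1, 0, 0, 1, 2, 1, 0, 0, 3, 1]),
  (5, [0, 1, 0, 3, 1, 0, 0, 1, 3, 1, 1, 0, 1, 0, 0, 1, 2, 0, 1, 1, 2, 2, 1, 3, 1], [2, 1, 1, 0, 0, 0, 0, 1, 3, 1, 1, 0, 1, 0, 0, 1, 2, 0, 1, 1, 0, 1, 0, 3, 1],
   [0, 0, 0, 0, 1, 0, 1, 0, 0, 0, 0, 0, 1, 0, 0, 0, 0, 0, 1, 0, 1, 0, 0, 0, 1]),
  (5, [0, 1, 0, 1, 2, 1, 0, 1, 0, 4, 1, 0, 0, 1, 4, 0, 1, 0, 1, 0, 1, 1, 2, 0, 2], [0, 1, 0, 0, 0, 0, 0, 1, 0, 0, 0, 0, 0, 1, 0, 0, 0, 0, 0, 1, 1, 0, 0, 0, 1],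
   [1, 0, 1, 2, 0, 0, 1, 0, 3, 1, 0, 0, 1, 3, 1, 1, 0, 1, 0, 0, 1, 2, 0, 1, 1]),
  (5, [0, 0, 0, 0, 2, 1, 0, 1, 1, 4, 1, 0, 0, 2, 4, 0, 1, 0, 1, 0, 1, 1, 2, 1, 2], [1, 0, 0, 1, 0, 0, 1, 0, 0, 0, 0, 0, 1, 0, 0, 0, 0, 0, 1, 0, 0, 0, 0, 0, 1],
   [0, 0, 0, 0, 2, 1, 0, 1, 0, 4, 1, 0, 0, 1, 4, 0, 1, 0, 1, 0, 1, 1, 2, 0, 2]),
  (5, [0, 0, 0, 1, 0, 0, 0, 0, 0, 2, 2, 1, 0, 0, 4, 1, 1, 1, 1, 4, 0, 1, 2, 1, 2], [0, 0, 0, 0, 2, 1, 1, 1, 0, 4, 2, 1, 0, 0, 4, 0, 0, 0, 1, 0, 0, 1, 2, 1, 2],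
   [0, 0, 0, 1, 0, 1, 0, 0, 0, 0, 0, 0, 1, 0, 0, 0, 1, 0, 1, 0, 0, 0, 0, 0, 1]),
  (5, [0, 0, 0, 1, 0, 0, 0, 2, 0, 0, 0, 1, 0, 1, 2, 1, 1, 3, 1, 1, 2, 2, 4, 1, 2], [0, 0, 0, 1, 0, 0, 0, 2, 0, 0, 2, 1, 4, 0, 0, 1, 1, 3, 1, 1, 0, 1, 0, 1, 2],
   [1, 0, 0, 0, 0, 0, 1, 0, 0, 0, 0, 0, 0, 0, 1, 0, 0, 0, 1, 0, 0, 0, 1, 0, 1]),
  (5, [0, 0, 0, 0, 1, 0, 0, 2, 0, 0, 0, 1, 0, 2, 3, 1, 1, 1, 1, 1, 1, 1, 3, 1, 2], [1, 0, 0, 0, 0, 0, 1, 0, 0, 0, 0, 0, 1, 0, 0, 0, 0, 0, 0, 1, 0, 0, 0, 1, 1],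
   [0, 0, 0, 1, 0, 0, 0, 2, 0, 0, 0, 1, 0, 1, 2, 1, 1, 1, 0, 1, 1, 1, 3, 1, 1]),
  (5, [0, 0, 2, 0, 0, 0, 0, 2, 0, 1, 1, 0, 0, 2, 3, 0, 1, 1, 1, 1, 0, 1, 3, 1, 2], [0, 0, 0, 0, 1, 0, 0, 2, 0, 0, 1, 0, 0, 2, 3, 0, 1, 1, 1, 1, 0, 1, 3, 1, 2],
   [0, 1, 0, 0, 0, 1, 1, 0, 0, 0, 0, 0, 1, 0, 0, 0, 0, 0, 1, 0, 0, 0, 0, 0, 1]),
  (5, [0, 0, 2, 0, 0, 0, 0, 1, 1, 1, 1, 2, 0, 0, 3, 0, 0, 3, 1, 2, 0, 0, 3, 1, 2], [0, 0, 2, 0, 0, 0, 0, 2, 0, 1, 1, 2, 0, 0, 3, 0, 0, 1, 1, 1, 0, 0, 3, 1, 2],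
   [1, 0, 0, 0, 0, 0, 0, 0, 1, 0, 0, 0, 1, 0, 0, 0, 1, 0, 1, 0, 0, 0, 0, 0, 1]),
  (4, [0, 0, 2, 0, 0, 0, 1, 2, 1, 2, 0, 3, 0, 0, 3, 3], [1, 0, 0, 0, 0, 1, 0, 0, 0, 0, 1, 0, 0, 0, 0, 1, 0, 0, 0, 1],
   [0, 0, 2, 0, 0, 0, 0, 1, 1, 1, 1, 2, 0, 0, 3, 0, 0, 3, 1, 2]),
  (5, [0, 0, 0, 1, 0, 0, 0, 0, 1, 0, 0, 0, 0, 1, 2, 1, 1, 2, 0, 3, 0, 0, 0, 3, 3], [1, 1, 0, 0, 0, 0, 0, 1, 0, 0, 0, 0, 0, 1, 0, 0, 0, 0, 0, 1],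
   [0, 0, 1, 0, 0, 0, 1, 0, 0, 0, 1, 2, 1, 2, 0, 3, 0, 0, 3, 3]),
  (4, [0, 0, 1, 0, 0, 0, 1, 2, 2, 2, 0, 3, 0, 0, 3, 3], [1, 0, 0, 0, 1, 0, 0, 0, 0, 1, 0, 0, 0, 0, 1, 0, 0, 0, 0, 1],
   [0, 0, 0, 1, 0, 0, 0, 0, 1, 2, 1, 1, 2, 0, 3, 0, 0, 0, 3, 3]),
  (3, [0, 2, 2, 2, 0, 3, 0, 3, 3], [0, 1, 0, 0, 1, 2, 2, 0, 3, 0, 3, 3],
   [1, 1, 0, 0, 0, 0, 1, 0, 0, 0, 0, 1]),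
  (3, [0, 0, 2, 0, 0, 3, 2, 3, 3], [0, 0, 2, 2, 3, 0, 0, 0, 3],
   [1, 0, 0, 0, 0, 1, 0, 1, 1]),
  (3, [0, 0, 3, 0, 0, 5, 1, 2, 3], [0, 0, 2, 0, 0, 3, 1, 2, 3],
   [0, 1, 0, 1, 1, 0, 0, 0, 1]),
  (4, [0, 0, 0, 1, 0, 0, 0, 2, 0, 0, 0, 5, 1, 1, 2, 3], [1, 1, 0, 0, 0, 0, 1, 0, 0, 0, 0, 1],
   [0, 0, 1, 0, 0, 2, 0, 0, 5, 1, 2, 3]),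
  (4, [0, 0, 0, 1, 0, 0, 0, 1, 0, 0, 0, 5, 1, 2, 2, 3], [0, 1, 0, 0, 1, 1, 0, 0, 0, 0, 1, 0, 0, 0, 0, 1],
   [0, 0, 0, 1, 0, 0, 0, 1, 0, 0, 0, 5, 1, 1, 2, 3]),
  (3, [0, 0, 1, 0, 0, 5, 3, 2, 3], [1, 0, 0, 1, 0, 0, 0, 1, 0, 0, 0, 1],
   [0, 0, 0, 1, 0, 0, 0, 5, 1, 2, 2, 3]),
  (3, [0, 0, 1, 0, 0, 4, 5, 2, 3], [1, 0, 0, 1, 1, 0, 0, 0, 1],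
   [0, 0, 1, 0, 0, 4, 3, 2, 3]),
  (3, [0, 0, 1, 0, 0, 3, 7, 2, 3], [1, 0, 0, 1, 1, 0, 0, 0, 1],
   [0, 0, 1, 0, 0, 3, 5, 2, 3]),
  (3, [0, 0, 1, 0, 0, 2, 9, 2, 3], [1, 0, 0, 1, 1, 0, 0, 0, 1],
   [0, 0, 1, 0, 0, 2, 7, 2, 3]),
  (3, [0, 0, 1, 0, 0, 1, 2, 11, 3], [0, 1, 0, 1, 1, 0, 0, 0, 1],
   [0, 0, 1, 0, 0, 1, 9, 2, 3]),
  (2, [0, 1, 13, 3], [1, 0, 1, 0, 0, 1],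
   [0, 0, 1, 2, 11, 3]),
  (2, [3, 13, 1, 0], [0, 1, 1, 0],
   [13, 3, 0, 1])]

theorem sp_1_5_3_2 : SSE !![1, 5; 3, 2] !![3, 13; 1, 0] :=
  sse_of_chain_two ch_1_5_3_2 (by decide +kernel)

/-- A chain from `[1, 6; 2, 2]` to `[3, 10; 1, 0]`. -/
def ch_1_6_2_2 : List (ℕ × List ℕ × List ℕ × List ℕ) := [
  (2, [0, 2, 5, 3], [5, 1, 0, 2],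
   [0, 1, 1, 1]),
  (3, [0, 0, 1, 0, 0, 1, 5, 5, 3], [1, 1, 0, 0, 0, 1],
   [0, 1, 0, 1, 5, 3]),
  (2, [0, 1, 10, 3], [1, 0, 1, 0, 0, 1],
   [0, 0, 1, 5, 5, 3]),
  (2, [3, 10, 1, 0], [0, 1, 1, 0],
   [10, 3, 0, 1])]

theorem sp_1_6_2_2 : SSE !![1, 6; 2, 2] !![3, 10; 1, 0] :=
  sse_of_chain_two ch_1_6_2_2 (by decide +kernel)

/-- A chain from `[1, 7; 2, 2]` to `[3, 12; 1, 0]`. -/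
def ch_1_7_2_2 : List (ℕ × List ℕ × List ℕ × List ℕ) := [
  (2, [0, 2, 6, 3], [6, 1, 0, 2],
   [0, 1, 1, 1]),
  (3, [0, 0, 2, 0, 0, 2, 2, 4, 3], [0, 0, 2, 2, 4, 3],
   [1, 0, 1, 0, 0, 1]),
  (3, [0, 0, 2, 0, 0, 4, 2, 2, 3], [0, 0, 2, 0, 0, 2, 2, 2, 3],
   [0, 1, 0, 1, 1, 0, 0, 0, 1]),
  (2, [0, 6, 2, 3], [0, 2, 0, 4, 2, 3],
   [1, 1, 0, 0, 0, 1]),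
  (2, [1, 2, 7, 2], [6, 0, 1, 2],
   [0, 1, 1, 1]),
  (3, [0, 1, 2, 0, 1, 2, 6, 1, 2], [0, 1, 2, 6, 1, 2],
   [1, 0, 1, 0, 0, 1]),
  (3, [0, 1, 1, 6, 1, 1, 6, 2, 2], [0, 1, 1, 0, 1, 1, 6, 1, 1],
   [1, 0, 0, 0, 0, 1, 0, 1, 1]),
  (2, [0, 1, 12, 3], [0, 1, 6, 1, 6, 2],
   [1, 0, 0, 0, 1, 1]),
  (2, [3, 12, 1, 0], [0, 1, 1, 0],
   [12, 3, 0, 1])]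

theorem sp_1_7_2_2 : SSE !![1, 7; 2, 2] !![3, 12; 1, 0] :=
  sse_of_chain_two ch_1_7_2_2 (by decide +kernel)

/-- A chain from `[1, 1; 1, 3]` to `[1, 1; 1, 3]`. -/
def ch_1_1_1_3 : List (ℕ × List ℕ × List ℕ × List ℕ) := [
]

theorem sp_1_1_1_3 : SSE !![1, 1; 1, 3] !![1, 1; 1, 3] :=
  sse_of_chain_two ch_1_1_1_3 (by decide +kernel)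

/-- A chain from `[1, 1; 2, 3]` to `[1, 1; 2, 3]`. -/
def ch_1_1_2_3 : List (ℕ × List ℕ × List ℕ × List ℕ) := [
]

theorem sp_1_1_2_3 : SSE !![1, 1; 2, 3] !![1, 1; 2, 3] :=
  sse_of_chain_two ch_1_1_2_3 (by decide +kernel)

/-- A chain from `[1, 2; 1, 3]` to `[1, 1; 2, 3]`. -/
def ch_1_2_1_3 : List (ℕ × List ℕ × List ℕ × List ℕ) := [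
  (2, [1, 1, 2, 3], [0, 1, 1, 1],
   [0, 1, 1, 2])]

theorem sp_1_2_1_3 : SSE !![1, 2; 1, 3] !![1, 1; 2, 3] :=
  sse_of_chain_two ch_1_2_1_3 (by decide +kernel)

/-- A chain from `[1, 2; 2, 3]` to `[1, 2; 2, 3]`. -/
def ch_1_2_2_3 : List (ℕ × List ℕ × List ℕ × List ℕ) := [
]

theorem sp_1_2_2_3 : SSE !![1, 2; 2, 3] !![1, 2; 2, 3] :=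
  sse_of_chain_two ch_1_2_2_3 (by decide +kernel)

/-- A chain from `[1, 2; 3, 3]` to `[4, 3; 1, 0]`. -/
def ch_1_2_3_3 : List (ℕ × List ℕ × List ℕ × List ℕ) := [
  (2, [1, 3, 2, 3], [0, 1, 1, 1],
   [2, 1, 1, 2]),
  (2, [0, 1, 3, 4], [0, 1, 1, 1],
   [1, 0, 1, 3]),
  (2, [4, 3, 1, 0], [0, 1, 1, 0],
   [3, 4, 0, 1])]

theorem sp_1_2_3_3 : SSE !![1, 2; 3, 3] !![4, 3; 1, 0] :=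
  sse_of_chain_two ch_1_2_3_3 (by decide +kernel)

/-- A chain from `[1, 2; 4, 3]` to `[1, 2; 4, 3]`. -/
def ch_1_2_4_3 : List (ℕ × List ℕ × List ℕ × List ℕ) := [
]

theorem sp_1_2_4_3 : SSE !![1, 2; 4, 3] !![1, 2; 4, 3] :=
  sse_of_chain_two ch_1_2_4_3 (by decide +kernel)

/-- A chain from `[1, 2; 5, 3]` to `[4, 7; 1, 0]`. -/
def ch_1_2_5_3 : List (ℕ × List ℕ × List ℕ × List ℕ) := [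
  (3, [0, 1, 2, 0, 1, 2, 2, 3, 3], [0, 1, 2, 2, 3, 3],
   [1, 0, 1, 0, 0, 1]),
  (3, [0, 1, 1, 2, 0, 3, 2, 1, 4], [0, 1, 1, 0, 1, 1, 2, 0, 3],
   [1, 0, 0, 0, 0, 1, 0, 1, 1]),
  (3, [0, 1, 2, 1, 2, 2, 2, 3, 2], [1, 1, 0, 0, 1, 2, 1, 2, 2],
   [0, 1, 0, 0, 0, 1, 1, 0, 1]),
  (3, [1, 1, 2, 2, 1, 4, 1, 2, 2], [1, 0, 2, 1, 1, 2, 1, 2, 2],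
   [0, 1, 0, 1, 1, 0, 0, 0, 1]),
  (3, [0, 1, 2, 1, 1, 1, 3, 3, 3], [1, 1, 1, 3, 2, 1, 0, 1, 2],
   [0, 0, 1, 1, 0, 0, 0, 1, 1]),
  (3, [0, 1, 1, 1, 1, 3, 0, 3, 3], [1, 0, 2, 0, 1, 1, 0, 3, 3],
   [0, 1, 0, 1, 1, 0, 0, 0, 1]),
  (3, [0, 0, 1, 0, 0, 3, 1, 2, 4], [0, 0, 1, 1, 2, 1, 0, 0, 3],
   [1, 0, 0, 0, 0, 1, 0, 1, 1]),
  (3, [0, 0, 1, 0, 0, 2, 3, 2, 4], [1, 0, 0, 1, 1, 0, 0, 0, 1],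
   [0, 0, 1, 0, 0, 2, 1, 2, 4]),
  (3, [0, 0, 1, 0, 0, 1, 2, 5, 4], [0, 1, 0, 1, 1, 0, 0, 0, 1],
   [0, 0, 1, 0, 0, 1, 3, 2, 4]),
  (2, [0, 1, 7, 4], [1, 0, 1, 0, 0, 1],
   [0, 0, 1, 2, 5, 4]),
  (2, [4, 7, 1, 0], [0, 1, 1, 0],
   [7, 4, 0, 1])]

theorem sp_1_2_5_3 : SSE !![1, 2; 5, 3] !![4, 7; 1, 0] :=
  sse_of_chain_two ch_1_2_5_3 (by decide +kernel)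

/-- A chain from `[1, 3; 2, 3]` to `[4, 3; 1, 0]`. -/
def ch_1_3_2_3 : List (ℕ × List ℕ × List ℕ × List ℕ) := [
  (2, [0, 1, 3, 4], [0, 1, 1, 1],
   [1, 0, 1, 3]),
  (2, [4, 3, 1, 0], [0, 1, 1, 0],
   [3, 4, 0, 1])]

theorem sp_1_3_2_3 : SSE !![1, 3; 2, 3] !![4, 3; 1, 0] :=
  sse_of_chain_two ch_1_3_2_3 (by decide +kernel)

/-- A chain from `[1, 3; 3, 3]` to `[4, 6; 1, 0]`. -/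
def ch_1_3_3_3 : List (ℕ × List ℕ × List ℕ × List ℕ) := [
  (2, [0, 2, 3, 4], [0, 1, 1, 1],
   [2, 0, 1, 3]),
  (3, [0, 1, 1, 3, 2, 2, 3, 2, 2], [0, 1, 1, 3, 2, 2],
   [1, 0, 0, 1, 0, 1]),
  (2, [0, 1, 6, 4], [0, 1, 3, 2, 3, 2],
   [1, 0, 0, 0, 1, 1]),
  (2, [4, 6, 1, 0], [0, 1, 1, 0],
   [6, 4, 0, 1])]

theorem sp_1_3_3_3 : SSE !![1, 3; 3, 3] !![4, 6; 1, 0] :=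
  sse_of_chain_two ch_1_3_3_3 (by decide +kernel)

/-- A chain from `[1, 4; 2, 3]` to `[1, 2; 4, 3]`. -/
def ch_1_4_2_3 : List (ℕ × List ℕ × List ℕ × List ℕ) := [
  (2, [1, 2, 4, 3], [3, 1, 1, 2],
   [0, 1, 1, 1])]

theorem sp_1_4_2_3 : SSE !![1, 4; 2, 3] !![1, 2; 4, 3] :=
  sse_of_chain_two ch_1_4_2_3 (by decide +kernel)

/-- A chain from `[1, 5; 2, 3]` to `[4, 7; 1, 0]`. -/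
def ch_1_5_2_3 : List (ℕ × List ℕ × List ℕ × List ℕ) := [
  (3, [0, 0, 2, 1, 1, 3, 2, 2, 3], [1, 1, 0, 0, 0, 1],
   [0, 2, 1, 3, 2, 3]),
  (3, [0, 1, 1, 2, 0, 2, 3, 1, 4], [0, 1, 0, 0, 0, 1, 1, 0, 1],
   [1, 1, 0, 0, 0, 2, 1, 1, 3]),
  (3, [0, 1, 2, 1, 2, 3, 2, 2, 2], [1, 0, 0, 0, 0, 1, 0, 1, 1],
   [0, 1, 1, 1, 1, 2, 2, 0, 2]),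
  (3, [1, 2, 1, 1, 1, 2, 2, 4, 2], [0, 1, 0, 1, 1, 0, 0, 0, 1],
   [1, 1, 1, 0, 1, 2, 2, 2, 2]),
  (3, [0, 1, 3, 1, 1, 3, 2, 1, 3], [0, 1, 0, 0, 0, 1, 1, 0, 1],
   [1, 3, 0, 1, 2, 1, 1, 1, 2]),
  (3, [0, 1, 0, 1, 1, 3, 1, 3, 3], [0, 1, 0, 1, 1, 0, 0, 0, 1],
   [1, 0, 0, 0, 1, 3, 2, 1, 3]),
  (3, [0, 0, 1, 0, 0, 2, 1, 3, 4], [1, 0, 0, 0, 0, 1, 0, 1, 1],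
   [0, 1, 0, 0, 2, 0, 1, 1, 3]),
  (3, [0, 0, 1, 0, 0, 1, 3, 4, 4], [0, 1, 0, 1, 1, 0, 0, 0, 1],
   [0, 0, 1, 0, 0, 1, 1, 3, 4]),
  (2, [0, 1, 7, 4], [1, 0, 1, 0, 0, 1],
   [0, 0, 1, 3, 4, 4]),
  (2, [4, 7, 1, 0], [0, 1, 1, 0],
   [7, 4, 0, 1])]

theorem sp_1_5_2_3 : SSE !![1, 5; 2, 3] !![4, 7; 1, 0] :=
  sse_of_chain_two ch_1_5_2_3 (by decide +kernel)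

/-- A chain from `[1, 1; 1, 4]` to `[1, 1; 1, 4]`. -/
def ch_1_1_1_4 : List (ℕ × List ℕ × List ℕ × List ℕ) := [
]

theorem sp_1_1_1_4 : SSE !![1, 1; 1, 4] !![1, 1; 1, 4] :=
  sse_of_chain_two ch_1_1_1_4 (by decide +kernel)

/-- A chain from `[1, 1; 2, 4]` to `[1, 1; 2, 4]`. -/
def ch_1_1_2_4 : List (ℕ × List ℕ × List ℕ × List ℕ) := [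
]

theorem sp_1_1_2_4 : SSE !![1, 1; 2, 4] !![1, 1; 2, 4] :=
  sse_of_chain_two ch_1_1_2_4 (by decide +kernel)

/-- A chain from `[1, 1; 3, 4]` to `[1, 1; 3, 4]`. -/
def ch_1_1_3_4 : List (ℕ × List ℕ × List ℕ × List ℕ) := [
]

theorem sp_1_1_3_4 : SSE !![1, 1; 3, 4] !![1, 1; 3, 4] :=
  sse_of_chain_two ch_1_1_3_4 (by decide +kernel)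

/-- A chain from `[1, 2; 1, 4]` to `[1, 1; 2, 4]`. -/
def ch_1_2_1_4 : List (ℕ × List ℕ × List ℕ × List ℕ) := [
  (2, [2, 2, 2, 3], [0, 1, 1, 1],
   [0, 2, 1, 2]),
  (2, [1, 1, 2, 4], [0, 1, 1, 1],
   [0, 1, 2, 2])]

theorem sp_1_2_1_4 : SSE !![1, 2; 1, 4] !![1, 1; 2, 4] :=
  sse_of_chain_two ch_1_2_1_4 (by decide +kernel)

/-- A chain from `[1, 2; 2, 4]` to `[5, 0; 1, 0]`. -/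
def ch_1_2_2_4 : List (ℕ × List ℕ × List ℕ × List ℕ) := [
  (2, [2, 3, 2, 3], [0, 1, 1, 1],
   [1, 2, 1, 2]),
  (1, [5], [1, 1],
   [2, 3]),
  (2, [0, 1, 0, 5], [0, 1],
   [1, 5]),
  (2, [5, 0, 1, 0], [0, 1, 1, 0],
   [0, 5, 0, 1])]

theorem sp_1_2_2_4 : SSE !![1, 2; 2, 4] !![5, 0; 1, 0] :=
  sse_of_chain_two ch_1_2_2_4 (by decide +kernel)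

/-- A chain from `[1, 2; 3, 4]` to `[5, 2; 1, 0]`. -/
def ch_1_2_3_4 : List (ℕ × List ℕ × List ℕ × List ℕ) := [
  (2, [2, 4, 2, 3], [0, 1, 1, 1],
   [2, 2, 1, 2]),
  (2, [0, 1, 2, 5], [1, 1, 0, 1],
   [0, 1, 2, 3]),
  (2, [5, 2, 1, 0], [0, 1, 1, 0],
   [2, 5, 0, 1])]

theorem sp_1_2_3_4 : SSE !![1, 2; 3, 4] !![5, 2; 1, 0] :=
  sse_of_chain_two ch_1_2_3_4 (by decide +kernel)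

/-- A chain from `[1, 3; 1, 4]` to `[1, 1; 3, 4]`. -/
def ch_1_3_1_4 : List (ℕ × List ℕ × List ℕ × List ℕ) := [
  (2, [1, 1, 3, 4], [0, 1, 1, 1],
   [0, 1, 1, 3])]

theorem sp_1_3_1_4 : SSE !![1, 3; 1, 4] !![1, 1; 3, 4] :=
  sse_of_chain_two ch_1_3_1_4 (by decide +kernel)

/-- A chain from `[1, 3; 2, 4]` to `[5, 2; 1, 0]`. -/
def ch_1_3_2_4 : List (ℕ × List ℕ × List ℕ × List ℕ) := [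
  (2, [1, 2, 3, 4], [0, 1, 1, 1],
   [1, 1, 1, 3]),
  (2, [2, 4, 2, 3], [0, 1, 1, 1],
   [2, 2, 1, 2]),
  (2, [0, 1, 2, 5], [1, 1, 0, 1],
   [0, 1, 2, 3]),
  (2, [5, 2, 1, 0], [0, 1, 1, 0],
   [2, 5, 0, 1])]

theorem sp_1_3_2_4 : SSE !![1, 3; 2, 4] !![5, 2; 1, 0] :=
  sse_of_chain_two ch_1_3_2_4 (by decide +kernel)

/-- A chain from `[1, 1; 1, 5]` to `[1, 1; 1, 5]`. -/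
def ch_1_1_1_5 : List (ℕ × List ℕ × List ℕ × List ℕ) := [
]

theorem sp_1_1_1_5 : SSE !![1, 1; 1, 5] !![1, 1; 1, 5] :=
  sse_of_chain_two ch_1_1_1_5 (by decide +kernel)

/-- A chain from `[1, 1; 2, 5]` to `[1, 1; 2, 5]`. -/
def ch_1_1_2_5 : List (ℕ × List ℕ × List ℕ × List ℕ) := [
]

theorem sp_1_1_2_5 : SSE !![1, 1; 2, 5] !![1, 1; 2, 5] :=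
  sse_of_chain_two ch_1_1_2_5 (by decide +kernel)

/-- A chain from `[1, 2; 1, 5]` to `[1, 1; 2, 5]`. -/
def ch_1_2_1_5 : List (ℕ × List ℕ × List ℕ × List ℕ) := [
  (2, [3, 2, 3, 3], [1, 0, 1, 1],
   [1, 2, 0, 3]),
  (2, [1, 1, 2, 5], [0, 1, 1, 1],
   [0, 1, 3, 2])]

theorem sp_1_2_1_5 : SSE !![1, 2; 1, 5] !![1, 1; 2, 5] :=
  sse_of_chain_two ch_1_2_1_5 (by decide +kernel)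

/-- A chain from `[2, 1; 1, 2]` to `[2, 1; 1, 2]`. -/
def ch_2_1_1_2 : List (ℕ × List ℕ × List ℕ × List ℕ) := [
]

theorem sp_2_1_1_2 : SSE !![2, 1; 1, 2] !![2, 1; 1, 2] :=
  sse_of_chain_two ch_2_1_1_2 (by decide +kernel)

/-- A chain from `[2, 2; 1, 2]` to `[1, 1; 1, 3]`. -/
def ch_2_2_1_2 : List (ℕ × List ℕ × List ℕ × List ℕ) := [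
  (2, [1, 1, 1, 3], [1, 1, 0, 1],
   [1, 0, 1, 2])]

theorem sp_2_2_1_2 : SSE !![2, 2; 1, 2] !![1, 1; 1, 3] :=
  sse_of_chain_two ch_2_2_1_2 (by decide +kernel)

/-- A chain from `[2, 2; 2, 2]` to `[4, 0; 1, 0]`. -/
def ch_2_2_2_2 : List (ℕ × List ℕ × List ℕ × List ℕ) := [
  (1, [4], [2, 2],
   [1, 1]),
  (2, [0, 1, 0, 4], [0, 1],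
   [1, 4]),
  (2, [4, 0, 1, 0], [0, 1, 1, 0],
   [0, 4, 0, 1])]

theorem sp_2_2_2_2 : SSE !![2, 2; 2, 2] !![4, 0; 1, 0] :=
  sse_of_chain_two ch_2_2_2_2 (by decide +kernel)

/-- A chain from `[2, 3; 1, 2]` to `[1, 1; 2, 3]`. -/
def ch_2_3_1_2 : List (ℕ × List ℕ × List ℕ × List ℕ) := [
  (2, [1, 1, 2, 3], [1, 2, 1, 1],
   [0, 1, 1, 1])]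

theorem sp_2_3_1_2 : SSE !![2, 3; 1, 2] !![1, 1; 2, 3] :=
  sse_of_chain_two ch_2_3_1_2 (by decide +kernel)

/-- A chain from `[2, 3; 2, 2]` to `[4, 2; 1, 0]`. -/
def ch_2_3_2_2 : List (ℕ × List ℕ × List ℕ × List ℕ) := [
  (2, [0, 1, 2, 4], [1, 1, 0, 1],
   [0, 1, 2, 2]),
  (2, [4, 2, 1, 0], [0, 1, 1, 0],
   [2, 4, 0, 1])]

theorem sp_2_3_2_2 : SSE !![2, 3; 2, 2] !![4, 2; 1, 0] :=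
  sse_of_chain_two ch_2_3_2_2 (by decide +kernel)

/-- A chain from `[2, 3; 3, 2]` to `[2, 3; 3, 2]`. -/
def ch_2_3_3_2 : List (ℕ × List ℕ × List ℕ × List ℕ) := [
]

theorem sp_2_3_3_2 : SSE !![2, 3; 3, 2] !![2, 3; 3, 2] :=
  sse_of_chain_two ch_2_3_3_2 (by decide +kernel)

/-- A chain from `[2, 4; 2, 2]` to `[4, 4; 1, 0]`. -/
def ch_2_4_2_2 : List (ℕ × List ℕ × List ℕ × List ℕ) := [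
  (2, [0, 2, 2, 4], [1, 1, 0, 1],
   [0, 2, 2, 2]),
  (3, [0, 0, 1, 0, 0, 1, 2, 2, 4], [1, 1, 0, 0, 0, 1],
   [0, 1, 0, 1, 2, 4]),
  (2, [0, 1, 4, 4], [1, 0, 1, 0, 0, 1],
   [0, 0, 1, 2, 2, 4]),
  (2, [4, 4, 1, 0], [0, 1, 1, 0],
   [4, 4, 0, 1])]

theorem sp_2_4_2_2 : SSE !![2, 4; 2, 2] !![4, 4; 1, 0] :=
  sse_of_chain_two ch_2_4_2_2 (by decide +kernel)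

/-- A chain from `[2, 4; 3, 2]` to `[4, 8; 1, 0]`. -/
def ch_2_4_3_2 : List (ℕ × List ℕ × List ℕ × List ℕ) := [
  (3, [1, 1, 3, 1, 1, 3, 2, 2, 2], [2, 2, 2, 1, 1, 3],
   [0, 1, 0, 1, 1, 0]),
  (2, [2, 2, 6, 2], [3, 1, 3, 1, 2, 2],
   [0, 0, 1, 1, 1, 0]),
  (2, [0, 4, 2, 4], [0, 1, 1, 1],
   [4, 0, 2, 2]),
  (3, [0, 0, 1, 0, 0, 3, 2, 2, 4], [1, 1, 0, 0, 0, 1],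
   [0, 1, 0, 3, 2, 4]),
  (3, [0, 0, 1, 0, 0, 2, 4, 2, 4], [1, 0, 0, 1, 1, 0, 0, 0, 1],
   [0, 0, 1, 0, 0, 2, 2, 2, 4]),
  (3, [0, 0, 1, 0, 0, 1, 2, 6, 4], [0, 1, 0, 1, 1, 0, 0, 0, 1],
   [0, 0, 1, 0, 0, 1, 4, 2, 4]),
  (2, [0, 1, 8, 4], [1, 0, 1, 0, 0, 1],
   [0, 0, 1, 2, 6, 4]),
  (2, [4, 8, 1, 0], [0, 1, 1, 0],
   [8, 4, 0, 1])]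

theorem sp_2_4_3_2 : SSE !![2, 4; 3, 2] !![4, 8; 1, 0] :=
  sse_of_chain_two ch_2_4_3_2 (by decide +kernel)

/-- A chain from `[2, 5; 2, 2]` to `[4, 6; 1, 0]`. -/
def ch_2_5_2_2 : List (ℕ × List ℕ × List ℕ × List ℕ) := [
  (2, [0, 2, 3, 4], [3, 2, 0, 2],
   [0, 1, 1, 1]),
  (3, [0, 1, 1, 3, 2, 2, 3, 2, 2], [0, 1, 1, 3, 2, 2],
   [1, 0, 0, 1, 0, 1]),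
  (2, [0, 1, 6, 4], [0, 1, 3, 2, 3, 2],
   [1, 0, 0, 0, 1, 1]),
  (2, [4, 6, 1, 0], [0, 1, 1, 0],
   [6, 4, 0, 1])]

theorem sp_2_5_2_2 : SSE !![2, 5; 2, 2] !![4, 6; 1, 0] :=
  sse_of_chain_two ch_2_5_2_2 (by decide +kernel)

/-- A chain from `[2, 6; 2, 2]` to `[4, 8; 1, 0]`. -/
def ch_2_6_2_2 : List (ℕ × List ℕ × List ℕ × List ℕ) := [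
  (2, [0, 2, 4, 4], [4, 2, 0, 2],
   [0, 1, 1, 1]),
  (3, [0, 1, 1, 4, 2, 2, 4, 2, 2], [0, 1, 1, 4, 2, 2],
   [1, 0, 0, 1, 0, 1]),
  (2, [0, 1, 8, 4], [0, 1, 4, 2, 4, 2],
   [1, 0, 0, 0, 1, 1]),
  (2, [4, 8, 1, 0], [0, 1, 1, 0],
   [8, 4, 0, 1])]

theorem sp_2_6_2_2 : SSE !![2, 6; 2, 2] !![4, 8; 1, 0] :=
  sse_of_chain_two ch_2_6_2_2 (by decide +kernel)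

/-- A chain from `[2, 1; 1, 3]` to `[2, 1; 1, 3]`. -/
def ch_2_1_1_3 : List (ℕ × List ℕ × List ℕ × List ℕ) := [
]

theorem sp_2_1_1_3 : SSE !![2, 1; 1, 3] !![2, 1; 1, 3] :=
  sse_of_chain_two ch_2_1_1_3 (by decide +kernel)

/-- A chain from `[2, 1; 2, 3]` to `[2, 1; 2, 3]`. -/
def ch_2_1_2_3 : List (ℕ × List ℕ × List ℕ × List ℕ) := [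
]

theorem sp_2_1_2_3 : SSE !![2, 1; 2, 3] !![2, 1; 2, 3] :=
  sse_of_chain_two ch_2_1_2_3 (by decide +kernel)

/-- A chain from `[2, 1; 3, 3]` to `[1, 1; 1, 4]`. -/
def ch_2_1_3_3 : List (ℕ × List ℕ × List ℕ × List ℕ) := [
  (2, [1, 1, 1, 4], [1, 1, 0, 3],
   [1, 0, 1, 1])]

theorem sp_2_1_3_3 : SSE !![2, 1; 3, 3] !![1, 1; 1, 4] :=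
  sse_of_chain_two ch_2_1_3_3 (by decide +kernel)

/-- A chain from `[2, 1; 4, 3]` to `[1, 1; 2, 4]`. -/
def ch_2_1_4_3 : List (ℕ × List ℕ × List ℕ × List ℕ) := [
  (2, [1, 1, 2, 4], [1, 1, 1, 3],
   [1, 0, 1, 1])]

theorem sp_2_1_4_3 : SSE !![2, 1; 4, 3] !![1, 1; 2, 4] :=
  sse_of_chain_two ch_2_1_4_3 (by decide +kernel)

/-- A chain from `[2, 1; 5, 3]` to `[1, 1; 3, 4]`. -/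
def ch_2_1_5_3 : List (ℕ × List ℕ × List ℕ × List ℕ) := [
  (2, [1, 1, 3, 4], [1, 1, 2, 3],
   [1, 0, 1, 1])]

theorem sp_2_1_5_3 : SSE !![2, 1; 5, 3] !![1, 1; 3, 4] :=
  sse_of_chain_two ch_2_1_5_3 (by decide +kernel)

/-- A chain from `[2, 2; 1, 3]` to `[2, 1; 2, 3]`. -/
def ch_2_2_1_3 : List (ℕ × List ℕ × List ℕ × List ℕ) := [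
  (2, [2, 1, 2, 3], [0, 2, 2, 1],
   [0, 1, 1, 1])]

theorem sp_2_2_1_3 : SSE !![2, 2; 1, 3] !![2, 1; 2, 3] :=
  sse_of_chain_two ch_2_2_1_3 (by decide +kernel)

/-- A chain from `[2, 2; 2, 3]` to `[1, 1; 2, 4]`. -/
def ch_2_2_2_3 : List (ℕ × List ℕ × List ℕ × List ℕ) := [
  (2, [1, 1, 2, 4], [0, 1, 1, 1],
   [0, 1, 2, 2])]

theorem sp_2_2_2_3 : SSE !![2, 2; 2, 3] !![1, 1; 2, 4] :=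
  sse_of_chain_two ch_2_2_2_3 (by decide +kernel)

/-- A chain from `[2, 2; 3, 3]` to `[5, 0; 1, 0]`. -/
def ch_2_2_3_3 : List (ℕ × List ℕ × List ℕ × List ℕ) := [
  (1, [5], [2, 3],
   [1, 1]),
  (2, [0, 1, 0, 5], [0, 1],
   [1, 5]),
  (2, [5, 0, 1, 0], [0, 1, 1, 0],
   [0, 5, 0, 1])]

theorem sp_2_2_3_3 : SSE !![2, 2; 3, 3] !![5, 0; 1, 0] :=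
  sse_of_chain_two ch_2_2_3_3 (by decide +kernel)

/-- A chain from `[2, 2; 4, 3]` to `[5, 2; 1, 0]`. -/
def ch_2_2_4_3 : List (ℕ × List ℕ × List ℕ × List ℕ) := [
  (2, [1, 3, 2, 4], [0, 1, 1, 1],
   [2, 1, 2, 2]),
  (2, [1, 2, 3, 4], [0, 1, 1, 1],
   [1, 1, 1, 3]),
  (2, [2, 4, 2, 3], [0, 1, 1, 1],
   [2, 2, 1, 2]),
  (2, [0, 1, 2, 5], [1, 1, 0, 1],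
   [0, 1, 2, 3]),
  (2, [5, 2, 1, 0], [0, 1, 1, 0],
   [2, 5, 0, 1])]

theorem sp_2_2_4_3 : SSE !![2, 2; 4, 3] !![5, 2; 1, 0] :=
  sse_of_chain_two ch_2_2_4_3 (by decide +kernel)

/-- A chain from `[2, 3; 1, 3]` to `[1, 1; 1, 4]`. -/
def ch_2_3_1_3 : List (ℕ × List ℕ × List ℕ × List ℕ) := [
  (2, [1, 1, 1, 4], [1, 1, 0, 1],
   [1, 0, 1, 3])]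

theorem sp_2_3_1_3 : SSE !![2, 3; 1, 3] !![1, 1; 1, 4] :=
  sse_of_chain_two ch_2_3_1_3 (by decide +kernel)

/-- A chain from `[2, 3; 2, 3]` to `[5, 0; 1, 0]`. -/
def ch_2_3_2_3 : List (ℕ × List ℕ × List ℕ × List ℕ) := [
  (1, [5], [1, 1],
   [2, 3]),
  (2, [0, 1, 0, 5], [0, 1],
   [1, 5]),
  (2, [5, 0, 1, 0], [0, 1, 1, 0],
   [0, 5, 0, 1])]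

theorem sp_2_3_2_3 : SSE !![2, 3; 2, 3] !![5, 0; 1, 0] :=
  sse_of_chain_two ch_2_3_2_3 (by decide +kernel)

/-- A chain from `[2, 4; 1, 3]` to `[1, 1; 2, 4]`. -/
def ch_2_4_1_3 : List (ℕ × List ℕ × List ℕ × List ℕ) := [
  (2, [1, 2, 1, 4], [1, 1, 0, 1],
   [1, 1, 1, 3]),
  (2, [2, 2, 2, 3], [0, 1, 1, 1],
   [0, 2, 1, 2]),
  (2, [1, 1, 2, 4], [0, 1, 1, 1],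
   [0, 1, 2, 2])]

theorem sp_2_4_1_3 : SSE !![2, 4; 1, 3] !![1, 1; 2, 4] :=
  sse_of_chain_two ch_2_4_1_3 (by decide +kernel)

/-- A chain from `[2, 4; 2, 3]` to `[5, 2; 1, 0]`. -/
def ch_2_4_2_3 : List (ℕ × List ℕ × List ℕ × List ℕ) := [
  (2, [0, 1, 2, 5], [1, 1, 0, 1],
   [0, 1, 2, 3]),
  (2, [5, 2, 1, 0], [0, 1, 1, 0],
   [2, 5, 0, 1])]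

theorem sp_2_4_2_3 : SSE !![2, 4; 2, 3] !![5, 2; 1, 0] :=
  sse_of_chain_two ch_2_4_2_3 (by decide +kernel)

/-- A chain from `[2, 5; 1, 3]` to `[1, 1; 3, 4]`. -/
def ch_2_5_1_3 : List (ℕ × List ℕ × List ℕ × List ℕ) := [
  (2, [1, 3, 1, 4], [1, 1, 0, 1],
   [1, 2, 1, 3]),
  (2, [1, 1, 3, 4], [0, 1, 1, 1],
   [0, 1, 1, 3])]

theorem sp_2_5_1_3 : SSE !![2, 5; 1, 3] !![1, 1; 3, 4] :=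
  sse_of_chain_two ch_2_5_1_3 (by decide +kernel)

/-- A chain from `[2, 1; 1, 4]` to `[2, 1; 1, 4]`. -/
def ch_2_1_1_4 : List (ℕ × List ℕ × List ℕ × List ℕ) := [
]

theorem sp_2_1_1_4 : SSE !![2, 1; 1, 4] !![2, 1; 1, 4] :=
  sse_of_chain_two ch_2_1_1_4 (by decide +kernel)

/-- A chain from `[2, 1; 2, 4]` to `[2, 1; 2, 4]`. -/
def ch_2_1_2_4 : List (ℕ × List ℕ × List ℕ × List ℕ) := [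
]

theorem sp_2_1_2_4 : SSE !![2, 1; 2, 4] !![2, 1; 2, 4] :=
  sse_of_chain_two ch_2_1_2_4 (by decide +kernel)

/-- A chain from `[2, 1; 3, 4]` to `[2, 1; 3, 4]`. -/
def ch_2_1_3_4 : List (ℕ × List ℕ × List ℕ × List ℕ) := [
]

theorem sp_2_1_3_4 : SSE !![2, 1; 3, 4] !![2, 1; 3, 4] :=
  sse_of_chain_two ch_2_1_3_4 (by decide +kernel)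

/-- A chain from `[2, 1; 4, 4]` to `[1, 1; 1, 5]`. -/
def ch_2_1_4_4 : List (ℕ × List ℕ × List ℕ × List ℕ) := [
  (2, [1, 1, 1, 5], [1, 1, 0, 4],
   [1, 0, 1, 1])]

theorem sp_2_1_4_4 : SSE !![2, 1; 4, 4] !![1, 1; 1, 5] :=
  sse_of_chain_two ch_2_1_4_4 (by decide +kernel)

/-- A chain from `[2, 1; 5, 4]` to `[1, 1; 2, 5]`. -/
def ch_2_1_5_4 : List (ℕ × List ℕ × List ℕ × List ℕ) := [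
  (2, [1, 1, 2, 5], [1, 1, 1, 4],
   [1, 0, 1, 1])]

theorem sp_2_1_5_4 : SSE !![2, 1; 5, 4] !![1, 1; 2, 5] :=
  sse_of_chain_two ch_2_1_5_4 (by decide +kernel)

/-- A chain from `[2, 2; 1, 4]` to `[2, 1; 2, 4]`. -/
def ch_2_2_1_4 : List (ℕ × List ℕ × List ℕ × List ℕ) := [
  (2, [3, 1, 3, 3], [0, 2, 3, 1],
   [0, 1, 1, 1]),
  (2, [2, 1, 2, 4], [2, 1, 0, 3],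
   [1, 0, 1, 1])]

theorem sp_2_2_1_4 : SSE !![2, 2; 1, 4] !![2, 1; 2, 4] :=
  sse_of_chain_two ch_2_2_1_4 (by decide +kernel)

/-- A chain from `[2, 2; 2, 4]` to `[1, 1; 1, 5]`. -/
def ch_2_2_2_4 : List (ℕ × List ℕ × List ℕ × List ℕ) := [
  (3, [2, 1, 1, 2, 2, 2, 2, 2, 2], [2, 1, 1, 2, 2, 2],
   [1, 0, 0, 1, 0, 1]),
  (2, [2, 1, 4, 4], [2, 1, 2, 2, 2, 2],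
   [1, 0, 0, 0, 1, 1]),
  (2, [1, 1, 1, 5], [1, 1, 0, 4],
   [1, 0, 1, 1])]

theorem sp_2_2_2_4 : SSE !![2, 2; 2, 4] !![1, 1; 1, 5] :=
  sse_of_chain_two ch_2_2_2_4 (by decide +kernel)

/-- A chain from `[2, 3; 1, 4]` to `[2, 1; 3, 4]`. -/
def ch_2_3_1_4 : List (ℕ × List ℕ × List ℕ × List ℕ) := [
  (2, [3, 1, 4, 3], [1, 2, 3, 1],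
   [0, 1, 1, 1]),
  (2, [2, 1, 3, 4], [2, 1, 1, 3],
   [1, 0, 1, 1])]

theorem sp_2_3_1_4 : SSE !![2, 3; 1, 4] !![2, 1; 3, 4] :=
  sse_of_chain_two ch_2_3_1_4 (by decide +kernel)

/-- A chain from `[2, 4; 1, 4]` to `[1, 1; 1, 5]`. -/
def ch_2_4_1_4 : List (ℕ × List ℕ × List ℕ × List ℕ) := [
  (2, [1, 1, 1, 5], [1, 1, 0, 1],
   [1, 0, 1, 4])]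

theorem sp_2_4_1_4 : SSE !![2, 4; 1, 4] !![1, 1; 1, 5] :=
  sse_of_chain_two ch_2_4_1_4 (by decide +kernel)

/-- A chain from `[2, 5; 1, 4]` to `[1, 1; 2, 5]`. -/
def ch_2_5_1_4 : List (ℕ × List ℕ × List ℕ × List ℕ) := [
  (2, [1, 2, 1, 5], [1, 1, 0, 1],
   [1, 1, 1, 4]),
  (2, [3, 2, 3, 3], [1, 0, 1, 1],
   [1, 2, 0, 3]),
  (2, [1, 1, 2, 5], [0, 1, 1, 1],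
   [0, 1, 3, 2])]

theorem sp_2_5_1_4 : SSE !![2, 5; 1, 4] !![1, 1; 2, 5] :=
  sse_of_chain_two ch_2_5_1_4 (by decide +kernel)

/-- A chain from `[2, 1; 1, 5]` to `[2, 1; 1, 5]`. -/
def ch_2_1_1_5 : List (ℕ × List ℕ × List ℕ × List ℕ) := [
]

theorem sp_2_1_1_5 : SSE !![2, 1; 1, 5] !![2, 1; 1, 5] :=
  sse_of_chain_two ch_2_1_1_5 (by decide +kernel)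

/-- A chain from `[3, 1; 1, 3]` to `[3, 1; 1, 3]`. -/
def ch_3_1_1_3 : List (ℕ × List ℕ × List ℕ × List ℕ) := [
]

theorem sp_3_1_1_3 : SSE !![3, 1; 1, 3] !![3, 1; 1, 3] :=
  sse_of_chain_two ch_3_1_1_3 (by decide +kernel)

/-- A chain from `[3, 2; 1, 3]` to `[2, 1; 1, 4]`. -/
def ch_3_2_1_3 : List (ℕ × List ℕ × List ℕ × List ℕ) := [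
  (3, [1, 1, 0, 2, 2, 1, 2, 2, 3], [0, 0, 1, 1, 1, 0],
   [0, 1, 1, 2, 3, 2]),
  (3, [1, 2, 1, 1, 2, 0, 2, 4, 3], [0, 1, 0, 1, 1, 0, 0, 0, 1],
   [1, 1, 1, 1, 1, 0, 2, 2, 3]),
  (3, [1, 1, 1, 1, 2, 0, 3, 3, 3], [1, 1, 1, 1, 2, 0, 2, 1, 3],
   [1, 0, 0, 0, 1, 0, 0, 1, 1]),
  (3, [1, 1, 0, 1, 2, 1, 0, 3, 3], [0, 1, 1, 1, 1, 0, 0, 3, 3],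
   [0, 1, 0, 1, 1, 0, 0, 0, 1]),
  (3, [1, 1, 0, 1, 1, 1, 1, 1, 4], [1, 1, 0, 1, 1, 1, 0, 0, 3],
   [1, 0, 0, 0, 1, 0, 0, 1, 1]),
  (2, [2, 1, 1, 4], [1, 0, 1, 1, 1, 4],
   [1, 1, 0, 0, 0, 1])]

theorem sp_3_2_1_3 : SSE !![3, 2; 1, 3] !![2, 1; 1, 4] :=
  sse_of_chain_two ch_3_2_1_3 (by decide +kernel)

/-- A chain from `[3, 2; 2, 3]` to `[3, 2; 2, 3]`. -/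
def ch_3_2_2_3 : List (ℕ × List ℕ × List ℕ × List ℕ) := [
]

theorem sp_3_2_2_3 : SSE !![3, 2; 2, 3] !![3, 2; 2, 3] :=
  sse_of_chain_two ch_3_2_2_3 (by decide +kernel)

/-- A chain from `[3, 3; 1, 3]` to `[2, 1; 2, 4]`. -/
def ch_3_3_1_3 : List (ℕ × List ℕ × List ℕ × List ℕ) := [
  (2, [2, 1, 2, 4], [0, 3, 2, 1],
   [0, 1, 1, 1])]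

theorem sp_3_3_1_3 : SSE !![3, 3; 1, 3] !![2, 1; 2, 4] :=
  sse_of_chain_two ch_3_3_1_3 (by decide +kernel)

/-- A chain from `[3, 3; 2, 3]` to `[1, 1; 2, 5]`. -/
def ch_3_3_2_3 : List (ℕ × List ℕ × List ℕ × List ℕ) := [
  (2, [1, 1, 2, 5], [1, 1, 0, 1],
   [1, 0, 2, 3])]

theorem sp_3_3_2_3 : SSE !![3, 3; 2, 3] !![1, 1; 2, 5] :=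
  sse_of_chain_two ch_3_3_2_3 (by decide +kernel)

/-- A chain from `[3, 4; 1, 3]` to `[2, 1; 3, 4]`. -/
def ch_3_4_1_3 : List (ℕ × List ℕ × List ℕ × List ℕ) := [
  (2, [2, 1, 3, 4], [1, 3, 2, 1],
   [0, 1, 1, 1])]

theorem sp_3_4_1_3 : SSE !![3, 4; 1, 3] !![2, 1; 3, 4] :=
  sse_of_chain_two ch_3_4_1_3 (by decide +kernel)

/-- A chain from `[3, 5; 1, 3]` to `[1, 1; 1, 5]`. -/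
def ch_3_5_1_3 : List (ℕ × List ℕ × List ℕ × List ℕ) := [
  (2, [2, 1, 4, 4], [2, 3, 2, 1],
   [0, 1, 1, 1]),
  (2, [1, 1, 1, 5], [1, 1, 0, 4],
   [1, 0, 1, 1])]

theorem sp_3_5_1_3 : SSE !![3, 5; 1, 3] !![1, 1; 1, 5] :=
  sse_of_chain_two ch_3_5_1_3 (by decide +kernel)

/-- A chain from `[3, 6; 1, 3]` to `[1, 1; 2, 5]`. -/
def ch_3_6_1_3 : List (ℕ × List ℕ × List ℕ × List ℕ) := [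
  (2, [2, 1, 5, 4], [3, 3, 2, 1],
   [0, 1, 1, 1]),
  (2, [1, 1, 2, 5], [1, 1, 1, 4],
   [1, 0, 1, 1])]

theorem sp_3_6_1_3 : SSE !![3, 6; 1, 3] !![1, 1; 2, 5] :=
  sse_of_chain_two ch_3_6_1_3 (by decide +kernel)

/-- A chain from `[3, 1; 1, 4]` to `[3, 1; 1, 4]`. -/
def ch_3_1_1_4 : List (ℕ × List ℕ × List ℕ × List ℕ) := [
]

theorem sp_3_1_1_4 : SSE !![3, 1; 1, 4] !![3, 1; 1, 4] :=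
  sse_of_chain_two ch_3_1_1_4 (by decide +kernel)

/-- A chain from `[3, 1; 2, 4]` to `[3, 1; 2, 4]`. -/
def ch_3_1_2_4 : List (ℕ × List ℕ × List ℕ × List ℕ) := [
]

theorem sp_3_1_2_4 : SSE !![3, 1; 2, 4] !![3, 1; 2, 4] :=
  sse_of_chain_two ch_3_1_2_4 (by decide +kernel)

/-- A chain from `[3, 1; 3, 4]` to `[2, 1; 1, 5]`. -/
def ch_3_1_3_4 : List (ℕ × List ℕ × List ℕ × List ℕ) := [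
  (3, [1, 2, 1, 1, 2, 1, 2, 1, 4], [1, 2, 1, 2, 1, 4],
   [1, 0, 1, 0, 0, 1]),
  (3, [2, 0, 1, 1, 2, 2, 3, 2, 3], [2, 0, 1, 2, 0, 1, 1, 2, 2],
   [0, 1, 0, 0, 0, 1, 1, 0, 1]),
  (3, [1, 3, 2, 1, 2, 0, 1, 4, 4], [1, 2, 0, 0, 1, 2, 1, 3, 2],
   [0, 0, 1, 1, 0, 0, 0, 1, 1]),
  (3, [1, 1, 2, 1, 2, 0, 2, 2, 4], [1, 1, 2, 1, 2, 0, 1, 0, 4],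
   [1, 0, 0, 0, 1, 0, 0, 1, 1]),
  (3, [2, 0, 1, 1, 2, 3, 1, 2, 3], [0, 0, 1, 1, 0, 0, 0, 1, 1],
   [1, 2, 0, 1, 1, 2, 1, 1, 2]),
  (2, [2, 1, 1, 5], [1, 0, 0, 1, 0, 1],
   [2, 0, 1, 1, 2, 3])]

theorem sp_3_1_3_4 : SSE !![3, 1; 3, 4] !![2, 1; 1, 5] :=
  sse_of_chain_two ch_3_1_3_4 (by decide +kernel)

/-- A chain from `[3, 2; 1, 4]` to `[3, 1; 2, 4]`. -/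
def ch_3_2_1_4 : List (ℕ × List ℕ × List ℕ × List ℕ) := [
  (3, [2, 2, 1, 2, 2, 1, 1, 1, 3], [1, 1, 3, 2, 2, 1],
   [0, 1, 0, 1, 1, 0]),
  (2, [3, 1, 2, 4], [1, 2, 1, 2, 3, 1],
   [0, 0, 1, 1, 1, 0])]

theorem sp_3_2_1_4 : SSE !![3, 2; 1, 4] !![3, 1; 2, 4] :=
  sse_of_chain_two ch_3_2_1_4 (by decide +kernel)

/-- A chain from `[3, 3; 1, 4]` to `[2, 1; 1, 5]`. -/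
def ch_3_3_1_4 : List (ℕ × List ℕ × List ℕ × List ℕ) := [
  (3, [1, 1, 2, 2, 2, 1, 1, 1, 4], [1, 1, 0, 0, 0, 1],
   [1, 2, 2, 1, 1, 4]),
  (3, [2, 0, 2, 1, 2, 3, 2, 1, 3], [0, 0, 1, 0, 1, 0, 1, 0, 1],
   [0, 0, 2, 2, 2, 1, 1, 1, 2]),
  (3, [1, 1, 1, 3, 2, 4, 2, 0, 4], [0, 0, 1, 0, 1, 0, 1, 0, 1],
   [0, 1, 1, 1, 2, 3, 2, 0, 2]),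
  (3, [1, 1, 2, 1, 2, 2, 2, 0, 4], [1, 0, 0, 0, 1, 1, 0, 0, 1],
   [1, 1, 1, 1, 2, 0, 2, 0, 4]),
  (3, [2, 1, 1, 0, 2, 2, 1, 3, 3], [1, 1, 1, 2, 1, 1, 0, 2, 2],
   [0, 1, 0, 0, 0, 1, 1, 0, 1]),
  (2, [2, 1, 1, 5], [2, 1, 0, 2, 1, 3],
   [1, 0, 0, 0, 1, 1])]

theorem sp_3_3_1_4 : SSE !![3, 3; 1, 4] !![2, 1; 1, 5] :=
  sse_of_chain_two ch_3_3_1_4 (by decide +kernel)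

/-- A chain from `[3, 1; 1, 5]` to `[3, 1; 1, 5]`. -/
def ch_3_1_1_5 : List (ℕ × List ℕ × List ℕ × List ℕ) := [
]

theorem sp_3_1_1_5 : SSE !![3, 1; 1, 5] !![3, 1; 1, 5] :=
  sse_of_chain_two ch_3_1_1_5 (by decide +kernel)

/-- A chain from `[4, 1; 1, 4]` to `[4, 1; 1, 4]`. -/
def ch_4_1_1_4 : List (ℕ × List ℕ × List ℕ × List ℕ) := [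
]

theorem sp_4_1_1_4 : SSE !![4, 1; 1, 4] !![4, 1; 1, 4] :=
  sse_of_chain_two ch_4_1_1_4 (by decide +kernel)

/-- A chain from `[4, 2; 1, 4]` to `[3, 1; 1, 5]`. -/
def ch_4_2_1_4 : List (ℕ × List ℕ × List ℕ × List ℕ) := [
  (3, [1, 1, 0, 3, 3, 1, 2, 2, 4], [0, 0, 1, 1, 1, 0],
   [0, 1, 1, 3, 4, 2]),
  (3, [2, 1, 0, 4, 2, 1, 4, 2, 4], [1, 0, 0, 1, 1, 0, 0, 0, 1],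
   [1, 1, 0, 2, 2, 1, 2, 2, 4]),
  (3, [2, 1, 0, 3, 2, 1, 2, 3, 4], [2, 1, 0, 3, 2, 1, 0, 2, 4],
   [1, 0, 0, 0, 1, 0, 1, 0, 1]),
  (3, [1, 2, 1, 1, 3, 0, 3, 5, 4], [0, 1, 0, 1, 1, 0, 0, 0, 1],
   [1, 1, 1, 2, 1, 0, 2, 3, 4]),
  (3, [1, 1, 1, 1, 3, 0, 4, 4, 4], [1, 1, 1, 1, 3, 0, 3, 1, 4],
   [1, 0, 0, 0, 1, 0, 0, 1, 1]),
  (3, [2, 1, 0, 2, 2, 1, 0, 4, 4], [0, 1, 1, 2, 1, 0, 0, 4, 4],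
   [0, 1, 0, 1, 1, 0, 0, 0, 1]),
  (3, [1, 2, 1, 1, 2, 0, 1, 2, 5], [1, 2, 0, 1, 2, 1, 0, 0, 4],
   [0, 1, 0, 1, 0, 0, 0, 1, 1]),
  (3, [1, 1, 0, 2, 2, 1, 1, 1, 5], [1, 1, 1, 1, 1, 0, 1, 1, 5],
   [0, 1, 0, 1, 1, 0, 0, 0, 1]),
  (2, [3, 1, 1, 5], [1, 0, 2, 1, 1, 5],
   [1, 1, 0, 0, 0, 1])]

theorem sp_4_2_1_4 : SSE !![4, 2; 1, 4] !![3, 1; 1, 5] :=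
  sse_of_chain_two ch_4_2_1_4 (by decide +kernel)

end Pool.Agent.X315.SF
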