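import Pool.Agent.X315.SF.Main

set_option autoImplicit false

/-!
# Irreducible `2 × 2` matrices with small spectral radius: the theorem
-/

namespace Pool.Agent.X315.SF

open Matrix

/-- The matrix with entries in a semiring. -/
def castM (k : Type) [Semiring k] {n m : ℕ} (A : Matrix (Fin n) (Fin m) ℕ) :
    Matrix (Fin n) (Fin m) k := A.map (Nat.cast : ℕ → k)

theorem castM_mul {n m p : ℕ} (A : Matrix (Fin n) (Fin m) ℕ) (B : Matrix (Fin m) (Fin p) ℕ) :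
    (A * B).map (Nat.cast : ℕ → ℤ) = A.map (Nat.cast : ℕ → ℤ) * B.map (Nat.cast : ℕ → ℤ) := by
  ext i j
  simp [Matrix.mul_apply]

theorem castM_pow {n : ℕ} (A : Matrix (Fin n) (Fin n) ℕ) (l : ℕ) :
    (A ^ l).map (Nat.cast : ℕ → ℤ) = (A.map (Nat.cast : ℕ → ℤ)) ^ l := by
  induction l with
  | zero => ext i j; simp [Matrix.one_apply]
  | succ l ih => rw [pow_succ, pow_succ, castM_mul, ih]

theorem seZ_of_seN {n m : ℕ} {A : Matrix (Fin n) (Fin n) ℕ} {B : Matrix (Fin m) (Fin m) ℕ}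
    (h : SE ℕ A B) : SE ℤ (A.map (Nat.cast : ℕ → ℤ)) (B.map (Nat.cast : ℕ → ℤ)) := by
  obtain ⟨l, hl, R, S, h1, h2, h3, h4⟩ := h
  refine ⟨l, hl, R.map (Nat.cast : ℕ → ℤ), S.map (Nat.cast : ℕ → ℤ), ?_, ?_, ?_, ?_⟩
  · rw [← castM_pow, h1, castM_mul]
  · rw [← castM_pow, h2, castM_mul]
  · rw [← castM_mul, h3, castM_mul]
  · rw [← castM_mul, h4, castM_mul]

/-- Shift equivalence for pairs. -/
def SEp (X Y : Σ n : ℕ, Matrix (Fin n) (Fin n) ℕ) : Prop := SE ℕ X.2 Y.2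

theorem SEp.of_elem {X Y : Σ n : ℕ, Matrix (Fin n) (Fin n) ℕ} (h : Elem X Y) : SEp X Y := by
  obtain ⟨R, S, h1, h2⟩ := h
  refine ⟨1, le_rfl, R, S, ?_, ?_, ?_, ?_⟩
  · rw [pow_one, h1]
  · rw [pow_one, h2]
  · rw [h1, h2, Matrix.mul_assoc]
  · rw [h1, h2, Matrix.mul_assoc]

theorem pow_mul_comm_of {n m : ℕ} {A : Matrix (Fin n) (Fin n) ℕ} {B : Matrix (Fin m) (Fin m) ℕ}
    {R : Matrix (Fin n) (Fin m) ℕ} (h : A * R = R * B) (l : ℕ) : A ^ l * R = R * B ^ l := by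
  induction l with
  | zero => simp
  | succ l ih => rw [pow_succ, pow_succ', Matrix.mul_assoc, h, ← Matrix.mul_assoc, ih,
      Matrix.mul_assoc, ← pow_succ, ← pow_succ']

theorem SEp.trans {X Y Z : Σ n : ℕ, Matrix (Fin n) (Fin n) ℕ} (h : SEp X Y) (h' : SEp Y Z) :
    SEp X Z := by
  obtain ⟨l, hl, R, S, h1, h2, h3, h4⟩ := h
  obtain ⟨l', hl', R', S', h1', h2', h3', h4'⟩ := h'
  refine ⟨l' + l, by omega, R * R', S' * S, ?_, ?_, ?_, ?_⟩
  · calc X.2 ^ (l' + l) = X.2 ^ l' * X.2 ^ l := pow_add _ _ _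
      _ = (X.2 ^ l' * R) * S := by rw [h1, Matrix.mul_assoc]
      _ = R * Y.2 ^ l' * S := by rw [pow_mul_comm_of h3]
      _ = R * R' * (S' * S) := by rw [h1']; simp only [Matrix.mul_assoc]
  · calc Z.2 ^ (l' + l) = Z.2 ^ l' * Z.2 ^ l := pow_add _ _ _
      _ = S' * (R' * Z.2 ^ l) := by rw [h2', Matrix.mul_assoc]
      _ = S' * (Y.2 ^ l * R') := by rw [pow_mul_comm_of h3']
      _ = S' * S * (R * R') := by rw [h2]; simp only [Matrix.mul_assoc]
  · rw [← Matrix.mul_assoc, h3, Matrix.mul_assoc, h3', Matrix.mul_assoc]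
  · rw [Matrix.mul_assoc, h4, ← Matrix.mul_assoc, h4', Matrix.mul_assoc]

theorem se_of_sse {n m : ℕ} {A : Matrix (Fin n) (Fin n) ℕ} {B : Matrix (Fin m) (Fin m) ℕ}
    (h : SSE A B) : SE ℕ A B := by
  have : SEp ⟨n, A⟩ ⟨m, B⟩ := by
    have h' : Relation.TransGen Elem ⟨n, A⟩ ⟨m, B⟩ := h
    have key : ∀ X Y, Relation.TransGen Elem X Y → SEp X Y := by
      intro X Y hXY
      induction hXY with
      | single h1 => exact SEp.of_elem h1
      | tail _ h1 ih => exact ih.trans (SEp.of_elem h1)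
    exact key _ _ h'
  exact this

/-- Two irreducible matrices with the same invariants, one of them in the region. -/
theorem sse_of_inv {a b c d a' b' c' d' : ℕ} (hb : 1 ≤ b) (hc : 1 ≤ c) (hb' : 1 ≤ b')
    (hc' : 1 ≤ c') (ha : a < 6) (hd : d < 6)
    (h : 10000 * (b * c) ≤ (547 - 100 * a) * (547 - 100 * d))
    (ht : a + d = a' + d') (hdet : (a : ℤ) * d - b * c = a' * d' - b' * c')
    (hs : ∀ m ∈ [2, 3, 4], sc m a b c d ↔ sc m a' b' c' d') :
    SSE (M4 (a, b, c, d)) (M4 (a', b', c', d')) := by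
  have hreg : (10000 * ((b : ℤ) * c) ≤ (547 - 100 * a) * (547 - 100 * d)) := by
    have : (((547 - 100 * a) * (547 - 100 * d) : ℕ) : ℤ)
        = (547 - 100 * (a : ℤ)) * (547 - 100 * d) := by
      rw [Nat.cast_mul, Nat.cast_sub (by omega), Nat.cast_sub (by omega)]; push_cast; ring
    rw [← this]; exact_mod_cast h
  have ht' : (a : ℤ) + d = a' + d' := by exact_mod_cast ht
  have hreg' : (10000 * ((b' : ℤ) * c') ≤ (547 - 100 * a') * (547 - 100 * d')) := by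
    have e1 : (547 - 100 * (a : ℤ)) * (547 - 100 * d)
        = 299209 - 54700 * (a + d) + 10000 * (a * d) := by ring
    have e2 : (547 - 100 * (a' : ℤ)) * (547 - 100 * d')
        = 299209 - 54700 * (a' + d') + 10000 * (a' * d') := by ring
    rw [e1] at hreg
    rw [e2]
    linarith
  have hpos : (1 : ℤ) ≤ b' * c' := by
    have : 1 ≤ b' * c' := Nat.mul_pos hb' hc'
    exact_mod_cast this
  have h5a : (a : ℤ) ≤ 5 := by exact_mod_cast (by omega : a ≤ 5)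
  have h5d : (d : ℤ) ≤ 5 := by exact_mod_cast (by omega : d ≤ 5)
  have ha' : a' < 6 := by
    by_contra hcon
    have h1 : (6 : ℤ) ≤ a' := by exact_mod_cast not_lt.mp hcon
    have h2 : (d' : ℤ) ≤ 4 := by linarith
    nlinarith
  have hd' : d' < 6 := by
    by_contra hcon
    have h1 : (6 : ℤ) ≤ d' := by exact_mod_cast not_lt.mp hcon
    have h2 : (a' : ℤ) ≤ 4 := by linarith
    nlinarith
  have h' : 10000 * (b' * c') ≤ (547 - 100 * a') * (547 - 100 * d') := by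
    have : (((547 - 100 * a') * (547 - 100 * d') : ℕ) : ℤ)
        = (547 - 100 * (a' : ℤ)) * (547 - 100 * d') := by
      rw [Nat.cast_mul, Nat.cast_sub (by omega), Nat.cast_sub (by omega)]; push_cast; ring
    rw [← this] at hreg'; exact_mod_cast hreg'
  have hkey : key a b c d = key a' b' c' d' := by
    unfold key
    simp only [hs 2 (by simp), hs 3 (by simp), hs 4 (by simp)]
  have hrep : repq (a, b, c, d) = repq (a', b', c', d') := by
    unfold repq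
    simp only
    rw [hkey, ht]
    have e1 : b * c - a * d = b' * c' - a' * d' := by
      zify at *
      omega
    have e2 : a * d - b * c = a' * d' - b' * c' := by
      zify at *
      omega
    rw [e1, e2]
  have r1 := region_sse hb hc ha hd h
  have r2 := region_sse hb' hc' ha' hd' h'
  rw [hrep] at r1
  exact r1.trans r2.symm

theorem region_of_roots {a b c d : ℕ} (hb : 1 ≤ b) (hc : 1 ≤ c)
    (hr : ∀ z : ℂ, ((M4 (a, b, c, d)).map (Nat.cast : ℕ → ℂ)).charpoly.IsRoot z →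
      ‖z‖ ≤ 5.47) :
    a < 6 ∧ d < 6 ∧ 10000 * (b * c) ≤ (547 - 100 * a) * (547 - 100 * d) := by
  obtain ⟨D, hD⟩ : ∃ D : ℝ, D = ((a : ℝ) - d) ^ 2 + 4 * (b * c) := ⟨_, rfl⟩
  have hbc : (1 : ℝ) ≤ b * c := by
    have : 1 ≤ b * c := Nat.mul_pos hb hc
    exact_mod_cast this
  have hDpos : 0 < D := by rw [hD]; nlinarith [sq_nonneg ((a : ℝ) - d)]
  have hsq : Real.sqrt D ^ 2 = D := Real.sq_sqrt hDpos.le
  have hspos : 0 < Real.sqrt D := Real.sqrt_pos.mpr hDpos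
  obtain ⟨r, hrr⟩ : ∃ r : ℝ, r = ((a : ℝ) + d + Real.sqrt D) / 2 := ⟨_, rfl⟩
  have hroot : r ^ 2 - (a + d) * r + (a * d - b * c) = 0 := by
    rw [hrr]; nlinarith
  have h1 := hr (r : ℂ) (by
    rw [Polynomial.IsRoot, Matrix.charpoly_fin_two]
    simp only [Polynomial.eval_add, Polynomial.eval_sub, Polynomial.eval_pow, Polynomial.eval_X,
      Polynomial.eval_mul, Polynomial.eval_C, Matrix.trace_fin_two, Matrix.det_fin_two,
      Matrix.map_apply]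
    simp only [M4, Matrix.of_apply, Matrix.cons_val', Matrix.cons_val_zero, Matrix.cons_val_one,
      Matrix.cons_val_fin_one]
    have := congrArg (fun x : ℝ => (x : ℂ)) hroot
    push_cast at this
    exact this)
  rw [Complex.norm_real, Real.norm_eq_abs] at h1
  have h2 : r ≤ 5.47 := (le_abs_self r).trans h1
  have h3 : Real.sqrt D ≤ 10.94 - a - d := by rw [hrr] at h2; norm_num at h2 ⊢; linarith
  have h4 : D ≤ (10.94 - a - d) ^ 2 := by
    rw [← hsq]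
    exact pow_le_pow_left₀ hspos.le h3 2
  have h5 : 10000 * ((b : ℝ) * c) ≤ (547 - 100 * a) * (547 - 100 * d) := by
    rw [hD] at h4; norm_num at h4; nlinarith
  have h6 : (a : ℝ) + d < 10.94 := by linarith
  have ha : a < 6 := by
    by_contra hcon
    have h7 : (6 : ℝ) ≤ a := by exact_mod_cast not_lt.mp hcon
    have h8 : (d : ℝ) < 4.94 := by norm_num at h6 ⊢; linarith
    norm_num at h8
    nlinarith
  have hd : d < 6 := by
    by_contra hcon
    have h7 : (6 : ℝ) ≤ d := by exact_mod_cast not_lt.mp hcon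
    have h8 : (a : ℝ) < 4.94 := by norm_num at h6 ⊢; linarith
    norm_num at h8
    nlinarith
  refine ⟨ha, hd, ?_⟩
  have h8 : (((547 - 100 * a) * (547 - 100 * d) : ℕ) : ℝ)
      = (547 - 100 * (a : ℝ)) * (547 - 100 * d) := by
    rw [Nat.cast_mul, Nat.cast_sub (by omega), Nat.cast_sub (by omega)]; push_cast; ring
  rw [← h8] at h5
  exact_mod_cast h5

theorem mat_eq_M4 (A : Matrix (Fin 2) (Fin 2) ℕ) : A = M4 (A 0 0, A 0 1, A 1 0, A 1 1) := by
  ext i j; fin_cases i <;> fin_cases j <;> rfl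

theorem map_M4 (a b c d : ℕ) : (M4 (a, b, c, d)).map (Nat.cast : ℕ → ℤ) = mz a b c d := by
  ext i j; fin_cases i <;> fin_cases j <;> rfl

/-- The invariants: trace, determinant, and for `m = 2, 3, 4` whether the matrix is scalar and
invertible modulo `m`. -/
def SameInv (A B : Matrix (Fin 2) (Fin 2) ℕ) : Prop :=
  A 0 0 + A 1 1 = B 0 0 + B 1 1 ∧
  A 0 0 * A 1 1 + B 0 1 * B 1 0 = B 0 0 * B 1 1 + A 0 1 * A 1 0 ∧
  ∀ m ∈ [2, 3, 4], sc m (A 0 0) (A 0 1) (A 1 0) (A 1 1) ↔ sc m (B 0 0) (B 0 1) (B 1 0) (B 1 1)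

theorem sameInv_of_se {A B : Matrix (Fin 2) (Fin 2) ℕ}
    (h : SE ℤ (A.map (Nat.cast : ℕ → ℤ)) (B.map (Nat.cast : ℕ → ℤ))) : SameInv A B := by
  rw [mat_eq_M4 A, mat_eq_M4 B, map_M4, map_M4] at h
  have h1 := h.trace_det (by rw [mz_trace]; positivity) (by rw [mz_trace]; positivity)
  rw [mz_trace, mz_trace, mz_det, mz_det] at h1
  refine ⟨by exact_mod_cast h1.1, ?_, fun m _ => ⟨fun hs => h.symm.sc_of hs, fun hs => h.sc_of hs⟩⟩
  have h2 := h1.2
  have h3 : (A 0 0 : ℤ) * A 1 1 + B 0 1 * B 1 0 = B 0 0 * B 1 1 + A 0 1 * A 1 0 := by linarith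
  exact_mod_cast h3

theorem sse_of_sameInv {A B : Matrix (Fin 2) (Fin 2) ℕ} (hA : 0 < A 0 1 ∧ 0 < A 1 0)
    (hB : 0 < B 0 1 ∧ 0 < B 1 0)
    (hr : ∀ z : ℂ, (A.map (Nat.cast : ℕ → ℂ)).charpoly.IsRoot z → ‖z‖ ≤ 5.47)
    (h : SameInv A B) : SSE A B := by
  obtain ⟨h1, h2, h3⟩ := h
  rw [mat_eq_M4 A] at hr ⊢
  rw [mat_eq_M4 B]
  obtain ⟨k1, k2, k3⟩ := region_of_roots hA.1 hA.2 hr
  refine sse_of_inv hA.1 hA.2 hB.1 hB.2 k1 k2 k3 h1 ?_ h3
  have h4 : (A 0 0 : ℤ) * A 1 1 + B 0 1 * B 1 0 = B 0 0 * B 1 1 + A 0 1 * A 1 0 := by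
    exact_mod_cast h2
  linarith

/-- The theorem. -/
theorem main (A B : Matrix (Fin 2) (Fin 2) ℕ) (hA : 0 < A 0 1 ∧ 0 < A 1 0)
    (hB : 0 < B 0 1 ∧ 0 < B 1 0)
    (hr : ∀ z : ℂ, (A.map (Nat.cast : ℕ → ℂ)).charpoly.IsRoot z → ‖z‖ ≤ 5.47) :
    (SSE A B ↔ SE ℕ A B) ∧
    (SE ℕ A B ↔ SE ℤ (A.map (Nat.cast : ℕ → ℤ)) (B.map (Nat.cast : ℕ → ℤ))) ∧
    (SSE A B ↔ SameInv A B) := by
  have e1 : SSE A B → SE ℕ A B := se_of_sse
  have e2 : SE ℕ A B → SE ℤ (A.map (Nat.cast : ℕ → ℤ)) (B.map (Nat.cast : ℕ → ℤ)) := seZ_of_seN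
  have e3 : SE ℤ (A.map (Nat.cast : ℕ → ℤ)) (B.map (Nat.cast : ℕ → ℤ)) → SameInv A B :=
    sameInv_of_se
  have e4 : SameInv A B → SSE A B := sse_of_sameInv hA hB hr
  exact ⟨⟨e1, fun h => e4 (e3 (e2 h))⟩, ⟨e2, fun h => e1 (e4 (e3 h))⟩,
    ⟨fun h => e3 (e2 (e1 h)), e4⟩⟩

end Pool.Agent.X315.SF
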