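import Mathlib

set_option autoImplicit false

/-!
# Shift equivalence over `ℤ` of `2 × 2` matrices: trace, determinant and scalar residues
-/

namespace Pool.Agent.X315.SF

open Matrix

/-- Shift equivalence of square matrices over a semiring `k`. -/
def SE (k : Type) [Semiring k] {n m : ℕ} (A : Matrix (Fin n) (Fin n) k)
    (B : Matrix (Fin m) (Fin m) k) : Prop :=
  ∃ l, 1 ≤ l ∧ ∃ (R : Matrix (Fin n) (Fin m) k) (S : Matrix (Fin m) (Fin n) k),
    A ^ l = R * S ∧ B ^ l = S * R ∧ A * R = R * B ∧ S * A = B * S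

theorem SE.symm {k : Type} [Semiring k] {n m : ℕ} {A : Matrix (Fin n) (Fin n) k}
    {B : Matrix (Fin m) (Fin m) k} (h : SE k A B) : SE k B A := by
  obtain ⟨l, hl, R, S, h1, h2, h3, h4⟩ := h
  exact ⟨l, hl, S, R, h2, h1, h4.symm, h3.symm⟩

theorem sq_of_det_zero {A : Matrix (Fin 2) (Fin 2) ℤ} (h : A.det = 0) : A * A = A.trace • A := by
  rw [Matrix.det_fin_two] at h
  ext i j
  fin_cases i <;> fin_cases j <;>
    simp [Matrix.mul_apply, Fin.sum_univ_two, Matrix.trace_fin_two] <;> linarith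

theorem trace_pow_of_det_zero {A : Matrix (Fin 2) (Fin 2) ℤ} (h : A.det = 0) (k : ℕ) :
    A ^ (k + 1) = A.trace ^ k • A := by
  induction k with
  | zero => simp
  | succ k ih =>
    rw [pow_succ, ih, Matrix.smul_mul, sq_of_det_zero h, smul_smul, pow_succ]

theorem SE.trace_det {A B : Matrix (Fin 2) (Fin 2) ℤ} (h : SE ℤ A B) (hA : 0 ≤ A.trace)
    (hB : 0 ≤ B.trace) : A.trace = B.trace ∧ A.det = B.det := by
  obtain ⟨l, hl, R, S, h1, h2, h3, h4⟩ := h
  by_cases hdet : A.det = 0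
  · have hB0 : B.det = 0 := by
      have : B.det ^ l = A.det ^ l := by
        rw [← Matrix.det_pow, ← Matrix.det_pow, h1, h2, Matrix.det_mul, Matrix.det_mul, mul_comm]
      rw [hdet, zero_pow (by omega)] at this
      exact pow_eq_zero_iff (by omega) |>.mp this
    refine ⟨?_, hdet.trans hB0.symm⟩
    obtain ⟨k, rfl⟩ : ∃ k, l = k + 1 := ⟨l - 1, by omega⟩
    have ht : (A ^ (k + 1)).trace = (B ^ (k + 1)).trace := by
      rw [h1, h2, Matrix.trace_mul_comm]
    rw [trace_pow_of_det_zero hdet, trace_pow_of_det_zero hB0, Matrix.trace_smul,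
      Matrix.trace_smul, smul_eq_mul, smul_eq_mul, ← pow_succ, ← pow_succ] at ht
    exact (pow_left_inj₀ hA hB (by omega)).mp ht
  · have hR : R.det ≠ 0 := by
      intro hR
      have : A.det ^ l = 0 := by rw [← Matrix.det_pow, h1, Matrix.det_mul, hR, zero_mul]
      exact hdet (pow_eq_zero_iff (by omega) |>.mp this)
    constructor
    · have e1 : R.det • A = R * B * R.adjugate := by
        rw [← h3, Matrix.mul_assoc, Matrix.mul_adjugate, Matrix.mul_smul, Matrix.mul_one]
      have e2 := congrArg Matrix.trace e1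
      rw [Matrix.trace_smul, Matrix.trace_mul_comm, ← Matrix.mul_assoc, Matrix.adjugate_mul,
        Matrix.smul_mul, Matrix.one_mul, Matrix.trace_smul] at e2
      exact mul_left_cancel₀ hR e2
    · have e1 := congrArg Matrix.det h3
      rw [Matrix.det_mul, Matrix.det_mul, mul_comm] at e1
      exact mul_left_cancel₀ hR e1

theorem SE.scalar {A B : Matrix (Fin 2) (Fin 2) ℤ} (h : SE ℤ A B) {m s : ℤ}
    (hB : ∀ i j, m ∣ (B - s • (1 : Matrix (Fin 2) (Fin 2) ℤ)) i j) (hc : IsCoprime m A.det)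
    (i j : Fin 2) : m ∣ (A - s • (1 : Matrix (Fin 2) (Fin 2) ℤ)) i j := by
  obtain ⟨l, hl, R, S, h1, h2, h3, h4⟩ := h
  choose B1 hB1 using hB
  have hB' : B - s • (1 : Matrix (Fin 2) (Fin 2) ℤ) = m • (Matrix.of B1) := by
    ext i j
    rw [hB1 i j]; simp
  have e1 : (A - s • (1 : Matrix (Fin 2) (Fin 2) ℤ)) * A ^ l = m • (R * Matrix.of B1 * S) := by
    have e2 : (A - s • (1 : Matrix (Fin 2) (Fin 2) ℤ)) * R
        = R * (B - s • (1 : Matrix (Fin 2) (Fin 2) ℤ)) := by
      rw [Matrix.sub_mul, Matrix.mul_sub, h3, Matrix.smul_mul, Matrix.mul_smul, Matrix.one_mul,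
        Matrix.mul_one]
    rw [h1, ← Matrix.mul_assoc, e2, hB', Matrix.mul_smul, Matrix.smul_mul]
  have e3 : (A.det ^ l) • (A - s • (1 : Matrix (Fin 2) (Fin 2) ℤ))
      = m • (R * Matrix.of B1 * S * (A ^ l).adjugate) := by
    rw [← Matrix.smul_mul, ← e1, Matrix.mul_assoc, Matrix.mul_adjugate, Matrix.mul_smul,
      Matrix.mul_one, Matrix.det_pow]
  have e4 := congrFun (congrFun e3 i) j
  rw [Matrix.smul_apply, Matrix.smul_apply, smul_eq_mul, smul_eq_mul] at e4
  exact (hc.pow_right (n := l)).dvd_of_dvd_mul_left ⟨_, e4⟩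

/-- The natural number matrix is, modulo `m`, a scalar matrix with invertible scalar. -/
def sc (m a b c d : ℕ) : Prop := b % m = 0 ∧ c % m = 0 ∧ a % m = d % m ∧ Nat.Coprime a m

instance (m a b c d : ℕ) : Decidable (sc m a b c d) := by unfold sc; infer_instance

/-- The integer matrix with natural number entries. -/
def mz (a b c d : ℕ) : Matrix (Fin 2) (Fin 2) ℤ := !![(a : ℤ), b; c, d]

theorem mz_trace (a b c d : ℕ) : (mz a b c d).trace = a + d := by
  simp [mz, Matrix.trace_fin_two]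

theorem mz_det (a b c d : ℕ) : (mz a b c d).det = a * d - b * c := by
  simp [mz, Matrix.det_fin_two]

theorem mz_entry (a b c d : ℕ) (s : ℤ) (i j : Fin 2) :
    (mz a b c d - s • (1 : Matrix (Fin 2) (Fin 2) ℤ)) i j
      = mz a b c d i j - s * (if i = j then 1 else 0) := by
  rw [Matrix.sub_apply, Matrix.smul_apply, Matrix.one_apply, smul_eq_mul]

theorem sc_iff_dvd {m a b c d : ℕ} (h : sc m a b c d) (i j : Fin 2) :
    (m : ℤ) ∣ (mz a b c d - (a : ℤ) • (1 : Matrix (Fin 2) (Fin 2) ℤ)) i j := by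
  obtain ⟨h1, h2, h3, _⟩ := h
  have hd : (m : ℤ) ∣ (d : ℤ) - a := by
    have := (Nat.modEq_iff_dvd (n := m) (a := a) (b := d)).mp h3
    exact this
  rw [mz_entry]
  fin_cases i <;> fin_cases j <;> simp [mz]
  · exact_mod_cast Nat.dvd_of_mod_eq_zero h1
  · exact_mod_cast Nat.dvd_of_mod_eq_zero h2
  · exact hd

theorem SE.sc_of {m a b c d a' b' c' d' : ℕ} (h : SE ℤ (mz a b c d) (mz a' b' c' d'))
    (hs : sc m a' b' c' d') : sc m a b c d := by
  have hdet := (h.trace_det (by rw [mz_trace]; positivity) (by rw [mz_trace]; positivity)).2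
  obtain ⟨h1, h2, h3, h4⟩ := id hs
  have hcop : IsCoprime (m : ℤ) (mz a b c d).det := by
    rw [hdet, mz_det]
    obtain ⟨b1, hb1⟩ := Nat.dvd_of_mod_eq_zero h1
    have hd : (m : ℤ) ∣ (d' : ℤ) - a' := (Nat.modEq_iff_dvd (n := m) (a := a') (b := d')).mp h3
    obtain ⟨k, hk⟩ := hd
    have e : (a' : ℤ) * d' - b' * c' = a' ^ 2 + m * (a' * k - b1 * c') := by
      have : (d' : ℤ) = a' + m * k := by linarith
      rw [this, hb1]; push_cast; ring
    rw [e]
    have h5 : IsCoprime (m : ℤ) ((a' : ℤ) ^ 2) :=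
      (Int.isCoprime_iff_gcd_eq_one.mpr (by
        have := h4.symm
        rwa [Int.gcd_natCast_natCast])).pow_right
    exact IsCoprime.add_mul_left_right h5 _
  have key := h.scalar (fun i j => sc_iff_dvd hs i j) hcop
  have k00 := key 0 0
  have k01 := key 0 1
  have k10 := key 1 0
  have k11 := key 1 1
  rw [mz_entry] at k00 k01 k10 k11
  simp [mz] at k00 k01 k10 k11
  have ha : a' % m = a % m := (Nat.modEq_iff_dvd (n := m) (a := a') (b := a)).mpr k00
  have hd : a' % m = d % m := (Nat.modEq_iff_dvd (n := m) (a := a') (b := d)).mpr k11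
  refine ⟨?_, ?_, ha.symm.trans hd, ?_⟩
  · exact Nat.mod_eq_zero_of_dvd (by exact_mod_cast k01)
  · exact Nat.mod_eq_zero_of_dvd (by exact_mod_cast k10)
  · have : Nat.gcd a' m = Nat.gcd a m := Nat.ModEq.gcd_eq ha
    unfold Nat.Coprime at *
    omega

end Pool.Agent.X315.SF
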