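import Pool.Agent.X315.SF.Data
import Pool.Agent.X315.SF.Inv

set_option autoImplicit false

/-!
# Irreducible `2 × 2` matrices with small spectral radius: a complete list of representatives
-/

namespace Pool.Agent.X315.SF

open Matrix

/-- The number `m` among `4, 2, 3` for which the matrix is scalar and invertible modulo `m`,
`1` if there is none. -/
def key (a b c d : ℕ) : ℕ :=
  if sc 4 a b c d then 4 else if sc 2 a b c d then 2 else if sc 3 a b c d then 3 else 1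

/-- The matrix with the given entries. -/
def M4 (q : ℕ × ℕ × ℕ × ℕ) : Matrix (Fin 2) (Fin 2) ℕ := !![q.1, q.2.1; q.2.2.1, q.2.2.2]

/-- Representatives of the classes which are not principal. -/
def tbl : List ((ℕ × ℕ × ℕ × ℕ) × (ℕ × ℕ × ℕ × ℕ)) := [
  ((2, 3, 0, 2), (1, 2, 2, 1)),
  ((2, 7, 0, 2), (1, 4, 2, 1)),
  ((2, 8, 0, 3), (1, 3, 3, 1)),
  ((2, 11, 0, 2), (1, 6, 2, 1)),
  ((2, 15, 0, 2), (1, 8, 2, 1)),
  ((2, 15, 0, 4), (1, 4, 4, 1)),
  ((2, 17, 0, 3), (1, 6, 3, 1)),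
  ((3, 0, 1, 1), (1, 1, 1, 2)),
  ((4, 0, 3, 1), (2, 1, 1, 2)),
  ((4, 0, 2, 1), (1, 1, 1, 3)),
  ((4, 0, 1, 1), (1, 1, 2, 3)),
  ((4, 1, 0, 2), (1, 2, 2, 3)),
  ((4, 5, 0, 2), (1, 2, 4, 3)),
  ((4, 5, 0, 3), (2, 3, 3, 2)),
  ((5, 0, 5, 1), (2, 1, 1, 3)),
  ((5, 0, 4, 1), (2, 1, 2, 3)),
  ((5, 0, 3, 1), (1, 1, 1, 4)),
  ((5, 0, 2, 1), (1, 1, 2, 4)),
  ((5, 0, 1, 1), (1, 1, 3, 4)),
  ((6, 0, 8, 1), (3, 1, 1, 3)),
  ((6, 0, 7, 1), (2, 1, 1, 4)),
  ((6, 0, 6, 1), (2, 1, 2, 4)),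
  ((6, 0, 5, 1), (2, 1, 3, 4)),
  ((6, 0, 5, 2), (3, 2, 2, 3)),
  ((6, 0, 4, 1), (1, 1, 1, 5)),
  ((6, 0, 3, 1), (1, 1, 2, 5)),
  ((7, 0, 11, 1), (3, 1, 1, 4)),
  ((7, 0, 10, 1), (3, 1, 2, 4)),
  ((7, 0, 9, 1), (2, 1, 1, 5)),
  ((8, 0, 15, 1), (4, 1, 1, 4)),
  ((8, 0, 14, 1), (3, 1, 1, 5))]

/-- The representative for the trace `t`, the truncated differences `D = bc - ad` and
`E = ad - bc`, and the key `k`. -/
def rep (t D E k : ℕ) : ℕ × ℕ × ℕ × ℕ :=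
  if E = 0 ∧ k = 1 then (t, D, 1, 0)
  else ((tbl.find? (fun p => p.1 == (t, D, E, k))).map Prod.snd).getD (0, 0, 0, 0)

/-- The representative of a matrix. -/
def repq (q : ℕ × ℕ × ℕ × ℕ) : ℕ × ℕ × ℕ × ℕ :=
  rep (q.1 + q.2.2.2) (q.2.1 * q.2.2.1 - q.1 * q.2.2.2) (q.1 * q.2.2.2 - q.2.1 * q.2.2.1)
    (key q.1 q.2.1 q.2.2.1 q.2.2.2)

/-- The matrices to which the general moves do not apply. -/
def specials : List (ℕ × ℕ × ℕ × ℕ) := [
  (1, 2, 2, 1), (1, 3, 2, 1), (1, 3, 3, 1), (1, 4, 2, 1), (1, 4, 3, 1),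
  (1, 4, 4, 1), (1, 5, 2, 1), (1, 5, 3, 1), (1, 6, 2, 1), (1, 6, 3, 1),
  (1, 7, 2, 1), (1, 8, 2, 1), (1, 9, 2, 1), (1, 1, 1, 2), (1, 2, 2, 2),
  (1, 2, 3, 2), (1, 2, 4, 2), (1, 2, 5, 2), (1, 2, 6, 2), (1, 2, 7, 2),
  (1, 3, 2, 2), (1, 3, 3, 2), (1, 3, 4, 2), (1, 3, 5, 2), (1, 4, 2, 2),
  (1, 4, 3, 2), (1, 5, 2, 2), (1, 5, 3, 2), (1, 6, 2, 2), (1, 7, 2, 2),
  (1, 1, 1, 3), (1, 1, 2, 3), (1, 2, 1, 3), (1, 2, 2, 3), (1, 2, 3, 3),
  (1, 2, 4, 3), (1, 2, 5, 3), (1, 3, 2, 3), (1, 3, 3, 3), (1, 4, 2, 3),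
  (1, 5, 2, 3), (1, 1, 1, 4), (1, 1, 2, 4), (1, 1, 3, 4), (1, 2, 1, 4),
  (1, 2, 2, 4), (1, 2, 3, 4), (1, 3, 1, 4), (1, 3, 2, 4), (1, 1, 1, 5),
  (1, 1, 2, 5), (1, 2, 1, 5), (2, 1, 1, 2), (2, 2, 1, 2), (2, 2, 2, 2),
  (2, 3, 1, 2), (2, 3, 2, 2), (2, 3, 3, 2), (2, 4, 2, 2), (2, 4, 3, 2),
  (2, 5, 2, 2), (2, 6, 2, 2), (2, 1, 1, 3), (2, 1, 2, 3), (2, 1, 3, 3),
  (2, 1, 4, 3), (2, 1, 5, 3), (2, 2, 1, 3), (2, 2, 2, 3), (2, 2, 3, 3),
  (2, 2, 4, 3), (2, 3, 1, 3), (2, 3, 2, 3), (2, 4, 1, 3), (2, 4, 2, 3),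
  (2, 5, 1, 3), (2, 1, 1, 4), (2, 1, 2, 4), (2, 1, 3, 4), (2, 1, 4, 4),
  (2, 1, 5, 4), (2, 2, 1, 4), (2, 2, 2, 4), (2, 3, 1, 4), (2, 4, 1, 4),
  (2, 5, 1, 4), (2, 1, 1, 5), (3, 1, 1, 3), (3, 2, 1, 3), (3, 2, 2, 3),
  (3, 3, 1, 3), (3, 3, 2, 3), (3, 4, 1, 3), (3, 5, 1, 3), (3, 6, 1, 3),
  (3, 1, 1, 4), (3, 1, 2, 4), (3, 1, 3, 4), (3, 2, 1, 4), (3, 3, 1, 4),
  (3, 1, 1, 5), (4, 1, 1, 4), (4, 2, 1, 4)]

theorem sse_rep {q r : ℕ × ℕ × ℕ × ℕ} (h : repq q = r) (h' : SSE (M4 q) (M4 r)) :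
    SSE (M4 q) (M4 (repq q)) := by rw [h]; exact h'

theorem specials_sse (q : ℕ × ℕ × ℕ × ℕ) (hq : q ∈ specials) : SSE (M4 q) (M4 (repq q)) := by
  simp only [specials, List.mem_cons, List.not_mem_nil, or_false] at hq
  rcases hq with rfl | rfl | rfl | rfl | rfl | rfl | rfl | rfl | rfl | rfl | rfl | rfl | rfl | rfl | rfl | rfl |
    rfl | rfl | rfl | rfl | rfl | rfl | rfl | rfl | rfl | rfl | rfl | rfl | rfl | rfl | rfl | rfl |
    rfl | rfl | rfl | rfl | rfl | rfl | rfl | rfl | rfl | rfl | rfl | rfl | rfl | rfl | rfl | rfl |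
    rfl | rfl | rfl | rfl | rfl | rfl | rfl | rfl | rfl | rfl | rfl | rfl | rfl | rfl | rfl | rfl |
    rfl | rfl | rfl | rfl | rfl | rfl | rfl | rfl | rfl | rfl | rfl | rfl | rfl | rfl | rfl | rfl |
    rfl | rfl | rfl | rfl | rfl | rfl | rfl | rfl | rfl | rfl | rfl | rfl | rfl | rfl | rfl | rfl |
    rfl | rfl | rfl | rfl | rfl | rfl | rfl
  · exact sse_rep (r := (1, 2, 2, 1)) (by decide +kernel) sp_1_2_2_1
  · exact sse_rep (r := (2, 5, 1, 0)) (by decide +kernel) sp_1_3_2_1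
  · exact sse_rep (r := (1, 3, 3, 1)) (by decide +kernel) sp_1_3_3_1
  · exact sse_rep (r := (1, 4, 2, 1)) (by decide +kernel) sp_1_4_2_1
  · exact sse_rep (r := (2, 11, 1, 0)) (by decide +kernel) sp_1_4_3_1
  · exact sse_rep (r := (1, 4, 4, 1)) (by decide +kernel) sp_1_4_4_1
  · exact sse_rep (r := (2, 9, 1, 0)) (by decide +kernel) sp_1_5_2_1
  · exact sse_rep (r := (2, 14, 1, 0)) (by decide +kernel) sp_1_5_3_1
  · exact sse_rep (r := (1, 6, 2, 1)) (by decide +kernel) sp_1_6_2_1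
  · exact sse_rep (r := (1, 6, 3, 1)) (by decide +kernel) sp_1_6_3_1
  · exact sse_rep (r := (2, 13, 1, 0)) (by decide +kernel) sp_1_7_2_1
  · exact sse_rep (r := (1, 8, 2, 1)) (by decide +kernel) sp_1_8_2_1
  · exact sse_rep (r := (2, 17, 1, 0)) (by decide +kernel) sp_1_9_2_1
  · exact sse_rep (r := (1, 1, 1, 2)) (by decide +kernel) sp_1_1_1_2
  · exact sse_rep (r := (3, 2, 1, 0)) (by decide +kernel) sp_1_2_2_2
  · exact sse_rep (r := (3, 4, 1, 0)) (by decide +kernel) sp_1_2_3_2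
  · exact sse_rep (r := (3, 6, 1, 0)) (by decide +kernel) sp_1_2_4_2
  · exact sse_rep (r := (3, 8, 1, 0)) (by decide +kernel) sp_1_2_5_2
  · exact sse_rep (r := (3, 10, 1, 0)) (by decide +kernel) sp_1_2_6_2
  · exact sse_rep (r := (3, 12, 1, 0)) (by decide +kernel) sp_1_2_7_2
  · exact sse_rep (r := (3, 4, 1, 0)) (by decide +kernel) sp_1_3_2_2
  · exact sse_rep (r := (3, 7, 1, 0)) (by decide +kernel) sp_1_3_3_2
  · exact sse_rep (r := (3, 10, 1, 0)) (by decide +kernel) sp_1_3_4_2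
  · exact sse_rep (r := (3, 13, 1, 0)) (by decide +kernel) sp_1_3_5_2
  · exact sse_rep (r := (3, 6, 1, 0)) (by decide +kernel) sp_1_4_2_2
  · exact sse_rep (r := (3, 10, 1, 0)) (by decide +kernel) sp_1_4_3_2
  · exact sse_rep (r := (3, 8, 1, 0)) (by decide +kernel) sp_1_5_2_2
  · exact sse_rep (r := (3, 13, 1, 0)) (by decide +kernel) sp_1_5_3_2
  · exact sse_rep (r := (3, 10, 1, 0)) (by decide +kernel) sp_1_6_2_2
  · exact sse_rep (r := (3, 12, 1, 0)) (by decide +kernel) sp_1_7_2_2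
  · exact sse_rep (r := (1, 1, 1, 3)) (by decide +kernel) sp_1_1_1_3
  · exact sse_rep (r := (1, 1, 2, 3)) (by decide +kernel) sp_1_1_2_3
  · exact sse_rep (r := (1, 1, 2, 3)) (by decide +kernel) sp_1_2_1_3
  · exact sse_rep (r := (1, 2, 2, 3)) (by decide +kernel) sp_1_2_2_3
  · exact sse_rep (r := (4, 3, 1, 0)) (by decide +kernel) sp_1_2_3_3
  · exact sse_rep (r := (1, 2, 4, 3)) (by decide +kernel) sp_1_2_4_3
  · exact sse_rep (r := (4, 7, 1, 0)) (by decide +kernel) sp_1_2_5_3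
  · exact sse_rep (r := (4, 3, 1, 0)) (by decide +kernel) sp_1_3_2_3
  · exact sse_rep (r := (4, 6, 1, 0)) (by decide +kernel) sp_1_3_3_3
  · exact sse_rep (r := (1, 2, 4, 3)) (by decide +kernel) sp_1_4_2_3
  · exact sse_rep (r := (4, 7, 1, 0)) (by decide +kernel) sp_1_5_2_3
  · exact sse_rep (r := (1, 1, 1, 4)) (by decide +kernel) sp_1_1_1_4
  · exact sse_rep (r := (1, 1, 2, 4)) (by decide +kernel) sp_1_1_2_4
  · exact sse_rep (r := (1, 1, 3, 4)) (by decide +kernel) sp_1_1_3_4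
  · exact sse_rep (r := (1, 1, 2, 4)) (by decide +kernel) sp_1_2_1_4
  · exact sse_rep (r := (5, 0, 1, 0)) (by decide +kernel) sp_1_2_2_4
  · exact sse_rep (r := (5, 2, 1, 0)) (by decide +kernel) sp_1_2_3_4
  · exact sse_rep (r := (1, 1, 3, 4)) (by decide +kernel) sp_1_3_1_4
  · exact sse_rep (r := (5, 2, 1, 0)) (by decide +kernel) sp_1_3_2_4
  · exact sse_rep (r := (1, 1, 1, 5)) (by decide +kernel) sp_1_1_1_5
  · exact sse_rep (r := (1, 1, 2, 5)) (by decide +kernel) sp_1_1_2_5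
  · exact sse_rep (r := (1, 1, 2, 5)) (by decide +kernel) sp_1_2_1_5
  · exact sse_rep (r := (2, 1, 1, 2)) (by decide +kernel) sp_2_1_1_2
  · exact sse_rep (r := (1, 1, 1, 3)) (by decide +kernel) sp_2_2_1_2
  · exact sse_rep (r := (4, 0, 1, 0)) (by decide +kernel) sp_2_2_2_2
  · exact sse_rep (r := (1, 1, 2, 3)) (by decide +kernel) sp_2_3_1_2
  · exact sse_rep (r := (4, 2, 1, 0)) (by decide +kernel) sp_2_3_2_2
  · exact sse_rep (r := (2, 3, 3, 2)) (by decide +kernel) sp_2_3_3_2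
  · exact sse_rep (r := (4, 4, 1, 0)) (by decide +kernel) sp_2_4_2_2
  · exact sse_rep (r := (4, 8, 1, 0)) (by decide +kernel) sp_2_4_3_2
  · exact sse_rep (r := (4, 6, 1, 0)) (by decide +kernel) sp_2_5_2_2
  · exact sse_rep (r := (4, 8, 1, 0)) (by decide +kernel) sp_2_6_2_2
  · exact sse_rep (r := (2, 1, 1, 3)) (by decide +kernel) sp_2_1_1_3
  · exact sse_rep (r := (2, 1, 2, 3)) (by decide +kernel) sp_2_1_2_3
  · exact sse_rep (r := (1, 1, 1, 4)) (by decide +kernel) sp_2_1_3_3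
  · exact sse_rep (r := (1, 1, 2, 4)) (by decide +kernel) sp_2_1_4_3
  · exact sse_rep (r := (1, 1, 3, 4)) (by decide +kernel) sp_2_1_5_3
  · exact sse_rep (r := (2, 1, 2, 3)) (by decide +kernel) sp_2_2_1_3
  · exact sse_rep (r := (1, 1, 2, 4)) (by decide +kernel) sp_2_2_2_3
  · exact sse_rep (r := (5, 0, 1, 0)) (by decide +kernel) sp_2_2_3_3
  · exact sse_rep (r := (5, 2, 1, 0)) (by decide +kernel) sp_2_2_4_3
  · exact sse_rep (r := (1, 1, 1, 4)) (by decide +kernel) sp_2_3_1_3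
  · exact sse_rep (r := (5, 0, 1, 0)) (by decide +kernel) sp_2_3_2_3
  · exact sse_rep (r := (1, 1, 2, 4)) (by decide +kernel) sp_2_4_1_3
  · exact sse_rep (r := (5, 2, 1, 0)) (by decide +kernel) sp_2_4_2_3
  · exact sse_rep (r := (1, 1, 3, 4)) (by decide +kernel) sp_2_5_1_3
  · exact sse_rep (r := (2, 1, 1, 4)) (by decide +kernel) sp_2_1_1_4
  · exact sse_rep (r := (2, 1, 2, 4)) (by decide +kernel) sp_2_1_2_4
  · exact sse_rep (r := (2, 1, 3, 4)) (by decide +kernel) sp_2_1_3_4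
  · exact sse_rep (r := (1, 1, 1, 5)) (by decide +kernel) sp_2_1_4_4
  · exact sse_rep (r := (1, 1, 2, 5)) (by decide +kernel) sp_2_1_5_4
  · exact sse_rep (r := (2, 1, 2, 4)) (by decide +kernel) sp_2_2_1_4
  · exact sse_rep (r := (1, 1, 1, 5)) (by decide +kernel) sp_2_2_2_4
  · exact sse_rep (r := (2, 1, 3, 4)) (by decide +kernel) sp_2_3_1_4
  · exact sse_rep (r := (1, 1, 1, 5)) (by decide +kernel) sp_2_4_1_4
  · exact sse_rep (r := (1, 1, 2, 5)) (by decide +kernel) sp_2_5_1_4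
  · exact sse_rep (r := (2, 1, 1, 5)) (by decide +kernel) sp_2_1_1_5
  · exact sse_rep (r := (3, 1, 1, 3)) (by decide +kernel) sp_3_1_1_3
  · exact sse_rep (r := (2, 1, 1, 4)) (by decide +kernel) sp_3_2_1_3
  · exact sse_rep (r := (3, 2, 2, 3)) (by decide +kernel) sp_3_2_2_3
  · exact sse_rep (r := (2, 1, 2, 4)) (by decide +kernel) sp_3_3_1_3
  · exact sse_rep (r := (1, 1, 2, 5)) (by decide +kernel) sp_3_3_2_3
  · exact sse_rep (r := (2, 1, 3, 4)) (by decide +kernel) sp_3_4_1_3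
  · exact sse_rep (r := (1, 1, 1, 5)) (by decide +kernel) sp_3_5_1_3
  · exact sse_rep (r := (1, 1, 2, 5)) (by decide +kernel) sp_3_6_1_3
  · exact sse_rep (r := (3, 1, 1, 4)) (by decide +kernel) sp_3_1_1_4
  · exact sse_rep (r := (3, 1, 2, 4)) (by decide +kernel) sp_3_1_2_4
  · exact sse_rep (r := (2, 1, 1, 5)) (by decide +kernel) sp_3_1_3_4
  · exact sse_rep (r := (3, 1, 2, 4)) (by decide +kernel) sp_3_2_1_4
  · exact sse_rep (r := (2, 1, 1, 5)) (by decide +kernel) sp_3_3_1_4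
  · exact sse_rep (r := (3, 1, 1, 5)) (by decide +kernel) sp_3_1_1_5
  · exact sse_rep (r := (4, 1, 1, 4)) (by decide +kernel) sp_4_1_1_4
  · exact sse_rep (r := (3, 1, 1, 5)) (by decide +kernel) sp_4_2_1_4

/-- The region. -/
def cond (a b c d : ℕ) : Bool :=
  decide (1 ≤ a) && decide (1 ≤ d) && decide (1 ≤ b) && decide (1 ≤ c) &&
    decide (10000 * (b * c) ≤ (547 - 100 * a) * (547 - 100 * d)) &&
    ((decide (b ≠ 1) && decide (c ≠ 1)) || decide (b * c < a * d))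

/-- Membership of the matrix, or of the matrix with the two states exchanged. -/
def mem2 (a b c d : ℕ) : Bool :=
  decide ((a, b, c, d) ∈ specials) ||
    (decide ((d, c, b, a) ∈ specials) && decide (repq (d, c, b, a) = repq (a, b, c, d)))

theorem coverB : ((List.range 6).all fun a => (List.range 6).all fun d =>
    (List.range 20).all fun b => (List.range 20).all fun c => (!(cond a b c d) || mem2 a b c d))
      = true := by
  decide +kernel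

theorem cover (a : ℕ) (ha : a < 6) (d : ℕ) (hd : d < 6) (b : ℕ) (hb : b < 20) (c : ℕ)
    (hc : c < 20) (h1 : 1 ≤ a) (h2 : 1 ≤ d) (h3 : 1 ≤ b) (h4 : 1 ≤ c)
    (h5 : 10000 * (b * c) ≤ (547 - 100 * a) * (547 - 100 * d))
    (h6 : (b ≠ 1 ∧ c ≠ 1) ∨ b * c < a * d) :
    (a, b, c, d) ∈ specials ∨ ((d, c, b, a) ∈ specials ∧ repq (d, c, b, a) = repq (a, b, c, d)) := by
  have h := coverB
  simp only [List.all_eq_true, List.mem_range] at h
  have h7 := h a ha d hd b hb c hc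
  have hcond : cond a b c d = true := by
    unfold cond
    simp only [Bool.and_eq_true, Bool.or_eq_true, decide_eq_true_eq]
    exact ⟨⟨⟨⟨⟨h1, h2⟩, h3⟩, h4⟩, h5⟩, h6⟩
  rw [hcond] at h7
  simp only [Bool.not_true, Bool.false_or] at h7
  unfold mem2 at h7
  simpa only [Bool.and_eq_true, Bool.or_eq_true, decide_eq_true_eq] using h7

theorem key_one {a b c d : ℕ} (h : ∀ m, 2 ≤ m → ¬ sc m a b c d) : key a b c d = 1 := by
  unfold key
  rw [if_neg (h 4 (by norm_num)), if_neg (h 2 (by norm_num)), if_neg (h 3 (by norm_num))]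

theorem rep_prin (t D : ℕ) : rep t D 0 1 = (t, D, 1, 0) := by
  unfold rep; rw [if_pos ⟨rfl, rfl⟩]

theorem repq_prin {a b c d : ℕ} (h : ∀ m, 2 ≤ m → ¬ sc m a b c d) (h' : a * d ≤ b * c) :
    repq (a, b, c, d) = (a + d, b * c - a * d, 1, 0) := by
  unfold repq
  simp only
  rw [key_one h, Nat.sub_eq_zero_of_le h', rep_prin]

/-- Every irreducible matrix in the region is strong shift equivalent to its representative. -/
theorem region_sse {a b c d : ℕ} (hb : 1 ≤ b) (hc : 1 ≤ c) (ha : a < 6) (hd : d < 6)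
    (h : 10000 * (b * c) ≤ (547 - 100 * a) * (547 - 100 * d)) :
    SSE (M4 (a, b, c, d)) (M4 (repq (a, b, c, d))) := by
  rcases Nat.eq_zero_or_pos d with h0 | hd1
  · subst h0
    rw [repq_prin (fun m hm hs => by
      obtain ⟨_, _, h3, h4⟩ := hs
      rw [Nat.zero_mod] at h3
      have h5 := Nat.dvd_of_mod_eq_zero h3
      have h6 := Nat.Coprime.eq_one_of_dvd h4.symm h5
      omega) (by simp)]
    simpa [M4] using sse_zero a b c
  rcases Nat.eq_zero_or_pos a with h0 | ha1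
  · subst h0
    rw [repq_prin (fun m hm hs => by
      obtain ⟨_, _, _, h4⟩ := hs
      have h5 : Nat.gcd 0 m = 1 := h4
      rw [Nat.gcd_zero_left] at h5
      omega) (by simp)]
    have h1 := (sse_swap 0 b c d).trans (sse_zero d c b)
    simpa [M4, mul_comm] using h1
  by_cases hc1 : c = 1 ∧ a * d ≤ b * c
  · obtain ⟨rfl, h1⟩ := hc1
    rw [repq_prin (fun m hm hs => by
      obtain ⟨_, h2, _, _⟩ := hs
      rw [Nat.mod_eq_of_lt (by omega)] at h2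
      omega) h1]
    have h2 := sse_prin (b - a * d) d a
    rw [show a * d + (b - a * d) = b by omega] at h2
    simpa [M4] using h2
  by_cases hb1 : b = 1 ∧ a * d ≤ b * c
  · obtain ⟨rfl, h1⟩ := hb1
    rw [repq_prin (fun m hm hs => by
      obtain ⟨h2, _, _, _⟩ := hs
      rw [Nat.mod_eq_of_lt (by omega)] at h2
      omega) h1]
    have h2 := (sse_swap a 1 c d).trans (by
      have h3 := sse_prin (c - d * a) a d
      rwa [show d * a + (c - d * a) = c by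
        have : d * a = a * d := mul_comm _ _
        omega] at h3)
    have e1 : d + a = a + d := add_comm _ _
    have e2 : c - d * a = 1 * c - a * d := by rw [one_mul, mul_comm d a]
    rw [e1, e2] at h2
    exact h2
  · have hlim : b * c < 20 := by
      have h1 : (547 - 100 * a) * (547 - 100 * d) ≤ (547 - 100 * 1) * (547 - 100 * 1) := by
        apply Nat.mul_le_mul <;> omega
      omega
    have hb2 : b < 20 := lt_of_le_of_lt (Nat.le_mul_of_pos_right b hc) hlim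
    have hc2 : c < 20 := lt_of_le_of_lt (Nat.le_mul_of_pos_left c hb) hlim
    have hcase : (b ≠ 1 ∧ c ≠ 1) ∨ b * c < a * d := by
      by_contra hcon
      push Not at hcon
      obtain ⟨h1, h2⟩ := hcon
      by_cases hb3 : b = 1
      · exact hb1 ⟨hb3, h2⟩
      · exact hc1 ⟨h1 hb3, h2⟩
    rcases cover a ha d hd b hb2 c hc2 ha1 hd1 hb hc h hcase with h1 | ⟨h1, h2⟩
    · exact specials_sse _ h1
    · rw [← h2]
      exact SSE.trans (sse_swap a b c d) (specials_sse _ h1)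

end Pool.Agent.X315.SF
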