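import Pool.Agent.X315.SF.Base

set_option autoImplicit false

/-!
# `2 × 2` matrices with an entry whose prime factors divide the determinant
-/

namespace Pool.Agent.X315.SF

open Matrix

theorem sse_factor_left (p a b c d : ℕ) : SSE !![p * a, b; p * c, d] !![p * a, p * b; c, d] := by
  apply Elem.sse
  refine ⟨(!![a, b; c, d] : Matrix (Fin 2) (Fin 2) ℕ), (!![p, 0; 0, 1] : Matrix (Fin 2) (Fin 2) ℕ),
    ?_, ?_⟩ <;> (ext i j; fin_cases i <;> fin_cases j <;>
      simp [Matrix.mul_apply, Fin.sum_univ_two, mul_comm])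

theorem sse_factor_right (p a b c d : ℕ) : SSE !![a, b; p * c, p * d] !![a, p * b; c, p * d] := by
  apply Elem.sse
  refine ⟨(!![1, 0; 0, p] : Matrix (Fin 2) (Fin 2) ℕ), (!![a, b; c, d] : Matrix (Fin 2) (Fin 2) ℕ),
    ?_, ?_⟩ <;> (ext i j; fin_cases i <;> fin_cases j <;>
      simp [Matrix.mul_apply, Fin.sum_univ_two, mul_comm])

/-- If all prime factors of the lower left entry divide the product of the diagonal entries and
the determinant is not positive, the matrix is strong shift equivalent to the companion matrix. -/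
theorem sse_rad (a d : ℕ) : ∀ c : ℕ, 0 < c → ∀ b : ℕ, (∀ p, p.Prime → p ∣ c → p ∣ a * d) →
    a * d ≤ b * c → SSE !![a, b; c, d] !![a + d, b * c - a * d; 1, 0] := by
  intro c
  induction c using Nat.strong_induction_on with
  | _ c ih =>
    intro hc b hp hle
    rcases Nat.eq_or_lt_of_le (Nat.one_le_iff_ne_zero.mpr hc.ne') with h1 | h1
    · subst h1
      have h2 := sse_prin (b - a * d) d a
      rw [show a * d + (b - a * d) = b by omega] at h2
      simpa using h2
    · obtain ⟨p, hpp, hpc⟩ := Nat.exists_prime_and_dvd (by omega : c ≠ 1)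
      obtain ⟨c', rfl⟩ := hpc
      have hp2 := hpp.two_le
      have hc' : 0 < c' := by
        rcases Nat.eq_zero_or_pos c' with h | h
        · subst h; simp at hc
        · exact h
      have hlt : c' < p * c' := by nlinarith
      have hsm : ∀ q, q.Prime → q ∣ c' → q ∣ a * d := fun q hq hqc =>
        hp q hq (dvd_mul_of_dvd_right hqc p)
      have e : p * b * c' = b * (p * c') := by ring
      have hle' : a * d ≤ p * b * c' := by rw [e]; exact hle
      have key := ih c' hlt hc' (p * b) hsm hle'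
      rw [e] at key
      rcases (Nat.Prime.dvd_mul hpp).mp (hp p hpp (dvd_mul_right p c')) with h | h
      · obtain ⟨a', rfl⟩ := h
        exact (sse_factor_left p a' b c' d).trans key
      · obtain ⟨d', rfl⟩ := h
        exact (sse_factor_right p a b c' d').trans key

/-- The same for either of the two entries off the diagonal. -/
theorem sse_rad' {a b c d : ℕ} (hb : 0 < b) (hc : 0 < c) (hle : a * d ≤ b * c)
    (h : (∀ p, p.Prime → p ∣ b → p ∣ a * d) ∨ ∀ p, p.Prime → p ∣ c → p ∣ a * d) :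
    SSE !![a, b; c, d] !![a + d, b * c - a * d; 1, 0] := by
  rcases h with h | h
  · have h1 := sse_rad d a b hb c (fun p hp hpb => by rw [mul_comm]; exact h p hp hpb)
      (by rw [mul_comm d a, mul_comm c b]; exact hle)
    rw [add_comm d a, mul_comm c b, mul_comm d a] at h1
    exact (sse_swap a b c d).trans h1
  · exact sse_rad a d c hc b h hle

theorem sse_of_rad {A B : Matrix (Fin 2) (Fin 2) ℕ} (hA : 0 < A 0 1 ∧ 0 < A 1 0)
    (hB : 0 < B 0 1 ∧ 0 < B 1 0) (ht : A.trace = B.trace)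
    (hd : (A.map (Nat.cast : ℕ → ℤ)).det = (B.map (Nat.cast : ℕ → ℤ)).det)
    (hneg : (A.map (Nat.cast : ℕ → ℤ)).det ≤ 0)
    (hA' : (∀ p, p.Prime → p ∣ A 0 1 → (p : ℤ) ∣ (A.map (Nat.cast : ℕ → ℤ)).det) ∨
      ∀ p, p.Prime → p ∣ A 1 0 → (p : ℤ) ∣ (A.map (Nat.cast : ℕ → ℤ)).det)
    (hB' : (∀ p, p.Prime → p ∣ B 0 1 → (p : ℤ) ∣ (B.map (Nat.cast : ℕ → ℤ)).det) ∨
      ∀ p, p.Prime → p ∣ B 1 0 → (p : ℤ) ∣ (B.map (Nat.cast : ℕ → ℤ)).det) : SSE A B := by
  have main : ∀ C : Matrix (Fin 2) (Fin 2) ℕ, 0 < C 0 1 ∧ 0 < C 1 0 →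
      (C.map (Nat.cast : ℕ → ℤ)).det ≤ 0 →
      ((∀ p, p.Prime → p ∣ C 0 1 → (p : ℤ) ∣ (C.map (Nat.cast : ℕ → ℤ)).det) ∨
        ∀ p, p.Prime → p ∣ C 1 0 → (p : ℤ) ∣ (C.map (Nat.cast : ℕ → ℤ)).det) →
      SSE C !![C.trace, (-(C.map (Nat.cast : ℕ → ℤ)).det).toNat; 1, 0] := by
    intro C hC hn h
    have hdet : (C.map (Nat.cast : ℕ → ℤ)).det = (C 0 0 : ℤ) * C 1 1 - C 0 1 * C 1 0 := by
      rw [Matrix.det_fin_two]; simp [Matrix.map_apply]
    have hle : C 0 0 * C 1 1 ≤ C 0 1 * C 1 0 := by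
      rw [hdet] at hn
      have : (C 0 0 : ℤ) * C 1 1 ≤ C 0 1 * C 1 0 := by linarith
      exact_mod_cast this
    have e1 : (-(C.map (Nat.cast : ℕ → ℤ)).det).toNat = C 0 1 * C 1 0 - C 0 0 * C 1 1 := by
      rw [hdet]
      have : (-((C 0 0 : ℤ) * C 1 1 - C 0 1 * C 1 0)) = ((C 0 1 * C 1 0 - C 0 0 * C 1 1 : ℕ) : ℤ) := by
        rw [Nat.cast_sub hle]; push_cast; ring
      rw [this, Int.toNat_natCast]
    have e2 : C = !![C 0 0, C 0 1; C 1 0, C 1 1] := by
      ext i j; fin_cases i <;> fin_cases j <;> rfl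
    have hdvd : ∀ p : ℕ, (p ∣ C 0 1 ∨ p ∣ C 1 0) → (p : ℤ) ∣ (C.map (Nat.cast : ℕ → ℤ)).det →
        p ∣ C 0 0 * C 1 1 := by
      intro p hp hpd
      rw [hdet] at hpd
      have h1 : (p : ℤ) ∣ C 0 1 * C 1 0 := by
        rcases hp with hp | hp
        · exact dvd_mul_of_dvd_left (by exact_mod_cast hp) _
        · exact dvd_mul_of_dvd_right (by exact_mod_cast hp) _
      have h2 := dvd_add hpd h1
      rw [sub_add_cancel] at h2
      exact_mod_cast h2
    have key := sse_rad' (a := C 0 0) (b := C 0 1) (c := C 1 0) (d := C 1 1) hC.1 hC.2 hle (by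
      rcases h with h | h
      · exact Or.inl fun p hp hpb => hdvd p (Or.inl hpb) (h p hp hpb)
      · exact Or.inr fun p hp hpc => hdvd p (Or.inr hpc) (h p hp hpc))
    rw [e1, Matrix.trace_fin_two]
    rw [← e2] at key
    exact key
  have r1 := main A hA hneg hA'
  have r2 := main B hB (hd ▸ hneg) hB'
  rw [ht, hd] at r1
  exact r1.trans r2.symm

end Pool.Agent.X315.SF
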